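import Pool.Agent.Q270.EV.Good
import Pool.Agent.TH823.MRS.Circ5

/-!
Project EV (helper270): means over boxes and tubes.
-/

set_option autoImplicit false

namespace Pool.Agent.Q270.EV

open Finset Filter Pool.Agent.Q270.EA Pool.Agent.Q270.EC
open Pool.Agent.H373R2.T7 (energy exI)
open Pool.Agent.TH823.MRS (phase l1_short ExpoSmall)

/-- the box below `u` of side `q` -/
noncomputable def Bx {s : ℕ} (u : Fin s → ℤ) (q : ℕ) : Finset (Fin s → ℤ) :=
  Fintype.piFinset (fun i => Ioc (u i - q) (u i))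

/-- the mean over a box -/
noncomputable def bav {s : ℕ} (χ : (Fin s → ℤ) → ℂ) (u : Fin s → ℤ) (q : ℕ) : ℂ :=
  (∑ X ∈ Bx u q, χ X) / (q : ℂ) ^ s

lemma card_Bx {s : ℕ} (u : Fin s → ℤ) (q : ℕ) : (Bx u q).card = q ^ s := by
  unfold Bx
  rw [Fintype.card_piFinset]
  simp

lemma mem_Bx {s : ℕ} {u : Fin s → ℤ} {q : ℕ} {X : Fin s → ℤ} :
    X ∈ Bx u q ↔ ∀ i, u i - q < X i ∧ X i ≤ u i := by
  unfold Bx
  rw [Fintype.mem_piFinset]
  simp only [mem_Ioc]

lemma norm_bav {s : ℕ} (χ : (Fin s → ℤ) → ℂ) (u : Fin s → ℤ) (q : ℕ) (hq : 1 ≤ q) (B : ℝ)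
    (h : ∀ X, ‖χ X‖ ≤ B) : ‖bav χ u q‖ ≤ B := by
  have hq0 : (0 : ℝ) < (q : ℝ) ^ s := by
    have : (0 : ℝ) < q := by exact_mod_cast hq
    positivity
  unfold bav
  rw [norm_div, norm_pow, Complex.norm_natCast, div_le_iff₀ hq0]
  refine (norm_sum_le _ _).trans ((sum_le_sum fun X _ => h X).trans ?_)
  rw [sum_const, card_Bx, nsmul_eq_mul]
  push_cast
  rw [mul_comm]

/-- translation of a box -/
lemma bav_trans {s : ℕ} (χ : (Fin s → ℤ) → ℂ) (u z : Fin s → ℤ) (q : ℕ) :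
    bav (fun X => χ (X + z)) u q = bav χ (u + z) q := by
  unfold bav
  congr 1
  refine sum_nbij' (fun X => X + z) (fun X => X - z) ?_ ?_ ?_ ?_ ?_
  · intro X hX
    rw [mem_Bx] at hX ⊢
    intro i
    have := hX i
    simp only [Pi.add_apply]
    constructor <;> omega
  · intro X hX
    rw [mem_Bx] at hX ⊢
    intro i
    have := hX i
    simp only [Pi.add_apply, Pi.sub_apply] at this ⊢
    constructor <;> omega
  · intro X _
    simp
  · intro X _
    simp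
  · intro X _
    rfl

/-- the points of a box -/
lemma sum_Bx {s : ℕ} {β : Type} [AddCommMonoid β] (F : (Fin s → ℤ) → β) (u : Fin s → ℤ) (q : ℕ) :
    ∑ X ∈ Bx u q, F X = ∑ ρ ∈ Rs s q, F (fun i => u i - (ρ i : ℤ)) := by
  symm
  refine sum_nbij' (fun ρ => fun i => u i - (ρ i : ℤ)) (fun X => fun i => (u i - X i).toNat) ?_ ?_ ?_ ?_ ?_
  · intro ρ hρ
    rw [mem_Rs] at hρ
    rw [mem_Bx]
    intro i
    have := hρ i
    constructor <;> omega
  · intro X hX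
    rw [mem_Bx] at hX
    rw [mem_Rs]
    intro i
    have := hX i
    omega
  · intro ρ _
    funext i
    simp
  · intro X hX
    rw [mem_Bx] at hX
    funext i
    have := hX i
    dsimp only
    omega
  · intro ρ _
    rfl

/-- comparison of two boxes -/
lemma box_cmp {s : ℕ} (χ : (Fin s → ℤ) → ℂ) (hχ : ∀ X, ‖χ X‖ ≤ 1) (u u' : Fin s → ℤ) (q q' E : ℕ)
    (hq : 1 ≤ q) (hqq : q ≤ q') (hq' : q' ≤ q + E) (hE : E ≤ q) (hu : ∀ i, |u i - u' i| ≤ E) :
    ‖bav χ u q - bav χ u' q'‖ ≤ 6 * s * E / q := by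
  classical
  have hq0 : (0 : ℝ) < q := by exact_mod_cast hq
  have hq0' : (0 : ℝ) < q' := by exact_mod_cast (by omega : 0 < q')
  obtain ⟨I, hI⟩ : ∃ I, I = Bx u q ∩ Bx u' q' := ⟨_, rfl⟩
  obtain ⟨b, hb⟩ : ∃ b : ℝ, b = (q : ℝ) ^ s := ⟨_, rfl⟩
  obtain ⟨b', hb'⟩ : ∃ b' : ℝ, b' = (q' : ℝ) ^ s := ⟨_, rfl⟩
  have hb0 : 0 < b := by rw [hb]; positivity
  have hb0' : 0 < b' := by rw [hb']; positivity
  have hbb : b ≤ b' := by
    rw [hb, hb']
    have : (q : ℝ) ≤ q' := by exact_mod_cast hqq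
    exact pow_le_pow_left₀ hq0.le this s
  have hIc : ((q - E : ℕ) : ℝ) ^ s ≤ (I.card : ℝ) := by
    have h1 : (Fintype.piFinset (fun i => Ioc (max (u i - q) (u' i - q')) (min (u i) (u' i)))) ⊆ I := by
      intro X hX
      rw [Fintype.mem_piFinset] at hX
      rw [hI, mem_inter, mem_Bx, mem_Bx]
      constructor
      · intro i
        have := mem_Ioc.1 (hX i)
        rw [max_lt_iff, le_min_iff] at this
        exact ⟨this.1.1, this.2.1⟩
      · intro i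
        have := mem_Ioc.1 (hX i)
        rw [max_lt_iff, le_min_iff] at this
        exact ⟨this.1.2, this.2.2⟩
    have h2 := card_le_card h1
    rw [Fintype.card_piFinset] at h2
    have h3 : (q - E) ^ s ≤ ∏ i : Fin s, (Ioc (max (u i - q) (u' i - q')) (min (u i) (u' i))).card := by
      have h4 : (q - E) ^ s = ∏ _i : Fin s, (q - E) := by
        rw [prod_const, card_univ, Fintype.card_fin]
      rw [h4]
      refine prod_le_prod' fun i _ => ?_
      rw [Int.card_Ioc]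
      have h5 := abs_le.1 (hu i)
      omega
    exact_mod_cast h3.trans h2
  have hIb : (I.card : ℝ) ≤ b := by
    have : I.card ≤ (Bx u q).card := card_le_card (by rw [hI]; exact inter_subset_left)
    rw [card_Bx] at this
    rw [hb]
    exact_mod_cast this
  have hIb' : (I.card : ℝ) ≤ b' := hIb.trans hbb
  have hsd : ∀ (B : Finset (Fin s → ℤ)), I ⊆ B → ‖∑ X ∈ B, χ X - ∑ X ∈ I, χ X‖ ≤ (B.card : ℝ) - I.card := by
    intro B hB
    rw [← sum_sdiff hB, add_sub_cancel_right]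
    refine (norm_sum_le _ _).trans ((sum_le_sum fun X _ => hχ X).trans ?_)
    rw [sum_const, nsmul_eq_mul, mul_one, card_sdiff_of_subset hB, Nat.cast_sub (card_le_card hB)]
  have h1 := hsd (Bx u q) (by rw [hI]; exact inter_subset_left)
  have h2 := hsd (Bx u' q') (by rw [hI]; exact inter_subset_right)
  have hc : ((Bx u q).card : ℝ) = b := by rw [card_Bx, hb]; push_cast; rfl
  have hc' : ((Bx u' q').card : ℝ) = b' := by rw [card_Bx, hb']; push_cast; rfl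
  rw [hc] at h1
  rw [hc'] at h2
  have hI0 : (0 : ℝ) ≤ I.card := by positivity
  have hSI : ‖∑ X ∈ I, χ X‖ ≤ I.card := by
    refine (norm_sum_le _ _).trans ((sum_le_sum fun X _ => hχ X).trans ?_)
    simp
  have e1 : bav χ u q - bav χ u' q' = (∑ X ∈ Bx u q, χ X - ∑ X ∈ I, χ X) / (b : ℂ) -
      (∑ X ∈ Bx u' q', χ X - ∑ X ∈ I, χ X) / (b' : ℂ) + (∑ X ∈ I, χ X) * ((1 / b - 1 / b' : ℝ) : ℂ) := by
    unfold bav
    have e2 : (q : ℂ) ^ s = (b : ℂ) := by rw [hb]; push_cast; rfl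
    have e3 : (q' : ℂ) ^ s = (b' : ℂ) := by rw [hb']; push_cast; rfl
    rw [e2, e3]
    push_cast
    ring
  have hd : 0 ≤ 1 / b - 1 / b' := by
    have := one_div_le_one_div_of_le hb0 hbb
    linarith
  have e4 : ‖bav χ u q - bav χ u' q'‖ ≤ (b - I.card) / b + (b' - I.card) / b' + I.card * (1 / b - 1 / b') := by
    rw [e1]
    refine (norm_add_le _ _).trans (add_le_add ((norm_sub_le _ _).trans (add_le_add ?_ ?_)) ?_)
    · rw [norm_div, Complex.norm_real, Real.norm_of_nonneg hb0.le]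
      exact div_le_div_of_nonneg_right h1 hb0.le
    · rw [norm_div, Complex.norm_real, Real.norm_of_nonneg hb0'.le]
      exact div_le_div_of_nonneg_right h2 hb0'.le
    · rw [norm_mul, Complex.norm_real, Real.norm_of_nonneg hd]
      exact mul_le_mul_of_nonneg_right hSI hd
  have e5 : (I.card : ℝ) * (1 / b - 1 / b') ≤ 1 - I.card / b' := by
    have : (I.card : ℝ) * (1 / b - 1 / b') = I.card / b - I.card / b' := by ring
    rw [this]
    have := (div_le_one hb0).2 hIb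
    linarith
  have e6 : (b - I.card) / b = 1 - I.card / b := by field_simp
  have e7 : (b' - I.card) / b' = 1 - I.card / b' := by field_simp
  have e8 : (I.card : ℝ) / b' ≤ I.card / b := div_le_div_of_nonneg_left hI0 hb0 hbb
  have e9 : 1 - 2 * s * E / q ≤ (I.card : ℝ) / b' := by
    have hqE : (0 : ℝ) < q + E := by positivity
    have f1 : (1 : ℝ) + s * (-(2 * E / (q + E))) ≤ (1 + (-(2 * E / (q + E)))) ^ s := by
      refine one_add_mul_le_pow ?_ s
      have : 2 * (E : ℝ) / (q + E) ≤ 2 := by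
        rw [div_le_iff₀ hqE]
        linarith
      linarith
    have f2 : 1 + (-(2 * (E : ℝ) / (q + E))) = ((q - E : ℕ) : ℝ) / (q + E) := by
      rw [Nat.cast_sub hE]
      field_simp
      ring
    rw [f2, div_pow] at f1
    have f3 : ((q - E : ℕ) : ℝ) ^ s / ((q : ℝ) + E) ^ s ≤ (I.card : ℝ) / b' := by
      have g1 : (0 : ℝ) ≤ ((q - E : ℕ) : ℝ) ^ s := by positivity
      have g2 : b' ≤ ((q : ℝ) + E) ^ s := by
        rw [hb']
        have : (q' : ℝ) ≤ q + E := by exact_mod_cast hq'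
        exact pow_le_pow_left₀ hq0'.le this s
      exact (div_le_div_of_nonneg_left g1 hb0' g2).trans (div_le_div_of_nonneg_right hIc hb0'.le)
    have f4 : (2 * s * E : ℝ) / (q + E) ≤ 2 * s * E / q :=
      div_le_div_of_nonneg_left (by positivity) hq0 (by
        have : (0 : ℝ) ≤ E := by positivity
        linarith)
    have f5 : (s : ℝ) * (-(2 * E / (q + E))) = -((2 * s * E : ℝ) / (q + E)) := by ring
    rw [f5] at f1
    linarith
  have e10 : (6 : ℝ) * s * E / q = 3 * (2 * s * E / q) := by ring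
  rw [e10]
  linarith

/-- a shifted sum -/
lemma shift_sum (B : ℤ → ℂ) (hB : ∀ n, ‖B n‖ ≤ 1) (N : ℕ) (z : ℤ) :
    ‖∑ n ∈ Ioc (0 : ℤ) N, B (n + z) - ∑ n ∈ Ioc (0 : ℤ) N, B n‖ ≤ 2 * |(z : ℝ)| := by
  have h1 : ∀ (B : ℤ → ℂ), ∑ n ∈ Ioc (0 : ℤ) N, B (n + 1) - ∑ n ∈ Ioc (0 : ℤ) N, B n = B (N + 1) - B 1 := by
    intro B
    induction N with
    | zero => simp
    | succ N ih =>
      have e1 : Ioc (0 : ℤ) ((N + 1 : ℕ) : ℤ) = insert ((N : ℤ) + 1) (Ioc (0 : ℤ) N) := by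
        ext x
        rw [mem_insert, mem_Ioc, mem_Ioc]
        push_cast
        omega
      rw [e1, sum_insert (by rw [mem_Ioc]; omega), sum_insert (by rw [mem_Ioc]; omega)]
      have e2 : B ((N : ℤ) + 1 + 1) + ∑ x ∈ Ioc (0 : ℤ) N, B (x + 1) - (B ((N : ℤ) + 1) + ∑ x ∈ Ioc (0 : ℤ) N, B x) =
          B ((N : ℤ) + 1 + 1) - B ((N : ℤ) + 1) + (∑ x ∈ Ioc (0 : ℤ) N, B (x + 1) - ∑ x ∈ Ioc (0 : ℤ) N, B x) := by
        ring
      rw [e2, ih]
      push_cast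
      ring
  have h2 : ∀ (m : ℕ) (B : ℤ → ℂ), (∀ n, ‖B n‖ ≤ 1) →
      ‖∑ n ∈ Ioc (0 : ℤ) N, B (n + m) - ∑ n ∈ Ioc (0 : ℤ) N, B n‖ ≤ 2 * m := by
    intro m
    induction m with
    | zero => intro B hB; simp
    | succ m ih =>
      intro B hB
      have e1 := ih (fun n => B (n + 1)) (fun n => hB _)
      have e2 := h1 B
      have e3 : ∑ n ∈ Ioc (0 : ℤ) N, B (n + ((m + 1 : ℕ) : ℤ)) = ∑ n ∈ Ioc (0 : ℤ) N, B (n + m + 1) := by
        refine sum_congr rfl fun n _ => ?_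
        congr 1
        push_cast
        ring
      rw [e3]
      have e4 : ∑ n ∈ Ioc (0 : ℤ) N, B (n + m + 1) - ∑ n ∈ Ioc (0 : ℤ) N, B n =
          (∑ n ∈ Ioc (0 : ℤ) N, B (n + m + 1) - ∑ n ∈ Ioc (0 : ℤ) N, B (n + 1)) + (B (N + 1) - B 1) := by
        rw [← e2]
        ring
      rw [e4]
      refine (norm_add_le _ _).trans ?_
      have e5 : ‖B (N + 1) - B 1‖ ≤ 2 := (norm_sub_le _ _).trans (by linarith [hB (N + 1), hB 1])
      push_cast
      linarith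
  rcases le_total 0 z with hz | hz
  · obtain ⟨m, rfl⟩ := Int.eq_ofNat_of_zero_le hz
    have := h2 m B hB
    rw [Int.cast_natCast, abs_of_nonneg (by positivity)]
    exact this
  · obtain ⟨m, hm⟩ := Int.eq_ofNat_of_zero_le (by omega : 0 ≤ -z)
    have hz' : z = -(m : ℤ) := by omega
    have := h2 m (fun n => B (n + z)) (fun n => hB _)
    rw [norm_sub_rev, hz']
    rw [hz'] at this
    push_cast
    rw [abs_neg, abs_of_nonneg (by positivity)]
    refine le_trans (le_of_eq ?_) this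
    congr 2
    refine sum_congr rfl fun n _ => ?_
    congr 1
    omega

/-- the integers in a real interval -/
lemma card_nearZ (c r : ℝ) (hr : 0 ≤ r) (S : Finset ℤ) (h : ∀ m ∈ S, |(m : ℝ) - c| ≤ r) :
    (S.card : ℝ) ≤ 2 * r + 1 := by
  rcases S.eq_empty_or_nonempty with h0 | h0
  · rw [h0]
    simp
    positivity
  · have haS := S.min'_mem h0
    have hbS := S.max'_mem h0
    have h1 : S ⊆ Icc (S.min' h0) (S.max' h0) := by
      intro x hx
      rw [mem_Icc]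
      exact ⟨S.min'_le x hx, S.le_max' x hx⟩
    have hab := (mem_Icc.1 (h1 haS)).2
    have h2 := card_le_card h1
    rw [Int.card_Icc] at h2
    have h3 : (S.card : ℝ) ≤ (S.max' h0 : ℝ) - S.min' h0 + 1 := by
      have : (S.card : ℤ) ≤ S.max' h0 + 1 - S.min' h0 := by omega
      have h4 : (S.card : ℝ) ≤ ((S.max' h0 + 1 - S.min' h0 : ℤ) : ℝ) := by exact_mod_cast this
      push_cast at h4
      linarith
    have h4 := (abs_le.1 (h _ haS)).1
    have h5 := (abs_le.1 (h _ hbS)).2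
    linarith

/-- a sum along a line -/
lemma fib_sum (K : ℤ → ℤ) (θ C : ℝ) (hθ : 0 < θ) (hC : 0 ≤ C) (hK : ∀ n : ℤ, 0 ≤ n → |(K n : ℝ) - θ * n| ≤ C)
    (S : ℤ → ℝ) (hS0 : ∀ a, 0 ≤ S a) (d : ℤ) (N N' H : ℕ) (hS : ∀ a : ℤ, a ≤ -(H : ℤ) → S a = 0)
    (hN' : θ * N + C + |(d : ℝ)| ≤ N') :
    ∑ n ∈ Ioc (0 : ℤ) N, S (K n + d) ≤ (2 * (C / θ) + 1) * ∑ a ∈ Ioc (-(H : ℤ)) N', S a := by
  classical
  have h1 : ∑ n ∈ Ioc (0 : ℤ) N, S (K n + d) =
      ∑ n ∈ (Ioc (0 : ℤ) N).filter (fun n => K n + d ∈ Ioc (-(H : ℤ)) N'), S (K n + d) := by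
    rw [sum_filter]
    refine sum_congr rfl fun n hn => ?_
    split_ifs with h
    · rfl
    · refine hS _ ?_
      rw [mem_Ioc] at h hn
      by_contra hlt
      refine h ⟨by omega, ?_⟩
      have h2 := (abs_le.1 (hK n hn.1.le)).2
      have h3 : ((K n + d : ℤ) : ℝ) ≤ N' := by
        push_cast
        have h4 : (n : ℝ) ≤ N := by exact_mod_cast hn.2
        have h5 : θ * n ≤ θ * N := mul_le_mul_of_nonneg_left h4 hθ.le
        have h6 := le_abs_self (d : ℝ)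
        linarith
      exact_mod_cast h3
  rw [h1, ← sum_fiberwise_of_maps_to (t := Ioc (-(H : ℤ)) N') (g := fun n => K n + d)
    (fun n hn => (mem_filter.1 hn).2), mul_sum]
  refine sum_le_sum fun a _ => ?_
  have h2 : ∀ n ∈ ((Ioc (0 : ℤ) N).filter (fun n => K n + d ∈ Ioc (-(H : ℤ)) N')).filter (fun n => K n + d = a),
      S (K n + d) = S a := fun n hn => by rw [(mem_filter.1 hn).2]
  rw [sum_congr rfl h2, sum_const, nsmul_eq_mul]
  refine mul_le_mul_of_nonneg_right ?_ (hS0 a)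
  refine card_nearZ (((a : ℝ) - d) / θ) (C / θ) (by positivity) _ fun n hn => ?_
  rw [mem_filter, mem_filter, mem_Ioc] at hn
  have h3 := hK n hn.1.1.1.le
  have h4 : (K n : ℝ) = a - d := by
    have : K n = a - d := by omega
    rw [this]
    push_cast
    ring
  rw [h4] at h3
  have h5 : (n : ℝ) - ((a : ℝ) - d) / θ = -((a - d - θ * n) / θ) := by
    field_simp
    ring
  rw [h5, abs_neg, abs_div, abs_of_pos hθ]
  exact div_le_div_of_nonneg_right h3 hθ.le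

/-- the dual form of the first moment -/
theorem l1d (f : ℕ → ℂ) (hb : ∀ n, ‖f n‖ ≤ 1) (hE : ExpoSmall f) (C : ℝ) (hC : 0 ≤ C) (ε : ℝ) (hε : 0 < ε) :
    ∃ H₀ N₀ : ℕ, ∀ N : ℕ, N₀ ≤ N → ∀ H : ℕ, H₀ ≤ H → H ≤ N → ∀ (x : ℕ) (σ : ℕ → ℤ), (∀ m ∈ Icc 1 x, |σ m| ≤ H) →
      (energy 2 x σ : ℝ) * H ≤ C * (x : ℝ) ^ 4 → ∀ c : ℕ → ℂ, (∀ m, ‖c m‖ ≤ 1) →
      ∑ a ∈ Ioc (-(H : ℤ)) N, ‖∑ m ∈ Icc 1 x, c m * exI f (a + σ m)‖ ≤ ε * N * x := by
  obtain ⟨H₀, N₀, h⟩ := l1_short f hb hE 2 C hC ε hε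
  refine ⟨H₀, N₀, fun N hN H hH1 hH2 x σ hσ hen c hc => ?_⟩
  choose θ hθ1 hθ2 using fun a : ℤ => phase (∑ m ∈ Icc 1 x, c m * exI f (a + σ m))
  have h1 := h N hN H hH1 hH2 x σ hσ hen θ hθ1
  refine le_trans ?_ h1
  have h2 : ((∑ a ∈ Ioc (-(H : ℤ)) N, ‖∑ m ∈ Icc 1 x, c m * exI f (a + σ m)‖ : ℝ) : ℂ) =
      ∑ m ∈ Icc 1 x, c m * ∑ a ∈ Ioc (-(H : ℤ)) N, θ a * exI f (a + σ m) := by
    push_cast
    simp only [← hθ2, mul_sum]
    rw [sum_comm]
    refine sum_congr rfl fun m _ => sum_congr rfl fun a _ => ?_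
    ring
  have h3 : ∑ a ∈ Ioc (-(H : ℤ)) N, ‖∑ m ∈ Icc 1 x, c m * exI f (a + σ m)‖ =
      ‖((∑ a ∈ Ioc (-(H : ℤ)) N, ‖∑ m ∈ Icc 1 x, c m * exI f (a + σ m)‖ : ℝ) : ℂ)‖ := by
    rw [Complex.norm_real, Real.norm_of_nonneg (sum_nonneg fun _ _ => norm_nonneg _)]
  rw [h3, h2]
  refine (norm_sum_le _ _).trans (sum_le_sum fun m _ => ?_)
  rw [norm_mul]
  exact mul_le_of_le_one_left (norm_nonneg _) (hc m)

end Pool.Agent.Q270.EV
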