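import Pool.Agent.Q270.EV.Fam

/-!
Project EV (helper270): the sum over the primes, in cells.
-/

set_option autoImplicit false

namespace Pool.Agent.Q270.EV

open Finset Filter Pool.Agent.Q270.EA Pool.Agent.Q270.EC
open Pool.Agent.H373R2.T7 (energy exI energy_le)
open Pool.Agent.TH823.MRS (ExpoSmall pp_moment)
open Pool.Agent.Helper602.MK (PP)

variable {s : ℕ}

/-- enumeration of a finite set -/
noncomputable def en (A : Finset ℕ) (m : ℕ) : ℕ :=
  if h : m - 1 < A.card then ((A.orderEmbOfFin rfl ⟨m - 1, h⟩ : ℕ)) else 0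

lemma en_mem (A : Finset ℕ) {m : ℕ} (hm : m ∈ Icc 1 A.card) : en A m ∈ A := by
  rw [mem_Icc] at hm
  unfold en
  rw [dif_pos (by omega)]
  exact orderEmbOfFin_mem _ _ _

lemma en_inj (A : Finset ℕ) {m m' : ℕ} (hm : m ∈ Icc 1 A.card) (hm' : m' ∈ Icc 1 A.card)
    (h : en A m = en A m') : m = m' := by
  rw [mem_Icc] at hm hm'
  unfold en at h
  rw [dif_pos (by omega), dif_pos (by omega)] at h
  have := (A.orderEmbOfFin rfl).injective h
  rw [Fin.mk.injEq] at this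
  omega

lemma en_surj (A : Finset ℕ) {a : ℕ} (ha : a ∈ A) : ∃ m ∈ Icc 1 A.card, en A m = a := by
  have h3 : a ∈ Set.range (A.orderEmbOfFin rfl) := by
    rw [range_orderEmbOfFin]
    exact ha
  obtain ⟨i, hi⟩ := h3
  refine ⟨i + 1, ?_, ?_⟩
  · rw [mem_Icc]
    omega
  · unfold en
    rw [dif_pos (by simp)]
    simpa using hi

lemma sum_en {β : Type} [AddCommMonoid β] (A : Finset ℕ) (φ : ℕ → β) :
    ∑ m ∈ Icc 1 A.card, φ (en A m) = ∑ a ∈ A, φ a := by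
  refine sum_nbij (en A) (fun m hm => en_mem A hm) (fun m hm m' hm' h => en_inj A hm hm' h) ?_ fun m _ => rfl
  intro a ha
  obtain ⟨m, hm, h⟩ := en_surj A (mem_coe.1 ha)
  exact ⟨m, mem_coe.2 hm, h⟩

/-- the energy of a family of primes -/
lemma energy_cell : ∃ C₁ : ℝ, 0 < C₁ ∧ ∃ j₁ : ℕ, ∀ j : ℕ, j₁ ≤ j → ∀ A : Finset ℕ, A ⊆ PD j → ∀ τ : ℕ → ℕ,
    (∀ a ∈ A, ∀ b ∈ A, ∀ c ∈ A, ∀ d ∈ A, τ a + τ b = τ c + τ d → a + b = c + d) →
    (energy 2 A.card (fun m => ((τ (en A m) : ℕ) : ℤ)) : ℝ) * 2 ^ j ≤ C₁ * ((PD j).card : ℝ) ^ 4 := by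
  obtain ⟨C, hC, k0, hk0, h1⟩ := pp_moment
  obtain ⟨c, C', j₀, hc, hC', hj₀, hch⟩ := Pool.Agent.Q148.EA.t_CHEB
  have hl2 : 0 < Real.log 2 := Real.log_pos (by norm_num)
  refine ⟨C / (c * Real.log 2) ^ 4, by positivity, max j₀ (max k0 2), fun j hj A hA τ hτ => ?_⟩
  have hjj₀ : j₀ ≤ j := (le_max_left _ _).trans hj
  have hjk : k0 ≤ j := (le_max_left _ _).trans ((le_max_right _ _).trans hj)
  have hj2 : 2 ≤ j := (le_max_right _ _).trans ((le_max_right _ _).trans hj)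
  obtain ⟨k, hk⟩ : ∃ k : ℕ, k = 2 ^ j := ⟨_, rfl⟩
  have hjk' : j < k := by rw [hk]; exact Nat.lt_two_pow_self
  have hk1 : k0 ≤ k := by omega
  have hPP : PD j ⊆ PP k := by
    intro p hp
    have h2 := mem_filter.1 hp
    have h3 := mem_Ioc.1 h2.1
    unfold PP
    rw [mem_filter, mem_Icc]
    refine ⟨⟨h2.2.one_le, by rw [hk]; exact h3.2⟩, h2.2, ?_⟩
    have h4 : 2 ^ (j - 1) * 2 ^ (j - 1) < p * p := Nat.mul_lt_mul'' h3.1 h3.1
    have h5 : k ≤ 2 ^ (j - 1) * 2 ^ (j - 1) := by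
      rw [hk, ← pow_add]
      exact Nat.pow_le_pow_right (by norm_num) (by omega)
    rw [pow_two]
    omega
  have hAP : A ⊆ PP k := hA.trans hPP
  choose! e he1 he2 using fun (a : ℕ) (ha : a ∈ PP k) => en_surj (PP k) ha
  have h2 : energy 2 A.card (fun m => ((τ (en A m) : ℕ) : ℤ)) ≤ energy 2 (PP k).card (fun m => (en (PP k) m : ℤ)) := by
    refine energy_sub _ _ _ _ (fun m => e (en A m)) (fun m hm => he1 _ (hAP (en_mem A hm))) ?_ ?_
    · intro m hm m' hm' h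
      have h3 := he2 _ (hAP (en_mem A hm))
      have h4 := he2 _ (hAP (en_mem A hm'))
      rw [h, h4] at h3
      exact (en_inj A hm' hm h3).symm
    · intro m₁ h₁ m₂ h₂ m₃ h₃ m₄ h₄ h
      rw [he2 _ (hAP (en_mem A h₁)), he2 _ (hAP (en_mem A h₂)), he2 _ (hAP (en_mem A h₃)),
        he2 _ (hAP (en_mem A h₄))]
      have := hτ _ (en_mem A h₁) _ (en_mem A h₂) _ (en_mem A h₃) _ (en_mem A h₄) (by exact_mod_cast h)
      exact_mod_cast this
  have h3 := energy_le 2 (PP k).card (fun m => (en (PP k) m : ℤ)) (2 * k) (by omega)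
  have h4 : ∑ t ∈ range (2 * k), ‖∑ m ∈ Icc 1 (PP k).card, Pool.Agent.H807R2.Dav.ee ((t : ℝ) *
      ((((en (PP k) m : ℕ) : ℤ) : ℝ) / (2 * k : ℕ)))‖ ^ (2 * 2) =
      ∑ t ∈ range (2 * k), ‖∑ p ∈ PP k, Pool.Agent.H807R2.Dav.ee ((t : ℝ) * ((p : ℝ) / (2 * k : ℕ)))‖ ^ 4 := by
    refine sum_congr rfl fun t _ => ?_
    rw [← sum_en (PP k) (fun p => Pool.Agent.H807R2.Dav.ee ((t : ℝ) * ((p : ℝ) / (2 * k : ℕ))))]
    simp only [Int.cast_natCast]
  rw [h4] at h3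
  have h5 := h3.trans (h1 k hk1)
  have hkr : (k : ℝ) = 2 ^ j := by rw [hk]; push_cast; rfl
  have hlog : Real.log k = j * Real.log 2 := by rw [hkr, Real.log_pow]
  have hj0 : (0 : ℝ) < j := by exact_mod_cast (by omega : 0 < j)
  have h6 : (k : ℝ) / Real.log k ≤ (PD j).card / (c * Real.log 2) := by
    have h7 := (hch j hjj₀).1
    rw [hlog, hkr, div_le_div_iff₀ (by positivity) (by positivity)]
    rw [div_le_iff₀ hj0] at h7
    calc (2 : ℝ) ^ j * (c * Real.log 2) = (c * 2 ^ j) * Real.log 2 := by ring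
      _ ≤ ((PD j).card * j) * Real.log 2 := by gcongr
      _ = _ := by ring
  have h7 : ((k : ℝ) / Real.log k) ^ 4 ≤ ((PD j).card / (c * Real.log 2)) ^ 4 := by
    have : 0 ≤ (k : ℝ) / Real.log k := by rw [hlog]; positivity
    exact pow_le_pow_left₀ this h6 4
  have h8 : (energy 2 A.card (fun m => ((τ (en A m) : ℕ) : ℤ)) : ℝ) ≤
      energy 2 (PP k).card (fun m => (en (PP k) m : ℤ)) := by exact_mod_cast h2
  have h9 : (0 : ℝ) ≤ energy 2 (PP k).card (fun m => (en (PP k) m : ℤ)) := by positivity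
  calc (energy 2 A.card (fun m => ((τ (en A m) : ℕ) : ℤ)) : ℝ) * 2 ^ j ≤
        energy 2 (PP k).card (fun m => (en (PP k) m : ℤ)) * 2 ^ j := by gcongr
    _ ≤ ((2 * k : ℕ) : ℝ) * energy 2 (PP k).card (fun m => (en (PP k) m : ℤ)) := by
        push_cast
        rw [hkr]
        have : (0 : ℝ) < 2 ^ j := by positivity
        nlinarith
    _ ≤ C * (k / Real.log k) ^ 4 := h5
    _ ≤ C * ((PD j).card / (c * Real.log 2)) ^ 4 := by gcongr
    _ = _ := by rw [div_pow]; ring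

lemma norm_tub (α β : Fin s → ℝ) (N q : ℕ) (hN : 1 ≤ N) (hq : 1 ≤ q) (Ψ : ℤ → (Fin s → ℤ) → ℂ)
    (hΨ : ∀ n X, ‖Ψ n X‖ ≤ 1) : ‖tub α β N q Ψ‖ ≤ 1 := by
  have hN0 : (0 : ℝ) < N := by exact_mod_cast hN
  unfold tub
  rw [norm_mul, norm_div, norm_one, Complex.norm_natCast, div_mul_eq_mul_div, one_mul, div_le_iff₀ hN0]
  refine (norm_sum_le _ _).trans ((sum_le_sum fun n _ => norm_bav _ _ _ hq 1 (hΨ n)).trans ?_)
  simp

/-- the sum over the primes, when the companions are killed by a vector with positive last coordinate -/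
theorem fin_pos (α β : Fin s → ℝ) {k : ℕ} (a0 : ℤ × (Fin s → ℤ)) (h0 : ℤ) (a : Fin k → ℤ × (Fin s → ℤ)) (h : Fin k → ℤ)
    (hθ : 0 < (a0.1 : ℝ) + ∑ i, a0.2 i * α i) (D : ℕ) (hD : 1 ≤ D) (y0 : ℤ) (y : Fin s → ℤ)
    (hv : ∀ i, lin (a i) y0 y + D * h i = 0) (hΔ : lin a0 y0 y + D * h0 ≠ 0)
    (f : ℕ → ℂ) (hb : ∀ n, ‖f n‖ ≤ 1) (hf0 : f 0 = 0) (hE : ExpoSmall f) (ε : ℝ) (hε : 0 < ε) :
    ∃ J : ℕ, ∀ j : ℕ, J ≤ j → ∃ N₀ : ℕ, ∀ N : ℕ, N₀ ≤ N → ∀ κ : ℕ → ℂ, (∀ p, ‖κ p‖ ≤ 1) →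
      ∀ g : Fin k → ℕ → ℂ, (∀ i n, ‖g i n‖ ≤ 1) →
      ‖∑ p ∈ PD j, κ p * tub α β N p (Ff f g a0 h0 a h p)‖ ≤ ε * (PD j).card := by
  classical
  obtain ⟨E1, hE1⟩ := exists_nat_ge (∑ i, (|(y i : ℝ)| + |α i| * |(y0 : ℝ)| + |β i| * D) + 3 + D)
  have hE1i : ∀ i, |(y i : ℝ)| + |α i| * |(y0 : ℝ)| + |β i| * D + 3 ≤ E1 := by
    intro i
    have h1 := single_le_sum (f := fun i => |(y i : ℝ)| + |α i| * |(y0 : ℝ)| + |β i| * D)
      (fun i _ => by positivity) (mem_univ i)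
    have : (0 : ℝ) ≤ D := by positivity
    linarith
  have hsum0 : 0 ≤ ∑ i, (|(y i : ℝ)| + |α i| * |(y0 : ℝ)| + |β i| * D) := sum_nonneg fun i _ => by positivity
  have hE1D : D ≤ E1 := by
    have : (D : ℝ) ≤ E1 := by linarith
    exact_mod_cast this
  have hE13 : (3 : ℝ) ≤ E1 := by
    have : (0 : ℝ) ≤ D := by positivity
    linarith
  have hE10 : (0 : ℝ) < E1 := by linarith
  -- parameters
  obtain ⟨ε', hε'⟩ : ∃ ε' : ℝ, ε' = min ε 1 := ⟨_, rfl⟩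
  have hε'0 : 0 < ε' := by rw [hε']; exact lt_min hε one_pos
  have hε'1 : ε' ≤ 1 := by rw [hε']; exact min_le_right _ _
  have hε'ε : ε' ≤ ε := by rw [hε']; exact min_le_left _ _
  obtain ⟨δ, hδ⟩ : ∃ δ : ℝ, δ = ε' / (192 * (s + 1) * E1) := ⟨_, rfl⟩
  have hδ0 : 0 < δ := by rw [hδ]; positivity
  have hδ1 : δ * E1 ≤ 1 / 192 := by
    rw [hδ, div_mul_eq_mul_div, div_le_div_iff₀ (by positivity) (by norm_num)]
    have : (0 : ℝ) ≤ s := by positivity
    nlinarith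
  have hδ2 : 48 * s * E1 * δ ≤ ε / 4 := by
    rw [hδ]
    have h1 : 48 * s * E1 * (ε' / (192 * (s + 1) * E1)) = (s / (s + 1)) * (ε' / 4) := by
      field_simp
      ring
    rw [h1]
    have h2 : (s : ℝ) / (s + 1) ≤ 1 := by rw [div_le_one (by positivity)]; linarith
    calc (s : ℝ) / (s + 1) * (ε' / 4) ≤ 1 * (ε' / 4) := by gcongr
      _ ≤ _ := by linarith
  have hδle : δ ≤ 1 := by nlinarith
  obtain ⟨η, hη⟩ : ∃ η : ℝ, η = ε / (4 * (2 / δ + D)) := ⟨_, rfl⟩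
  have hη0 : 0 < η := by rw [hη]; positivity
  obtain ⟨C₁, hC₁, j₁, hcell⟩ := energy_cell
  obtain ⟨H₀, hH₀⟩ := fam α β a0 h0 a h hθ D y0 y hv hΔ f hb hf0 hE (C₁ / η ^ 4) (by positivity) (ε / 8)
    (by positivity) E1 hE1i hE1D
  obtain ⟨J₁, hJ₁⟩ : ∃ J₁ : ℕ, (H₀ + 2) / δ < 2 ^ J₁ := pow_unbounded_of_one_lt _ (by norm_num)
  refine ⟨max j₁ (max J₁ 3), fun j hj => ?_⟩
  have hj1 : j₁ ≤ j := (le_max_left _ _).trans hj
  have hjJ : J₁ ≤ j := (le_max_left _ _).trans ((le_max_right _ _).trans hj)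
  have hj3 : 3 ≤ j := (le_max_right _ _).trans ((le_max_right _ _).trans hj)
  have h2j : (0 : ℝ) < 2 ^ j := by positivity
  obtain ⟨H, hH⟩ : ∃ H : ℕ, H = ⌊δ * 2 ^ j⌋₊ := ⟨_, rfl⟩
  have hδj : (H₀ + 2 : ℝ) ≤ δ * 2 ^ j := by
    have h1 : (2 : ℝ) ^ J₁ ≤ 2 ^ j := pow_le_pow_right₀ (by norm_num) hjJ
    rw [div_lt_iff₀ hδ0] at hJ₁
    nlinarith
  have hHle : (H : ℝ) ≤ δ * 2 ^ j := by rw [hH]; exact Nat.floor_le (by positivity)
  have hHge : δ * 2 ^ j < H + 1 := by rw [hH]; exact Nat.lt_floor_add_one _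
  have hH0 : H₀ + 1 ≤ H := by
    rw [hH]
    refine Nat.le_floor ?_
    push_cast
    linarith
  have hHr : (1 : ℝ) ≤ H := by exact_mod_cast (by omega : 1 ≤ H)
  have hH1 : (H : ℝ) + 1 ≤ 2 * (δ * 2 ^ j) := by linarith
  have hH2 : δ * 2 ^ j ≤ 2 * H := by linarith
  -- the block length
  obtain ⟨B, hB⟩ : ∃ B : ℕ, B = D * H := ⟨_, rfl⟩
  have hB1 : 1 ≤ B := by rw [hB]; exact Nat.mul_pos (by omega) (by omega)
  have hBr : 8 * (B : ℝ) ≤ 2 ^ j := by
    rw [hB]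
    push_cast
    have h1 : (D : ℝ) ≤ E1 := by exact_mod_cast hE1D
    have h2 : (D : ℝ) * H ≤ E1 * (δ * 2 ^ j) := by gcongr
    nlinarith
  obtain ⟨N₀, hN₀⟩ := hH₀ H (by omega) (2 ^ j)
  refine ⟨max N₀ 1, fun N hN κ hκ g hg => ?_⟩
  have hNN : N₀ ≤ N := (le_max_left _ _).trans hN
  have hN1 : 1 ≤ N := (le_max_right _ _).trans hN
  have hcard0 : (0 : ℝ) ≤ (PD j).card := by positivity
  have hcardpos : (0 : ℝ) < (PD j).card := by exact_mod_cast PD_pos (by omega : 1 ≤ j)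
  -- the cells
  obtain ⟨T, hT⟩ : ∃ T : Finset (ℕ × ℕ), T = range (2 ^ j / B + 1) ×ˢ range D := ⟨_, rfl⟩
  have hmaps : ∀ p ∈ PD j, (p / B, p % D) ∈ T := by
    intro p hp
    have h1 := (mem_Ioc.1 (mem_filter.1 hp).1).2
    rw [hT, mem_product, mem_range, mem_range]
    exact ⟨Nat.lt_succ_of_le (Nat.div_le_div_right h1), Nat.mod_lt _ hD⟩
  have hTcard : (T.card : ℝ) ≤ 2 / δ + D := by
    rw [hT, card_product, card_range, card_range]
    push_cast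
    have hD0 : (0 : ℝ) < D := by exact_mod_cast hD
    have h1 : ((2 ^ j / B : ℕ) : ℝ) ≤ 2 ^ j / B := by
      have := @Nat.cast_div_le ℝ _ _ _ (2 ^ j) B
      push_cast at this
      exact this
    have h2 : (2 : ℝ) ^ j / B * D ≤ 2 / δ := by
      rw [hB]
      push_cast
      have h3 : (2 : ℝ) ^ j / (D * H) * D = 2 ^ j / H := by field_simp
      rw [h3, div_le_div_iff₀ (by linarith) hδ0]
      linarith
    calc (((2 ^ j / B : ℕ) : ℝ) + 1) * D ≤ (2 ^ j / B + 1) * D := by gcongr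
      _ = 2 ^ j / B * D + D := by ring
      _ ≤ _ := by linarith
  have hterm : ∀ p ∈ PD j, ‖κ p * tub α β N p (Ff f g a0 h0 a h p)‖ ≤ 1 := by
    intro p hp
    rw [norm_mul]
    exact mul_le_one₀ (hκ p) (norm_nonneg _) (norm_tub α β N p hN1 (mem_filter.1 hp).2.one_le _
      (norm_Ff f g a0 h0 a h hb hg p))
  have hone : ∀ t ∈ T, ‖∑ p ∈ (PD j).filter (fun p => (p / B, p % D) = t), κ p * tub α β N p (Ff f g a0 h0 a h p)‖ ≤
      ε / 2 * (((PD j).filter (fun p => (p / B, p % D) = t)).card : ℝ) + η * (PD j).card := by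
    intro t _
    obtain ⟨A, hA⟩ : ∃ A, A = (PD j).filter (fun p => (p / B, p % D) = t) := ⟨_, rfl⟩
    rw [← hA]
    have hAsub : A ⊆ PD j := by rw [hA]; exact filter_subset _ _
    have hA0 : (0 : ℝ) ≤ A.card := by positivity
    rcases le_or_gt ((A.card : ℝ)) (η * (PD j).card) with hsm | hbig
    · refine (norm_sum_le _ _).trans ((sum_le_sum fun p hp => hterm p (hAsub hp)).trans ?_)
      rw [sum_const, nsmul_eq_mul, mul_one]
      have : 0 ≤ ε / 2 * (A.card : ℝ) := by positivity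
      linarith
    · have hAne : A.Nonempty := by
        rw [← Finset.card_pos]
        have : (0 : ℝ) < A.card := lt_of_le_of_lt (by positivity) hbig
        exact_mod_cast this
      obtain ⟨q, hq⟩ : ∃ q : ℕ, q = B * t.1 + t.2 := ⟨_, rfl⟩
      have hmodB : ∀ p ∈ A, p = q + D * (p % B / D) := by
        intro p hp
        rw [hA, mem_filter] at hp
        obtain ⟨-, h2⟩ := hp
        have h3 : p / B = t.1 := congrArg Prod.fst h2
        have h4 : p % D = t.2 := congrArg Prod.snd h2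
        rw [hq, ← h3, ← h4]
        have h5 := Nat.div_add_mod p B
        have h6 := Nat.div_add_mod (p % B) D
        have h7 : p % B % D = p % D := Nat.mod_mod_of_dvd p (by rw [hB]; exact dvd_mul_right _ _)
        omega
      have hτH : ∀ p : ℕ, p % B / D ≤ H := by
        intro p
        have h1 : p % B < B := Nat.mod_lt _ hB1
        rw [hB] at h1 ⊢
        exact (Nat.div_lt_of_lt_mul h1).le
      -- the base
      obtain ⟨p₀, hp₀⟩ := hAne
      have hp₀1 := hmodB p₀ hp₀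
      have hp₀2 := mem_Ioc.1 (mem_filter.1 (hAsub hp₀)).1
      have hq2 : (2 : ℝ) ^ j / 4 ≤ q := by
        have h1 : (2 : ℝ) ^ (j - 1) < p₀ := by exact_mod_cast hp₀2.1
        have h2 : (2 : ℝ) ^ j = 2 * 2 ^ (j - 1) := by
          rw [← pow_succ']
          congr 1
          omega
        have h3 : (p₀ : ℝ) ≤ q + B := by
          have h4 : D * (p₀ % B / D) ≤ D * H := Nat.mul_le_mul_left _ (hτH p₀)
          rw [← hB] at h4
          have : p₀ ≤ q + B := by omega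
          exact_mod_cast this
        linarith
      have hq0 : (0 : ℝ) < q := by linarith
      have hq1 : 1 ≤ q := by
        have : 0 < q := by exact_mod_cast hq0
        omega
      have hqQ : q ≤ 2 ^ j := by omega
      have hqE : E1 * (H + 1) ≤ q := by
        have : ((E1 * (H + 1) : ℕ) : ℝ) ≤ q := by
          push_cast
          have h1 : (E1 : ℝ) * (H + 1) ≤ E1 * (2 * (δ * 2 ^ j)) := by gcongr
          nlinarith
        exact_mod_cast this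
      have hen : (energy 2 A.card (fun m => ((en A m % B / D : ℕ) : ℤ)) : ℝ) * H ≤ C₁ / η ^ 4 * (A.card : ℝ) ^ 4 := by
        have h1 := hcell j hj1 A hAsub (fun p => p % B / D) (fun a ha b hb c hc d hd h => by
          have e1 := hmodB a ha
          have e2 := hmodB b hb
          have e3 := hmodB c hc
          have e4 := hmodB d hd
          have e5 : D * (a % B / D) + D * (b % B / D) = D * (c % B / D) + D * (d % B / D) := by
            rw [← mul_add, ← mul_add, h]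
          omega)
        have h2 : (0 : ℝ) ≤ energy 2 A.card (fun m => ((en A m % B / D : ℕ) : ℤ)) := by positivity
        have h3 : (H : ℝ) ≤ 2 ^ j := by nlinarith
        have h4 : ((PD j).card : ℝ) ≤ A.card / η := by
          rw [le_div_iff₀ hη0]
          linarith
        have h5 : ((PD j).card : ℝ) ^ 4 ≤ (A.card / η) ^ 4 := pow_le_pow_left₀ hcard0 h4 4
        calc (energy 2 A.card (fun m => ((en A m % B / D : ℕ) : ℤ)) : ℝ) * H ≤
              energy 2 A.card (fun m => ((en A m % B / D : ℕ) : ℤ)) * 2 ^ j := by gcongr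
          _ ≤ C₁ * ((PD j).card : ℝ) ^ 4 := h1
          _ ≤ C₁ * (A.card / η) ^ 4 := by gcongr
          _ = _ := by rw [div_pow]; ring
      have hfam := hN₀ N hNN q hq1 hqQ hqE A.card (fun m => en A m % B / D) (fun m => hτH _) hen
        (fun m => κ (en A m)) (fun m => hκ _) g hg
      have hsm : ∑ m ∈ Icc 1 A.card, κ (en A m) * tub α β N (q + D * (en A m % B / D))
          (Ff f g a0 h0 a h (q + D * (en A m % B / D))) = ∑ p ∈ A, κ p * tub α β N p (Ff f g a0 h0 a h p) := by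
        rw [← sum_en A (fun p => κ p * tub α β N p (Ff f g a0 h0 a h p))]
        refine sum_congr rfl fun m hm => ?_
        rw [← hmodB _ (en_mem A hm)]
      rw [hsm] at hfam
      refine hfam.trans ?_
      have h1 : 6 * (s : ℝ) * (E1 * (H + 1)) / q ≤ ε / 4 := by
        refine le_trans ?_ hδ2
        rw [div_le_iff₀ hq0]
        have h2 : 6 * (s : ℝ) * (E1 * (H + 1)) ≤ 6 * s * (E1 * (2 * (δ * 2 ^ j))) := by gcongr
        have h3 : 48 * (s : ℝ) * E1 * δ * (2 ^ j / 4) ≤ 48 * s * E1 * δ * q := by gcongr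
        refine h2.trans (le_trans (le_of_eq ?_) h3)
        ring
      have h2 : (2 * (ε / 8) + 6 * (s : ℝ) * (E1 * (H + 1)) / q) * A.card ≤ ε / 2 * A.card := by
        refine mul_le_mul_of_nonneg_right ?_ hA0
        linarith
      have h3 : 0 ≤ η * (PD j).card := mul_nonneg hη0.le hcard0
      linarith
  rw [← sum_fiberwise_of_maps_to hmaps]
  refine (norm_sum_le _ _).trans ((sum_le_sum hone).trans ?_)
  rw [sum_add_distrib, ← mul_sum, sum_const, nsmul_eq_mul]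
  have h1 : ∑ t ∈ T, (((PD j).filter (fun p => (p / B, p % D) = t)).card : ℝ) = (PD j).card := by
    rw [card_eq_sum_card_fiberwise hmaps]
    push_cast
    rfl
  rw [h1]
  have h2 : (T.card : ℝ) * (η * (PD j).card) ≤ ε / 4 * (PD j).card := by
    have h3 : (T.card : ℝ) * η ≤ ε / 4 := by
      calc (T.card : ℝ) * η ≤ (2 / δ + D) * η := by gcongr
        _ = ε / 4 := by
          rw [hη]
          have : (2 / δ + D : ℝ) ≠ 0 := by positivity
          field_simp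
    calc (T.card : ℝ) * (η * (PD j).card) = (T.card : ℝ) * η * (PD j).card := by ring
      _ ≤ _ := by gcongr
  nlinarith

/-- the sum over the primes, when the companions are killed by a vector with last coordinate `0` -/
theorem fin_zero (α β : Fin s → ℝ) {k : ℕ} (a0 : ℤ × (Fin s → ℤ)) (h0 : ℤ) (a : Fin k → ℤ × (Fin s → ℤ)) (h : Fin k → ℤ)
    (hθ : 0 < (a0.1 : ℝ) + ∑ i, a0.2 i * α i) (y0 : ℤ) (y : Fin s → ℤ)
    (hv : ∀ i, lin (a i) y0 y + (0 : ℕ) * h i = 0) (hΔ : lin a0 y0 y + (0 : ℕ) * h0 ≠ 0)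
    (f : ℕ → ℂ) (hb : ∀ n, ‖f n‖ ≤ 1) (hf0 : f 0 = 0) (hE : ExpoSmall f) (ε : ℝ) (hε : 0 < ε) :
    ∃ J : ℕ, ∀ j : ℕ, J ≤ j → ∃ N₀ : ℕ, ∀ N : ℕ, N₀ ≤ N → ∀ κ : ℕ → ℂ, (∀ p, ‖κ p‖ ≤ 1) →
      ∀ g : Fin k → ℕ → ℂ, (∀ i n, ‖g i n‖ ≤ 1) →
      ‖∑ p ∈ PD j, κ p * tub α β N p (Ff f g a0 h0 a h p)‖ ≤ ε * (PD j).card := by
  classical
  obtain ⟨E1, hE1⟩ := exists_nat_ge (∑ i, (|(y i : ℝ)| + |α i| * |(y0 : ℝ)|) + 3)
  have hE1i : ∀ i, |(y i : ℝ)| + |α i| * |(y0 : ℝ)| + |β i| * (0 : ℕ) + 3 ≤ E1 := by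
    intro i
    have h1 := single_le_sum (f := fun i => |(y i : ℝ)| + |α i| * |(y0 : ℝ)|)
      (fun i _ => by positivity) (mem_univ i)
    push_cast
    linarith
  obtain ⟨H₀, hH₀⟩ := fam α β a0 h0 a h hθ 0 y0 y hv hΔ f hb hf0 hE 1 (by norm_num) (ε / 4)
    (by positivity) E1 hE1i (by omega)
  obtain ⟨H, hH⟩ : ∃ H : ℕ, H = H₀ + 1 := ⟨_, rfl⟩
  obtain ⟨J₁, hJ₁⟩ : ∃ J₁ : ℕ, (12 * s * (E1 * (H + 1)) / ε + E1 * (H + 1) : ℝ) < 2 ^ J₁ :=
    pow_unbounded_of_one_lt _ (by norm_num)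
  refine ⟨J₁ + 1, fun j hj => ?_⟩
  obtain ⟨N₀, hN₀⟩ := hH₀ H (by omega) (2 ^ j)
  refine ⟨N₀, fun N hN κ hκ g hg => ?_⟩
  have hHr : (0 : ℝ) < H := by exact_mod_cast (by omega : 0 < H)
  have hone : ∀ p ∈ PD j, ‖κ p * tub α β N p (Ff f g a0 h0 a h p)‖ ≤ ε := by
    intro p hp
    have h1 := mem_Ioc.1 (mem_filter.1 hp).1
    have hp1 := (mem_filter.1 hp).2.one_le
    have hp0 : (0 : ℝ) < p := by exact_mod_cast hp1
    have h2 : (2 : ℝ) ^ J₁ ≤ p := by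
      have h3 : 2 ^ J₁ ≤ 2 ^ (j - 1) := Nat.pow_le_pow_right (by norm_num) (by omega)
      exact_mod_cast h3.trans h1.1.le
    have h3 : (0 : ℝ) ≤ 12 * s * (E1 * (H + 1)) / ε := by positivity
    have h4 : (0 : ℝ) ≤ E1 * (H + 1) := by positivity
    have hpE : E1 * (H + 1) ≤ p := by
      have : ((E1 * (H + 1) : ℕ) : ℝ) ≤ p := by
        push_cast
        linarith
      exact_mod_cast this
    have hpε : 6 * (s : ℝ) * (E1 * (H + 1)) / p ≤ ε / 2 := by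
      have h5 : 12 * s * (E1 * (H + 1)) / ε ≤ p := by linarith
      rw [div_le_iff₀ hε] at h5
      rw [div_le_iff₀ hp0]
      linarith
    have hen : (energy 2 H (fun m => ((min m H : ℕ) : ℤ)) : ℝ) * H ≤ 1 * (H : ℝ) ^ 4 := by
      have h5 : energy 2 H (fun m => ((min m H : ℕ) : ℤ)) ≤ H ^ 3 := by
        refine energy_inj H _ fun m hm m' hm' h => ?_
        rw [mem_Icc] at hm hm'
        rw [min_eq_left hm.2, min_eq_left hm'.2] at h
        exact_mod_cast h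
      have h6 : (energy 2 H (fun m => ((min m H : ℕ) : ℤ)) : ℝ) ≤ (H : ℝ) ^ 3 := by exact_mod_cast h5
      calc (energy 2 H (fun m => ((min m H : ℕ) : ℤ)) : ℝ) * H ≤ (H : ℝ) ^ 3 * H := by gcongr
        _ = _ := by ring
    have hfam := hN₀ N hN p hp1 h1.2 hpE H (fun m => min m H) (fun m => min_le_right _ _) hen
      (fun _ => 1) (fun _ => by simp) g hg
    simp only [zero_mul, add_zero, one_mul, sum_const, Nat.card_Icc, Nat.add_sub_cancel, nsmul_eq_mul] at hfam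
    rw [norm_mul, Complex.norm_natCast, mul_comm (H : ℝ)] at hfam
    have h5 := le_of_mul_le_mul_right hfam hHr
    rw [norm_mul]
    refine (mul_le_of_le_one_left (norm_nonneg _) (hκ p)).trans (h5.trans ?_)
    linarith
  refine (norm_sum_le _ _).trans ((sum_le_sum hone).trans ?_)
  rw [sum_const, nsmul_eq_mul, mul_comm]

/-- the sum over the primes -/
theorem fin_est (α β : Fin s → ℝ) {k : ℕ} (a0 : ℤ × (Fin s → ℤ)) (h0 : ℤ) (a : Fin k → ℤ × (Fin s → ℤ)) (h : Fin k → ℤ)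
    (hθ : 0 < (a0.1 : ℝ) + ∑ i, a0.2 i * α i) (D : ℕ) (y0 : ℤ) (y : Fin s → ℤ)
    (hv : ∀ i, lin (a i) y0 y + D * h i = 0) (hΔ : lin a0 y0 y + D * h0 ≠ 0)
    (f : ℕ → ℂ) (hb : ∀ n, ‖f n‖ ≤ 1) (hf0 : f 0 = 0) (hE : ExpoSmall f) (ε : ℝ) (hε : 0 < ε) :
    ∃ J : ℕ, ∀ j : ℕ, J ≤ j → ∃ N₀ : ℕ, ∀ N : ℕ, N₀ ≤ N → ∀ κ : ℕ → ℂ, (∀ p, ‖κ p‖ ≤ 1) →
      ∀ g : Fin k → ℕ → ℂ, (∀ i n, ‖g i n‖ ≤ 1) →
      ‖∑ p ∈ PD j, κ p * tub α β N p (Ff f g a0 h0 a h p)‖ ≤ ε * (PD j).card := by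
  rcases Nat.eq_zero_or_pos D with hD | hD
  · subst hD
    exact fin_zero α β a0 h0 a h hθ y0 y hv hΔ f hb hf0 hE ε hε
  · exact fin_pos α β a0 h0 a h hθ D hD y0 y hv hΔ f hb hf0 hE ε hε

end Pool.Agent.Q270.EV
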