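import Pool.Agent.Q270.EC.MX
import Pool.Agent.Q261.EA.DEC
import Pool.Agent.Q177.EA.Step

/-!
Project EV (helper270): entropy decrement for the residues of several positions.
-/

set_option autoImplicit false

namespace Pool.Agent.Q270.EV

open Finset Filter Pool.Agent.Q270.EA Pool.Agent.Q270.EC
open Pool.Agent.Q177.EA

variable {Ω A B : Type} [Fintype A] [Fintype B]

/-- the residues of the position and of the further positions modulo `Q` -/
def Yq (M : Sys Ω) {s : ℕ} (U : Ω → Fin s → ℕ) (Q : ℕ) (ω : Ω) : ZMod Q × (Fin s → ZMod Q) :=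
  ((M.ν ω : ZMod Q), fun i => (U ω i : ZMod Q))

/-- the further positions increase by a function of the letter -/
def Inc (M : Sys Ω) {s : ℕ} (a : Ω → A) (U : Ω → Fin s → ℕ) (c : A → Fin s → ℕ) : Prop :=
  ∀ ω i, U (M.S ω) i = U ω i + c (a ω) i

omit [Fintype A] in
lemma U_iter (M : Sys Ω) {s : ℕ} (a : Ω → A) (U : Ω → Fin s → ℕ) (c : A → Fin s → ℕ)
    (hU : Inc M a U c) (m : ℕ) (ω : Ω) (i : Fin s) :
    U (M.S^[m] ω) i = U ω i + ∑ l : Fin m, c (win M a m ω l) i := by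
  induction m with
  | zero => simp
  | succ m ih =>
    rw [Function.iterate_succ_apply', hU, ih, Fin.sum_univ_castSucc]
    rw [add_assoc]
    rfl

lemma card_Y (s Q : ℕ) [NeZero Q] : Real.log (Fintype.card (ZMod Q × (Fin s → ZMod Q))) =
    (s + 1) * Real.log Q := by
  rw [Fintype.card_prod, Fintype.card_pi, ZMod.card]
  simp only [ZMod.card, prod_const, card_univ, Fintype.card_fin]
  push_cast
  rw [← pow_succ', Real.log_pow]
  push_cast
  ring

lemma win_le3 (hE : S_ENTP) (M : Sys Ω) {s : ℕ} (a : Ω → A) (U : Ω → Fin s → ℕ) (c : A → Fin s → ℕ)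
    (hU : Inc M a U c) (Q : ℕ) [NeZero Q] (K : Ω → B) (hK : ∀ ω, K (M.S ω) = K ω) (L n : ℕ) :
    cH M (win M a (n * L)) (fun ω => (Yq M U Q ω, K ω))
      ≤ n * cH M (win M a L) (fun ω => (Yq M U Q ω, K ω)) := by
  have hKit : ∀ (m : ℕ) (ω : Ω), K (M.S^[m] ω) = K ω := by
    intro m
    induction m with
    | zero => intro ω; rfl
    | succ m ih => intro ω; rw [Function.iterate_succ_apply, ih, hK]
  induction n with
  | zero =>
    have h := le_card hE M (win M a (0 * L)) (fun ω => (Yq M U Q ω, K ω))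
    have h1 : Fintype.card (Fin (0 * L) → A) = 1 := by simp
    rw [h1, Nat.cast_one, Real.log_one] at h
    simpa using h
  | succ n ih =>
    have h1 := fun_le hE M (fun ω => (win M a L (M.S^[n * L] ω), win M a (n * L) ω))
      (fun ω => (Yq M U Q ω, K ω)) (win M a ((n + 1) * L))
      (fun D _ l => if h : l.val < n * L then D.2 ⟨l.val, h⟩ else D.1 ⟨l.val - n * L, by
        have h5 := l.isLt
        have h6 : (n + 1) * L = n * L + L := by ring
        omega⟩)
      (by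
        intro ω
        funext l
        by_cases h : l.val < n * L
        · rw [dif_pos h]
          rfl
        · rw [dif_neg h]
          show a (M.S^[l.val] ω) = a (M.S^[l.val - n * L] (M.S^[n * L] ω))
          rw [← Function.iterate_add_apply, Nat.sub_add_cancel (not_lt.1 h)])
    rw [chain hE M (fun ω => win M a L (M.S^[n * L] ω)) (fun ω => (Yq M U Q ω, K ω))
      (win M a (n * L))] at h1
    have h2 := cond_le hE M (fun ω => win M a L (M.S^[n * L] ω))
      (fun ω => (win M a (n * L) ω, (Yq M U Q ω, K ω)))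
      (fun ω => (Yq M U Q (M.S^[n * L] ω), K (M.S^[n * L] ω)))
      (fun y => ((y.2.1.1 + ((n * L : ℕ) : ZMod Q),
        fun i => y.2.1.2 i + ((∑ l : Fin (n * L), c (y.1 l) i : ℕ) : ZMod Q)), y.2.2)) (by
        intro ω
        unfold Yq
        refine Prod.ext (Prod.ext ?_ ?_) ?_
        · dsimp only
          rw [M.pos_iter]
          push_cast
          rfl
        · dsimp only
          funext i
          rw [U_iter M a U c hU]
          push_cast
          rfl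
        · exact hKit _ _)
    have h4 := cH_iter hE M (win M a L) (fun ω => (Yq M U Q ω, K ω)) (n * L)
    rw [h4] at h2
    push_cast
    linarith

/-- the step of the entropy decrement -/
theorem step3 (hE : S_ENTP) (M : Sys Ω) {s : ℕ} (a : Ω → A) (U : Ω → Fin s → ℕ) (c : A → Fin s → ℕ)
    (hU : Inc M a U c) (Q : ℕ) [NeZero Q] (K : Ω → B) (hK : ∀ ω, K (M.S ω) = K ω)
    (hQ : cH M (Yq M U Q) K = (s + 1) * Real.log Q) (n L : ℕ) :
    cH M (win M a (n * L)) K ≤ n * (cH M (win M a L) K -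
      ((s + 1) * Real.log Q - cH M (Yq M U Q) (fun ω => (win M a L ω, K ω)))) +
      (s + 1) * Real.log Q := by
  have h1 := fun_le hE M (fun ω => (win M a (n * L) ω, Yq M U Q ω)) K (win M a (n * L))
    (fun d _ => d.1) (fun ω => rfl)
  rw [chain hE M (win M a (n * L)) K (Yq M U Q)] at h1
  have h2 := win_le3 hE M a U c hU Q K hK L n
  have h3 := swap_eq hE M K (Yq M U Q) (win M a L)
  rw [hQ] at h1 h3
  have h5 : cH M (win M a L) (fun ω => (Yq M U Q ω, K ω)) = cH M (win M a L) K -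
      ((s + 1) * Real.log Q - cH M (Yq M U Q) (fun ω => (win M a L ω, K ω))) := by
    linarith
  rw [h5] at h2
  linarith

/-- entropy decrement -/
theorem dec3 (hE : S_ENTP) (hC : S_CHEB) {R : Type} [Fintype R] (M : Sys Ω) {s : ℕ} (a : Ω → A)
    (U : Ω → Fin s → ℕ) (cc : A → Fin s → ℕ) (hU : Inc M a U cc)
    (κ : Ω → ℕ → R) (hκ : ∀ ω, κ (M.S ω) = κ ω)
    (hmax : ∀ n j : ℕ, cH M (Yq M U (QD j)) (KR κ n) = (s + 1) * Real.log (QD j))
    (h0 : ℕ) (η : ℝ) (J : ℕ) (hh0 : 1 ≤ h0) (hη : 0 < η) :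
    ∃ j : ℕ, J ≤ j ∧
      (s + 1) * Real.log (QD j) - cH M (Yq M U (QD j))
        (fun ω => (win M a (h0 * 2 ^ j) ω, KR κ (2 ^ j + 1) ω)) ≤ η * (PD j).card := by
  by_contra hcon
  push Not at hcon
  obtain ⟨c, C, j₀, hc, hC0, hj₀, hch⟩ := hC
  have hs0 : (0 : ℝ) < s + 1 := by positivity
  -- the entropies
  let K : (b : ℕ) → Ω → Fin (2 ^ 2 ^ (b + 1) + 1) → R := fun b => KR κ (2 ^ 2 ^ (b + 1) + 1)
  have hKinv : ∀ b ω, K b (M.S ω) = K b ω := by
    intro b ω
    funext p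
    change κ (M.S ω) p = κ ω p
    rw [hκ]
  let Hn : ℕ → ℕ → ℝ := fun b L => cH M (win M a L) (K b)
  have hHn : ∀ b L, Hn b L = cH M (win M a L) (K b) := fun _ _ => rfl
  let e : ℕ → ℕ → ℝ := fun b j => Hn b (h0 * 2 ^ j) / ((h0 : ℝ) * 2 ^ j)
  have he : ∀ b j, e b j = Hn b (h0 * 2 ^ j) / ((h0 : ℝ) * 2 ^ j) := fun _ _ => rfl
  have hh0' : (0 : ℝ) < h0 := by exact_mod_cast hh0
  have hden : ∀ j : ℕ, (0 : ℝ) < (h0 : ℝ) * 2 ^ j := fun j => by positivity
  -- nonnegativity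
  have e0 : ∀ b j, 0 ≤ e b j := by
    intro b j
    rw [he]
    exact div_nonneg (hE Ω _ _ Unit M (win M a (h0 * 2 ^ j)) (K b) (fun _ => ())).1 (hden j).le
  -- the labels increase
  have e2 : ∀ b j, e (b + 1) j ≤ e b j := by
    intro b j
    rw [he, he]
    apply div_le_div_of_nonneg_right _ (hden j).le
    have hle : 2 ^ 2 ^ (b + 1) + 1 ≤ 2 ^ 2 ^ (b + 1 + 1) + 1 := by
      have : 2 ^ (b + 1) ≤ 2 ^ (b + 1 + 1) := Nat.pow_le_pow_right (by norm_num) (by omega)
      have := Nat.pow_le_pow_right (n := 2) (by norm_num) this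
      omega
    exact (hE Ω _ _ _ M (win M a (h0 * 2 ^ j)) (K (b + 1)) (K b)).2.2.2.2.1
      (fun y p => y (Fin.castLE hle p)) (fun ω => rfl)
  -- the step, in general
  have hstep : ∀ b j t : ℕ, ∀ (Q : ℕ) [NeZero Q], cH M (Yq M U Q) (K b) = (s + 1) * Real.log Q →
      e b (j + t) ≤ e b j - ((s + 1) * Real.log Q - cH M (Yq M U Q)
        (fun ω => (win M a (h0 * 2 ^ j) ω, K b ω))) / ((h0 : ℝ) * 2 ^ j)
        + (s + 1) * Real.log Q / ((h0 : ℝ) * 2 ^ (j + t)) := by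
    intro b j t Q _ hQ
    have h1 := step3 hE M a U cc hU Q (K b) (hKinv b) hQ (2 ^ t) (h0 * 2 ^ j)
    have h2 : 2 ^ t * (h0 * 2 ^ j) = h0 * 2 ^ (j + t) := by
      rw [pow_add]
      ring
    have h3 : cH M (win M a (2 ^ t * (h0 * 2 ^ j))) (K b) = Hn b (h0 * 2 ^ (j + t)) := by
      rw [← hHn, h2]
    rw [h3, ← hHn] at h1
    rw [he, he, div_le_iff₀ (hden (j + t))]
    have h4 : (h0 : ℝ) * 2 ^ (j + t) = 2 ^ t * ((h0 : ℝ) * 2 ^ j) := by
      rw [pow_add]
      ring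
    have h5 := (hden j).ne'
    have h6 : (2 : ℝ) ^ t ≠ 0 := by positivity
    refine h1.trans (le_of_eq ?_)
    rw [h4]
    push_cast
    field_simp
  -- monotonicity in the scale
  have e1 : ∀ b j, e b (j + 1) ≤ e b j := by
    intro b j
    have g0 : cH M (Yq M U 1) (K b) = (s + 1) * Real.log ((1 : ℕ) : ℝ) := by
      have g1 := (hE Ω _ _ Unit M (Yq M U 1) (K b) (fun _ => ())).1
      have g2 := (hE Ω _ _ Unit M (Yq M U 1) (K b) (fun _ => ())).2.2.2.2.2.1
      rw [card_Y] at g2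
      rw [Nat.cast_one, Real.log_one, mul_zero] at g2 ⊢
      exact le_antisymm g2 g1
    have h1 := hstep b j 1 1 g0
    have h2 := (hE Ω _ _ Unit M (Yq M U 1)
      (fun ω => (win M a (h0 * 2 ^ j) ω, K b ω)) (fun _ => ())).2.2.2.2.2.1
    rw [card_Y, Nat.cast_one, Real.log_one, mul_zero] at h2
    rw [Nat.cast_one, Real.log_one, mul_zero, zero_div, add_zero, zero_sub] at h1
    have h3 : 0 ≤ (-cH M (Yq M U 1)
      (fun ω => (win M a (h0 * 2 ^ j) ω, K b ω))) / ((h0 : ℝ) * 2 ^ j) :=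
      div_nonneg (by linarith) (hden j).le
    linarith
  -- the decrement
  obtain ⟨t₀, ht₀⟩ : ∃ t₀ : ℕ, 4 * ((s + 1) * C) / (η * c) < 2 ^ t₀ :=
    pow_unbounded_of_one_lt _ (by norm_num)
  have hηc : 0 < η * c := mul_pos hη hc
  rw [div_lt_iff₀ hηc] at ht₀
  refine Pool.Agent.Q261.EA.noseq e e0 e1 e2 (η * c / (2 * h0)) (by positivity) ∅ 0 (fun s hs => by
    refine le_of_eq (sum_eq_zero fun j hj => ?_)
    exact absurd (hs j hj).1 (by simp)) (max J j₀) t₀ ?_
  intro b j hj hjb hjbad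
  have hjJ : J ≤ j := (le_max_left _ _).trans hj
  have hjj : j₀ ≤ j := (le_max_right _ _).trans hj
  have hj1 : 1 ≤ j := hj₀.trans hjj
  have hjR : (0 : ℝ) < j := by exact_mod_cast hj1
  obtain ⟨hc1, hc2⟩ := hch j hjj
  have hlog : Real.log (QD j) = ∑ p ∈ PD j, Real.log p := by
    rw [QD, Nat.cast_prod, Real.log_prod]
    intro p hp
    have := (Finset.mem_filter.mp hp).2.pos
    exact_mod_cast this.ne'
  have h1 := hstep b j (b + t₀) (QD j) (hmax _ j)
  have h2 := hcon j hjJ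
  have hle : 2 ^ j + 1 ≤ 2 ^ 2 ^ (b + 1) + 1 := by
    have := Nat.pow_le_pow_right (n := 2) (by norm_num) hjb
    omega
  have h3 : cH M (Yq M U (QD j)) (fun ω => (win M a (h0 * 2 ^ j) ω, K b ω))
      ≤ cH M (Yq M U (QD j))
        (fun ω => (win M a (h0 * 2 ^ j) ω, KR κ (2 ^ j + 1) ω)) :=
    (hE Ω _ _ _ M (Yq M U (QD j)) (fun ω => (win M a (h0 * 2 ^ j) ω, K b ω))
      (fun ω => (win M a (h0 * 2 ^ j) ω, KR κ (2 ^ j + 1) ω))).2.2.2.2.1
      (fun y => (y.1, fun p => y.2 (Fin.castLE hle p))) (fun ω => rfl)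
  have h4 : η * c / (h0 * j) ≤ ((s + 1) * Real.log (QD j) - cH M (Yq M U (QD j))
      (fun ω => (win M a (h0 * 2 ^ j) ω, K b ω))) / ((h0 : ℝ) * 2 ^ j) := by
    rw [le_div_iff₀ (hden j)]
    have h5 : η * (c * 2 ^ j / j) ≤ η * (PD j).card := mul_le_mul_of_nonneg_left hc1 hη.le
    have h6 : η * c / (h0 * j) * (h0 * 2 ^ j) = η * (c * 2 ^ j / j) := by
      field_simp
    rw [h6]
    linarith
  have h7 : (s + 1) * Real.log (QD j) / ((h0 : ℝ) * 2 ^ (j + (b + t₀))) ≤ η * c / (2 * h0) / j := by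
    have h8 : (s + 1) * Real.log (QD j) ≤ ((s + 1) * C) * 2 ^ j := by
      rw [hlog, mul_assoc]
      exact mul_le_mul_of_nonneg_left hc2 hs0.le
    have h9 : (0 : ℝ) < (h0 : ℝ) * 2 ^ (j + (b + t₀)) := hden _
    rw [div_le_iff₀ h9]
    refine h8.trans ?_
    have h10 : η * c / (2 * h0) / j * (h0 * 2 ^ (j + (b + t₀)))
        = 2 ^ j * (2 ^ b * (2 ^ t₀ * (η * c))) / (2 * j) := by
      rw [pow_add, pow_add]
      field_simp
    rw [h10, le_div_iff₀ (by positivity)]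
    have h11 : (j : ℝ) ≤ 2 * 2 ^ b := by
      have : (j : ℝ) ≤ 2 ^ (b + 1) := by exact_mod_cast hjb
      rw [pow_succ] at this
      linarith
    have h12 : ((s + 1) * C) * 2 ^ j * (2 * j) ≤ 2 ^ j * (2 ^ b * (4 * ((s + 1) * C))) := by
      have h13 : (0 : ℝ) ≤ 2 ^ j * ((s + 1) * C) := by positivity
      nlinarith
    have h14 : (2 : ℝ) ^ j * (2 ^ b * (4 * ((s + 1) * C))) ≤ 2 ^ j * (2 ^ b * (2 ^ t₀ * (η * c))) := by
      apply mul_le_mul_of_nonneg_left _ (by positivity)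
      exact mul_le_mul_of_nonneg_left ht₀.le (by positivity)
    exact h12.trans h14
  have h15 : η * c / (h0 * j) = 2 * (η * c / (2 * h0) / j) := by
    field_simp
  rw [h15] at h4
  linarith

end Pool.Agent.Q270.EV
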