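import Pool.Agent.Q270.EV.Dil

/-!
Project EV (helper270): the letters determine the function on the dilated variable.
-/

set_option autoImplicit false

namespace Pool.Agent.Q270.EV

open Finset Filter Topology Pool.Agent.Q270.EA Pool.Agent.Q270.EB Pool.Agent.Q270.EC Pool.Agent.Q119.EA

variable {s k : ℕ}

/-- the increments add up -/
lemma incr_sumZ (F F' : ℕ → ℤ) (W : ℕ) (hinc : ∀ x < W, F (x + 1) - F x = F' (x + 1) - F' x) :
    F W - F 0 = F' W - F' 0 := by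
  induction W with
  | zero => simp
  | succ W ih =>
    have h2 := hinc W (Nat.lt_succ_self _)
    have h3 := ih fun x hx => hinc x (by omega)
    omega

/-- reading off a value from the values along the increments -/
lemma readoffZ {R : Type} (L : ℕ) (F F' : ℕ → ℤ) (u u' : ℤ → R)
    (W : ℕ) (hinc : ∀ x < W, F (x + 1) - F x = F' (x + 1) - F' x) (hL : ∀ x < W, F (x + 1) - F x ≤ L)
    (hu : ∀ x < W, ∀ l : ℕ, l < L → u (F x + l) = u' (F' x + l)) (D : ℤ) (hD0 : 0 ≤ D) (hD : D < F W - F 0) :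
    u (F 0 + D) = u' (F' 0 + D) := by
  induction W with
  | zero => omega
  | succ W ih =>
    have h3 := incr_sumZ F F' W fun x hx => hinc x (by omega)
    by_cases hDW : D < F W - F 0
    · exact ih (fun x hx => hinc x (by omega)) (fun x hx => hL x (by omega))
        (fun x hx => hu x (by omega)) hDW
    · have h4 := hL W (Nat.lt_succ_self _)
      have h5 := hu W (Nat.lt_succ_self _) (F 0 + D - F W).toNat (by omega)
      have h8 : (((F 0 + D - F W).toNat : ℕ) : ℤ) = F 0 + D - F W := Int.toNat_of_nonneg (by omega)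
      rw [h8] at h5
      have h6 : F W + (F 0 + D - F W) = F 0 + D := by omega
      have h7 : F' W + (F 0 + D - F W) = F' 0 + D := by omega
      rw [h6, h7] at h5
      exact h5

/-- the value of one form on the dilated variable -/
lemma det_form (α β : Fin s → ℝ) (a : ℤ × (Fin s → ℤ)) (h : ℤ) (θ C' Cc : ℝ) (hθ : 0 < θ)
    (hv : ∀ n : ℕ, |((lin a n (Uz α β n) + h : ℤ) : ℝ) - θ * n| ≤ C') (hCc : 0 ≤ Cc)
    (L : ℕ) (hL : ∀ n : ℕ, lin a (n + 1 : ℕ) (Uz α β (n + 1 : ℕ)) - lin a n (Uz α β n) ≤ L)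
    (ν ν' x W y0 j : ℕ) (hx : y0 * 2 ^ j ≤ x) (hW : x + y0 * 2 ^ j ≤ W)
    (hinc : ∀ y < W, ∀ i, Uz α β ((ν + y + 1 : ℕ) : ℤ) i - Uz α β ((ν + y : ℕ) : ℤ) i =
      Uz α β ((ν' + y + 1 : ℕ) : ℤ) i - Uz α β ((ν' + y : ℕ) : ℤ) i)
    {R : Type} (u u' : ℤ → R)
    (hu : ∀ y < W, ∀ l : ℕ, l < L → u (lin a (ν + y : ℕ) (Uz α β (ν + y : ℕ)) + h + l) =
      u' (lin a (ν' + y : ℕ) (Uz α β (ν' + y : ℕ)) + h + l))
    (c : ℤ) (hc : |(c : ℝ)| ≤ Cc * 2 ^ j) (hy : Cc + 2 * C' + 1 ≤ θ * y0) :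
    u (lin a (ν + x : ℕ) (Uz α β (ν + x : ℕ)) + h + c) = u' (lin a (ν' + x : ℕ) (Uz α β (ν' + x : ℕ)) + h + c) := by
  obtain ⟨F, hF⟩ : ∃ F : ℕ → ℕ → ℤ, F = fun n y => lin a (n + y : ℕ) (Uz α β (n + y : ℕ)) + h := ⟨_, rfl⟩
  have hFd : ∀ n y : ℕ, F n (y + 1) - F n y = a.1 + ∑ i, a.2 i *
      (Uz α β ((n + y + 1 : ℕ) : ℤ) i - Uz α β ((n + y : ℕ) : ℤ) i) := by
    intro n y
    rw [hF]
    dsimp only
    unfold lin
    have e1 : ∑ i, a.2 i * (Uz α β ((n + y + 1 : ℕ) : ℤ) i - Uz α β ((n + y : ℕ) : ℤ) i) =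
        ∑ i, a.2 i * Uz α β ((n + y + 1 : ℕ) : ℤ) i - ∑ i, a.2 i * Uz α β ((n + y : ℕ) : ℤ) i := by
      rw [← sum_sub_distrib]
      exact sum_congr rfl fun i _ => by ring
    rw [e1, ← add_assoc]
    push_cast
    ring
  have hinc' : ∀ y < W, F ν (y + 1) - F ν y = F ν' (y + 1) - F ν' y := by
    intro y hy
    rw [hFd, hFd]
    congr 1
    exact sum_congr rfl fun i _ => by rw [hinc y hy i]
  have hL' : ∀ y < W, F ν (y + 1) - F ν y ≤ L := by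
    intro y _
    have := hL (ν + y)
    rw [hF]
    dsimp only
    rw [← add_assoc]
    omega
  have hpj : (1 : ℝ) ≤ 2 ^ j := one_le_pow₀ (by norm_num)
  have hC'0 : 0 ≤ C' := (abs_nonneg _).trans (hv 0)
  have hFr : ∀ y : ℕ, |(F ν y : ℝ) - θ * ((ν + y : ℕ) : ℝ)| ≤ C' := by
    intro y
    rw [hF]
    exact hv (ν + y)
  have hbase : Cc * 2 ^ j + 2 * C' < θ * (y0 * 2 ^ j) := by
    have e1 : (Cc + 2 * C' + 1) * 2 ^ j ≤ θ * y0 * 2 ^ j := by gcongr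
    nlinarith
  have hcb := abs_le.1 hc
  have h1 := abs_le.1 (hFr 0)
  have h2 := abs_le.1 (hFr x)
  have h3 := abs_le.1 (hFr W)
  push_cast at h1 h2 h3
  have e6 : (y0 : ℝ) * 2 ^ j ≤ x := by exact_mod_cast hx
  have e7 : (x : ℝ) + y0 * 2 ^ j ≤ W := by exact_mod_cast hW
  have e8 : θ * (y0 * 2 ^ j) ≤ θ * x := by gcongr
  have e9 : θ * x + θ * (y0 * 2 ^ j) ≤ θ * W := by
    rw [← mul_add]
    gcongr
  have hD0 : 0 ≤ F ν x - F ν 0 + c := by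
    have : (0 : ℝ) ≤ ((F ν x - F ν 0 + c : ℤ) : ℝ) := by
      push_cast
      nlinarith
    exact_mod_cast this
  have hD1 : F ν x - F ν 0 + c < F ν W - F ν 0 := by
    have : ((F ν x - F ν 0 + c : ℤ) : ℝ) < ((F ν W - F ν 0 : ℤ) : ℝ) := by
      push_cast
      nlinarith
    exact_mod_cast this
  have hro := readoffZ L (F ν) (F ν') u u' W hinc' hL' (fun y hy l hl => by
    rw [hF]
    exact hu y hy l hl) _ hD0 hD1
  have hxx := incr_sumZ (F ν) (F ν') x fun y hy => hinc' y (by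
    have : x ≤ W := by omega
    omega)
  have g1 : F ν 0 + (F ν x - F ν 0 + c) = F ν x + c := by ring
  have g2 : F ν' 0 + (F ν x - F ν 0 + c) = F ν' x + c := by rw [hxx]; ring
  rw [g1, g2] at hro
  rw [hF] at hro
  exact hro

open scoped Classical in
/-- the letters -/
noncomputable def ltrV (G : Dat s k) {R : Type} (f : ℕ → ℂ) (L : ℕ) (u : Fin k → ℕ → R) (n : ℕ) :
    (Fin L → Bool × Bool) × ((Fin k → Fin L → R) × (Fin s → Fin (L + 1))) :=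
  ((fun l => (decide (f (w0 G n + l).toNat = 1), decide (f (w0 G n + l).toNat = -1))),
    (fun j l => u j (wj G j n + l).toNat, fun i => Fin.ofNat (L + 1) (un G (n + 1) i - un G n i)))

/-- the window length that suffices -/
lemma exL (G : Dat s k) : ∃ L : ℕ, (∀ i, G.α i + 1 ≤ L) ∧
    (∀ n : ℕ, lin G.a0 (n + 1 : ℕ) (Uz G.α G.β (n + 1 : ℕ)) - lin G.a0 n (Uz G.α G.β n) ≤ L) ∧
    (∀ j, ∀ n : ℕ, lin (G.a j) (n + 1 : ℕ) (Uz G.α G.β (n + 1 : ℕ)) - lin (G.a j) n (Uz G.α G.β n) ≤ L) := by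
  have key : ∀ a : ℤ × (Fin s → ℤ), ∃ L : ℕ, ∀ n : ℕ, lin a (n + 1 : ℕ) (Uz G.α G.β (n + 1 : ℕ)) - lin a n (Uz G.α G.β n) ≤ L := by
    intro a
    obtain ⟨L, hL⟩ := exists_nat_ge (|(a.1 : ℝ) + ∑ i, a.2 i * G.α i| + 2 * ∑ i, |(a.2 i : ℝ)| * (|G.β i| + 1))
    refine ⟨L, fun n => ?_⟩
    have h1 := abs_le.1 (lin_near G.α G.β a ((n + 1 : ℕ) : ℤ))
    have h2 := abs_le.1 (lin_near G.α G.β a (n : ℤ))
    have h3 := le_abs_self ((a.1 : ℝ) + ∑ i, a.2 i * G.α i)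
    have h4 : ((lin a (n + 1 : ℕ) (Uz G.α G.β (n + 1 : ℕ)) - lin a n (Uz G.α G.β n) : ℤ) : ℝ) ≤ L := by
      push_cast at h1 h2 ⊢
      nlinarith [h1.2, h2.1]
    exact_mod_cast h4
  obtain ⟨L0, h0⟩ := key G.a0
  choose L1 h1 using fun j => key (G.a j)
  obtain ⟨L2, h2⟩ := exists_nat_ge (∑ i, G.α i + 1)
  refine ⟨L0 + ∑ j, L1 j + L2, fun i => ?_, fun n => ?_, fun j n => ?_⟩
  · have h3 := single_le_sum (f := G.α) (fun i _ => (G.α0 i).le) (mem_univ i)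
    push_cast
    have h4 : (0 : ℝ) ≤ L0 := by positivity
    have h5 : (0 : ℝ) ≤ ∑ j, (L1 j : ℝ) := by positivity
    linarith
  · have := h0 n
    have e : ((L0 + ∑ j, L1 j + L2 : ℕ) : ℤ) = L0 + ∑ j, (L1 j : ℤ) + L2 := by push_cast; ring
    rw [e]
    have h5 : (0 : ℤ) ≤ ∑ j, (L1 j : ℤ) := by positivity
    omega
  · have := h1 j n
    have h3 : (L1 j : ℤ) ≤ ∑ j, (L1 j : ℤ) := single_le_sum (f := fun j => (L1 j : ℤ)) (fun i _ => by positivity) (mem_univ j)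
    have e : ((L0 + ∑ j, L1 j + L2 : ℕ) : ℤ) = L0 + ∑ j, (L1 j : ℤ) + L2 := by push_cast; ring
    rw [e]
    omega

/-- the increments of the further positions -/
lemma un_inc (G : Dat s k) (L : ℕ) (hL : ∀ i, G.α i + 1 ≤ L) (n : ℕ) (i : Fin s) :
    un G n i ≤ un G (n + 1) i ∧ un G (n + 1) i - un G n i ≤ L := by
  have e1 := un_cast G n i
  have e2 := un_cast G (n + 1) i
  have f1 := Int.floor_le (G.α i * n + G.β i)
  have f2 := Int.lt_floor_add_one (G.α i * n + G.β i)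
  have f3 := Int.floor_le (G.α i * ((n : ℝ) + 1) + G.β i)
  have f4 := Int.lt_floor_add_one (G.α i * ((n : ℝ) + 1) + G.β i)
  have e3 : (un G n i : ℝ) = (⌊G.α i * n + G.β i⌋ : ℝ) := by
    have : (un G n i : ℝ) = ((Uz G.α G.β n i : ℤ) : ℝ) := by exact_mod_cast e1
    rw [this]
    unfold Uz
    push_cast
    rfl
  have e4 : (un G (n + 1) i : ℝ) = (⌊G.α i * ((n : ℝ) + 1) + G.β i⌋ : ℝ) := by
    have : (un G (n + 1) i : ℝ) = ((Uz G.α G.β ((n + 1 : ℕ) : ℤ) i : ℤ) : ℝ) := by exact_mod_cast e2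
    rw [this]
    unfold Uz
    push_cast
    rfl
  have hα := G.α0 i
  have h1 : un G n i ≤ un G (n + 1) i := by
    have h2 : ⌊G.α i * n + G.β i⌋ ≤ ⌊G.α i * ((n : ℝ) + 1) + G.β i⌋ := Int.floor_le_floor (by nlinarith)
    have h3 : (un G n i : ℝ) ≤ un G (n + 1) i := by
      rw [e3, e4]
      exact_mod_cast h2
    exact_mod_cast h3
  refine ⟨h1, ?_⟩
  have h2 : ((un G (n + 1) i - un G n i : ℕ) : ℝ) < (L + 1 : ℕ) := by
    rw [Nat.cast_sub h1, e3, e4]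
    push_cast
    have := hL i
    nlinarith
  have h3 : un G (n + 1) i - un G n i < L + 1 := by exact_mod_cast h2
  omega

/-- the letters determine the function on the dilated variable -/
lemma det4 (G : Dat s k) : ∃ y0 : ℕ, ∀ {R : Type} (f : ℕ → ℂ), (∀ n, f n = 0 ∨ f n = 1 ∨ f n = -1) →
    ∀ (dec : R → ℂ) (L : ℕ), (∀ i, G.α i + 1 ≤ L) →
    (∀ n : ℕ, lin G.a0 (n + 1 : ℕ) (Uz G.α G.β (n + 1 : ℕ)) - lin G.a0 n (Uz G.α G.β n) ≤ L) →
    (∀ j, ∀ n : ℕ, lin (G.a j) (n + 1 : ℕ) (Uz G.α G.β (n + 1 : ℕ)) - lin (G.a j) n (Uz G.α G.β n) ≤ L) →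
    ∀ j₀ : ℕ, ∀ p ∈ PD j₀, ∀ l < 2 ^ j₀, ∀ (ν ν' : ℕ) (u u' : Fin k → ℕ → R),
      (∀ x < (2 * y0 + 1) * 2 ^ j₀, ltrV G f L u (ν + x) = ltrV G f L u' (ν' + x)) →
      ∀ r ∈ Rs s p, psiV G f (fun j n => dec (u j n)) p r (ν + (y0 * 2 ^ j₀ + l)) =
        psiV G f (fun j n => dec (u' j n)) p r (ν' + (y0 * 2 ^ j₀ + l)) := by
  classical
  -- the constants of a form
  obtain ⟨Kc, hKc⟩ : ∃ Kc : ℤ × (Fin s → ℤ) → ℤ → ℝ, Kc = fun (a : ℤ × (Fin s → ℤ)) (h : ℤ) => ∑ i, |(a.2 i : ℝ)| * (|G.β i| + 1) + 2 * |(h : ℝ)| :=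
    ⟨_, rfl⟩
  have hKc0 : ∀ a h, 0 ≤ Kc a h := fun a h => by
    rw [hKc]
    exact add_nonneg (sum_nonneg fun i _ => by positivity) (by positivity)
  have key : ∀ (a : ℤ × (Fin s → ℤ)) (h : ℤ), 0 < (a.1 : ℝ) + ∑ i, a.2 i * G.α i →
      ∃ y0 : ℕ, ∀ y1 : ℕ, y0 ≤ y1 → Kc a h + 2 * Kc a h + 1 ≤ ((a.1 : ℝ) + ∑ i, a.2 i * G.α i) * y1 := by
    intro a h hpos
    obtain ⟨y0, hy0⟩ := exists_nat_ge ((Kc a h + 2 * Kc a h + 1) / ((a.1 : ℝ) + ∑ i, a.2 i * G.α i))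
    refine ⟨y0, fun y1 hy1 => ?_⟩
    rw [div_le_iff₀ hpos] at hy0
    have : (y0 : ℝ) ≤ y1 := by exact_mod_cast hy1
    nlinarith
  obtain ⟨z0, hz0⟩ := key G.a0 G.h0 G.pos0
  choose z1 hz1 using fun j => key (G.a j) (G.h j) (G.pos j)
  refine ⟨z0 + ∑ j, z1 j, ?_⟩
  obtain ⟨y0, hy0⟩ : ∃ y0, y0 = z0 + ∑ j, z1 j := ⟨_, rfl⟩
  rw [← hy0]
  have hyz0 : z0 ≤ y0 := by omega
  have hyz1 : ∀ j, z1 j ≤ y0 := fun j => by
    have := single_le_sum (f := z1) (fun j _ => Nat.zero_le _) (mem_univ j)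
    omega
  intro R f hf dec L hL hL0 hLj j₀ p hp l hl ν ν' u u' hlet r hr
  have hpp : p.Prime := (mem_filter.1 hp).2
  have hp1 : 1 ≤ p := hpp.one_le
  have hp1r : (1 : ℝ) ≤ p := by exact_mod_cast hp1
  have hp2 : p ≤ 2 ^ j₀ := (mem_Ioc.1 (mem_filter.1 hp).1).2
  have hp2r : (p : ℝ) ≤ 2 ^ j₀ := by exact_mod_cast hp2
  obtain ⟨x, hx⟩ : ∃ x, x = y0 * 2 ^ j₀ + l := ⟨_, rfl⟩
  obtain ⟨W, hW⟩ : ∃ W, W = (2 * y0 + 1) * 2 ^ j₀ := ⟨_, rfl⟩
  have hWe : W = 2 * (y0 * 2 ^ j₀) + 2 ^ j₀ := by rw [hW]; ring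
  have hx1 : y0 * 2 ^ j₀ ≤ x := by omega
  have hWx : x + y0 * 2 ^ j₀ ≤ W := by omega
  rw [← hx]
  rw [← hW] at hlet
  -- increments
  have hinc : ∀ y < W, ∀ i, Uz G.α G.β ((ν + y + 1 : ℕ) : ℤ) i - Uz G.α G.β ((ν + y : ℕ) : ℤ) i =
      Uz G.α G.β ((ν' + y + 1 : ℕ) : ℤ) i - Uz G.α G.β ((ν' + y : ℕ) : ℤ) i := by
    intro y hy i
    have e1 := hlet y hy
    unfold ltrV at e1
    obtain ⟨-, e2⟩ := Prod.ext_iff.1 e1
    obtain ⟨-, e3⟩ := Prod.ext_iff.1 e2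
    have e4 := congrFun e3 i
    dsimp only at e4
    have e6 := congrArg (fun a : Fin (L + 1) => (a : ℕ)) e4
    obtain ⟨g1, g2⟩ := un_inc G L hL (ν + y) i
    obtain ⟨g3, g4⟩ := un_inc G L hL (ν' + y) i
    simp only [Fin.val_ofNat] at e6
    rw [Nat.mod_eq_of_lt (Nat.lt_succ_of_le g2), Nat.mod_eq_of_lt (Nat.lt_succ_of_le g4)] at e6
    rw [← un_cast, ← un_cast, ← un_cast, ← un_cast]
    omega
  -- the offset of a form
  obtain ⟨ρ', hρ'⟩ : ∃ ρ' : Fin s → ℕ, ∀ i, (r i + bn G p i) % p = ρ' i := ⟨_, fun i => rfl⟩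
  have hρp : ∀ i, ρ' i ≤ p := fun i => by rw [← hρ']; exact (Nat.mod_lt _ hp1).le
  have hoff : ∀ (a : ℤ × (Fin s → ℤ)) (h : ℤ), ∃ c : ℤ, |(c : ℝ)| ≤ Kc a h * 2 ^ j₀ ∧ ∀ n : ℕ,
      lin a n (fun i => ((un G n i + bn G p i : ℕ) : ℤ) - (ρ' i : ℤ)) + p * h =
        lin a n (Uz G.α G.β n) + h + c := by
    intro a h
    refine ⟨∑ i, a.2 i * ((bn G p i : ℤ) - (ρ' i : ℤ)) + (p * h - h), ?_, fun n => ?_⟩
    · have e0 : Kc a h * p ≤ Kc a h * 2 ^ j₀ := mul_le_mul_of_nonneg_left hp2r (hKc0 a h)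
      refine le_trans ?_ e0
      rw [hKc]
      dsimp only
      rw [add_mul, sum_mul]
      push_cast
      refine (abs_add_le _ _).trans (add_le_add ?_ ?_)
      · refine (abs_sum_le_sum_abs _ _).trans (sum_le_sum fun i _ => ?_)
        rw [abs_mul, mul_assoc]
        refine mul_le_mul_of_nonneg_left ?_ (abs_nonneg _)
        have f1 : (bn G p i : ℝ) ≤ |G.β i| * p := by
          have g1 : (bn G p i : ℝ) = ((bq G.β p i : ℤ) : ℝ) := by exact_mod_cast bn_cast G p hp1 i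
          rw [g1]
          unfold bq
          have g2 := Int.floor_le (((p : ℝ) - 1) * G.β i)
          have g3 := le_abs_self (G.β i)
          have g4 := G.β0 i
          nlinarith
        have f2 : (ρ' i : ℝ) ≤ p := by exact_mod_cast hρp i
        have f3 : (0 : ℝ) ≤ (ρ' i : ℝ) := by positivity
        have f4 : (0 : ℝ) ≤ (bn G p i : ℝ) := by positivity
        have f5 : (|G.β i| + 1) * (p : ℝ) = |G.β i| * p + p := by ring
        rw [f5, abs_le]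
        have f6 : 0 ≤ |G.β i| * (p : ℝ) := by positivity
        constructor <;> linarith
      · have e1 : (p : ℝ) * h - h = (p - 1) * h := by ring
        rw [e1, abs_mul, abs_of_nonneg (by linarith)]
        have := abs_nonneg (h : ℝ)
        nlinarith
    · unfold lin
      have e1 : ∑ i, a.2 i * (((un G n i + bn G p i : ℕ) : ℤ) - (ρ' i : ℤ)) =
          ∑ i, a.2 i * Uz G.α G.β n i + ∑ i, a.2 i * ((bn G p i : ℤ) - (ρ' i : ℤ)) := by
        rw [← sum_add_distrib]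
        refine sum_congr rfl fun i _ => ?_
        rw [← un_cast]
        push_cast
        ring
      rw [e1]
      ring
  have hnear : ∀ (a : ℤ × (Fin s → ℤ)) (h : ℤ) (n : ℕ),
      |((lin a n (Uz G.α G.β n) + h : ℤ) : ℝ) - ((a.1 : ℝ) + ∑ i, a.2 i * G.α i) * n| ≤ Kc a h := by
    intro a h n
    have h1 := lin_near G.α G.β a n
    push_cast at h1 ⊢
    have h2 : (lin a n (Uz G.α G.β n) : ℝ) + h - (a.1 + ∑ i, a.2 i * G.α i) * n =
        ((lin a n (Uz G.α G.β n) : ℝ) - (a.1 + ∑ i, a.2 i * G.α i) * n) + h := by ring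
    rw [h2, hKc]
    refine (abs_add_le _ _).trans ?_
    have := abs_nonneg (h : ℝ)
    dsimp only
    linarith
  unfold psiV Ff
  simp only [hρ']
  congr 1
  · -- the value of `f`
    obtain ⟨c, hc1, hc2⟩ := hoff G.a0 G.h0
    rw [hc2, hc2]
    refine det_form G.α G.β G.a0 G.h0 _ (Kc G.a0 G.h0) (Kc G.a0 G.h0) G.pos0 (hnear _ _) (hKc0 _ _) L hL0
      ν ν' x W y0 j₀ hx1 hWx hinc (fun z => f z.toNat) (fun z => f z.toNat) (fun y hy l hl => ?_) c hc1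
      (hz0 y0 hyz0)
    have e1 := hlet y hy
    unfold ltrV at e1
    obtain ⟨e2, -⟩ := Prod.ext_iff.1 e1
    have e3 := congrFun e2 ⟨l, hl⟩
    dsimp only at e3
    obtain ⟨e4, e5⟩ := Prod.ext_iff.1 e3
    dsimp only at e4 e5
    have e6 := decide_eq_decide.1 e4
    have e7 := decide_eq_decide.1 e5
    change f (w0 G (ν + y) + l).toNat = f (w0 G (ν' + y) + l).toNat
    rcases hf (w0 G (ν + y) + l).toNat with h | h | h
    · rcases hf (w0 G (ν' + y) + l).toNat with h' | h' | h'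
      · rw [h, h']
      · exact absurd (e6.2 h') (by rw [h]; norm_num)
      · exact absurd (e7.2 h') (by rw [h]; norm_num)
    · rw [h, e6.1 h]
    · rw [h, e7.1 h]
  · refine prod_congr rfl fun j _ => ?_
    obtain ⟨c, hc1, hc2⟩ := hoff (G.a j) (G.h j)
    rw [hc2, hc2]
    refine congrArg dec (det_form G.α G.β (G.a j) (G.h j) _ (Kc (G.a j) (G.h j)) (Kc (G.a j) (G.h j)) (G.pos j) (hnear _ _)
      (hKc0 _ _) L (hLj j) ν ν' x W y0 j₀ hx1 hWx hinc (fun z => u j z.toNat) (fun z => u' j z.toNat)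
      (fun y hy l hl => ?_) c hc1 (hz1 j y0 (hyz1 j)))
    have e1 := hlet y hy
    unfold ltrV at e1
    obtain ⟨-, e2⟩ := Prod.ext_iff.1 e1
    obtain ⟨e3, -⟩ := Prod.ext_iff.1 e2
    exact congrFun (congrFun e3 j) ⟨l, hl⟩

end Pool.Agent.Q270.EV
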