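import Pool.Agent.Q270.EV.Box

/-!
Project EV (helper270): means over tubes along the line of the positions.
-/

set_option autoImplicit false

namespace Pool.Agent.Q270.EV

open Finset Filter Pool.Agent.Q270.EA Pool.Agent.Q270.EC
open Pool.Agent.H373R2.T7 (energy exI)
open Pool.Agent.TH823.MRS (ExpoSmall)

variable {s : ℕ}

/-- the further positions -/
noncomputable def Uz (α β : Fin s → ℝ) (n : ℤ) : Fin s → ℤ := fun i => ⌊α i * n + β i⌋

/-- the offsets at the dilate by `q` -/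
noncomputable def bq (β : Fin s → ℝ) (q : ℕ) : Fin s → ℤ := fun i => ⌊((q : ℝ) - 1) * β i⌋

/-- a linear form -/
def lin (a : ℤ × (Fin s → ℤ)) (n : ℤ) (X : Fin s → ℤ) : ℤ := a.1 * n + ∑ i, a.2 i * X i

lemma lin_add (a : ℤ × (Fin s → ℤ)) (n m : ℤ) (X Y : Fin s → ℤ) :
    lin a (n + m) (X + Y) = lin a n X + lin a m Y := by
  unfold lin
  simp only [Pi.add_apply, mul_add, sum_add_distrib]
  ring

lemma lin_smul (a : ℤ × (Fin s → ℤ)) (τ n : ℤ) (X : Fin s → ℤ) :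
    lin a (τ * n) (fun i => τ * X i) = τ * lin a n X := by
  unfold lin
  rw [mul_add, mul_sum]
  congr 1
  · ring
  · exact sum_congr rfl fun i _ => by ring

/-- the mean over a tube -/
noncomputable def tub (α β : Fin s → ℝ) (N q : ℕ) (Ψ : ℤ → (Fin s → ℤ) → ℂ) : ℂ :=
  (1 / (N : ℂ)) * ∑ n ∈ Ioc (0 : ℤ) N, bav (Ψ n) (Uz α β n + bq β q) q

/-- comparison of tubes -/
lemma tube_cmp (α β : Fin s → ℝ) (N q q' E : ℕ) (hN : 1 ≤ N) (hq : 1 ≤ q) (hqq : q ≤ q') (hq' : q' ≤ q + E)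
    (hE : E ≤ q) (z0 : ℤ) (z : Fin s → ℤ) (hz : ∀ i, |(z i : ℝ)| + |α i| * |(z0 : ℝ)| + |β i| * ((q' : ℝ) - q) + 3 ≤ E)
    (Ψ : ℤ → (Fin s → ℤ) → ℂ) (hΨ : ∀ n X, ‖Ψ n X‖ ≤ 1) :
    ‖tub α β N q' Ψ - tub α β N q (fun n X => Ψ (n + z0) (X + z))‖ ≤ 6 * s * E / q + 2 * |(z0 : ℝ)| / N := by
  have hN0 : (0 : ℝ) < N := by exact_mod_cast hN
  obtain ⟨B, hB⟩ : ∃ B : ℤ → ℂ, B = fun n => bav (Ψ n) (Uz α β n + bq β q') q' := ⟨_, rfl⟩
  have hB1 : ∀ n, ‖B n‖ ≤ 1 := fun n => by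
    rw [hB]
    exact norm_bav _ _ _ (by omega) 1 fun X => hΨ _ _
  have h1 := shift_sum B hB1 N z0
  have h2 : ∀ n : ℤ, ‖bav (fun X => Ψ (n + z0) (X + z)) (Uz α β n + bq β q) q - B (n + z0)‖ ≤ 6 * s * E / q := by
    intro n
    rw [bav_trans (Ψ (n + z0)), hB]
    refine box_cmp _ (hΨ _) _ _ q q' E hq hqq hq' hE fun i => ?_
    have e1 : |((Uz α β n + bq β q + z) i : ℝ) - ((Uz α β (n + z0) + bq β q') i : ℝ)| ≤ E := by
      refine le_trans ?_ (hz i)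
      simp only [Pi.add_apply, Uz, bq]
      push_cast
      have f1 := Int.floor_le (α i * n + β i)
      have f2 := Int.lt_floor_add_one (α i * n + β i)
      have f3 := Int.floor_le (α i * ((n : ℝ) + z0) + β i)
      have f4 := Int.lt_floor_add_one (α i * ((n : ℝ) + z0) + β i)
      have f5 := Int.floor_le (((q : ℝ) - 1) * β i)
      have f6 := Int.lt_floor_add_one (((q : ℝ) - 1) * β i)
      have f7 := Int.floor_le (((q' : ℝ) - 1) * β i)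
      have f8 := Int.lt_floor_add_one (((q' : ℝ) - 1) * β i)
      have g1 : |α i| * |(z0 : ℝ)| = |α i * z0| := (abs_mul _ _).symm
      have hqq' : (0 : ℝ) ≤ (q' : ℝ) - q := by
        have : (q : ℝ) ≤ q' := by exact_mod_cast hqq
        linarith
      have g2 : |β i| * ((q' : ℝ) - q) = |((q' : ℝ) - q) * β i| := by
        rw [abs_mul, abs_of_nonneg hqq', mul_comm]
      rw [g1, g2]
      have k1 := neg_abs_le (α i * z0)
      have k2 := le_abs_self (α i * z0)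
      have k3 := neg_abs_le (((q' : ℝ) - q) * β i)
      have k4 := le_abs_self (((q' : ℝ) - q) * β i)
      have k5 := neg_abs_le (z i : ℝ)
      have k6 := le_abs_self (z i : ℝ)
      have k7 : α i * ((n : ℝ) + z0) + β i = α i * n + β i + α i * z0 := by ring
      have k8 : ((q' : ℝ) - 1) * β i = ((q : ℝ) - 1) * β i + ((q' : ℝ) - q) * β i := by ring
      rw [k7] at f3 f4 ⊢
      rw [k8] at f7 f8 ⊢
      rw [abs_le]
      constructor <;> linarith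
    have e2 : |(((Uz α β n + bq β q + z) i - (Uz α β (n + z0) + bq β q') i : ℤ) : ℝ)| ≤ E := by
      push_cast
      exact e1
    exact_mod_cast e2
  have e1 : tub α β N q' Ψ = (1 / (N : ℂ)) * ∑ n ∈ Ioc (0 : ℤ) N, B n := by rw [hB]; rfl
  have e2 : tub α β N q' Ψ - tub α β N q (fun n X => Ψ (n + z0) (X + z)) =
      -((1 / (N : ℂ)) * (∑ n ∈ Ioc (0 : ℤ) N, B (n + z0) - ∑ n ∈ Ioc (0 : ℤ) N, B n)) -
      (1 / (N : ℂ)) * ∑ n ∈ Ioc (0 : ℤ) N, (bav (fun X => Ψ (n + z0) (X + z)) (Uz α β n + bq β q) q - B (n + z0)) := by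
    rw [e1]
    unfold tub
    rw [sum_sub_distrib]
    ring
  rw [e2]
  have e3 : ‖(1 / (N : ℂ))‖ = 1 / (N : ℝ) := by rw [norm_div, norm_one, Complex.norm_natCast]
  refine (norm_sub_le _ _).trans ?_
  rw [norm_neg, norm_mul, norm_mul, e3]
  have e4 : ‖∑ n ∈ Ioc (0 : ℤ) N, (bav (fun X => Ψ (n + z0) (X + z)) (Uz α β n + bq β q) q - B (n + z0))‖ ≤
      N * (6 * s * E / q) := by
    refine (norm_sum_le _ _).trans ((sum_le_sum fun n _ => h2 n).trans ?_)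
    rw [sum_const, nsmul_eq_mul]
    simp
  have e5 : 1 / (N : ℝ) * ‖∑ n ∈ Ioc (0 : ℤ) N, B (n + z0) - ∑ n ∈ Ioc (0 : ℤ) N, B n‖ ≤ 1 / (N : ℝ) * (2 * |(z0 : ℝ)|) := by
    gcongr
  have e6 : 1 / (N : ℝ) * ‖∑ n ∈ Ioc (0 : ℤ) N, (bav (fun X => Ψ (n + z0) (X + z)) (Uz α β n + bq β q) q - B (n + z0))‖ ≤
      1 / (N : ℝ) * (N * (6 * s * E / q)) := by gcongr
  have e7 : 1 / (N : ℝ) * (N * (6 * s * E / q)) = 6 * s * E / q := by field_simp
  have e8 : 1 / (N : ℝ) * (2 * |(z0 : ℝ)|) = 2 * |(z0 : ℝ)| / N := by ring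
  linarith

/-- the values of a form along the line -/
lemma lin_near (α β : Fin s → ℝ) (a : ℤ × (Fin s → ℤ)) (n : ℤ) :
    |(lin a n (Uz α β n) : ℝ) - (a.1 + ∑ i, a.2 i * α i) * n| ≤ ∑ i, |(a.2 i : ℝ)| * (|β i| + 1) := by
  unfold lin Uz
  push_cast
  have e1 : (a.1 : ℝ) * n + ∑ i, (a.2 i : ℝ) * (⌊α i * n + β i⌋ : ℝ) - (a.1 + ∑ i, a.2 i * α i) * n =
      ∑ i, (a.2 i : ℝ) * ((⌊α i * n + β i⌋ : ℝ) - α i * n) := by
    rw [add_mul, sum_mul]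
    simp only [mul_sub, sum_sub_distrib]
    have : ∑ i, (a.2 i : ℝ) * (α i * n) = ∑ i, (a.2 i : ℝ) * α i * n := sum_congr rfl fun i _ => by ring
    rw [this]
    ring
  rw [e1]
  refine (abs_sum_le_sum_abs _ _).trans (sum_le_sum fun i _ => ?_)
  rw [abs_mul]
  refine mul_le_mul_of_nonneg_left ?_ (abs_nonneg _)
  have f1 := Int.floor_le (α i * n + β i)
  have f2 := Int.lt_floor_add_one (α i * n + β i)
  have f3 := neg_abs_le (β i)
  have f4 := le_abs_self (β i)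
  rw [abs_le]
  constructor <;> linarith

/-- the first moment over a tube -/
theorem tub_l1 (α β : Fin s → ℝ) (a0 : ℤ × (Fin s → ℤ)) (h0 : ℤ) (hθ : 0 < (a0.1 : ℝ) + ∑ i, a0.2 i * α i)
    (f : ℕ → ℂ) (hb : ∀ n, ‖f n‖ ≤ 1) (hf0 : f 0 = 0) (hE : ExpoSmall f) (C : ℝ) (hC : 0 ≤ C) (ε : ℝ) (hε : 0 < ε) :
    ∃ H₀ : ℕ, ∀ H : ℕ, H₀ ≤ H → ∀ Q : ℕ, ∃ N₀ : ℕ, ∀ N : ℕ, N₀ ≤ N → ∀ q : ℕ, 1 ≤ q → q ≤ Q →
      ∀ (x : ℕ) (σ : ℕ → ℤ), (∀ m ∈ Icc 1 x, |σ m| ≤ H) → (energy 2 x σ : ℝ) * H ≤ C * (x : ℝ) ^ 4 →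
      ∀ c : ℕ → ℂ, (∀ m, ‖c m‖ ≤ 1) → ∀ G : ℤ → (Fin s → ℤ) → ℂ, (∀ n X, ‖G n X‖ ≤ 1) →
      ‖tub α β N q (fun n X => G n X * ∑ m ∈ Icc 1 x, c m * f ((lin a0 n X + q * h0 + σ m).toNat))‖ ≤ ε * x := by
  classical
  obtain ⟨θ, hθd⟩ : ∃ θ : ℝ, θ = (a0.1 : ℝ) + ∑ i, a0.2 i * α i := ⟨_, rfl⟩
  rw [← hθd] at hθ
  obtain ⟨CK, hCK⟩ : ∃ CK : ℝ, CK = ∑ i, |(a0.2 i : ℝ)| * (|β i| + 1) := ⟨_, rfl⟩
  have hCK0 : 0 ≤ CK := by rw [hCK]; exact sum_nonneg fun i _ => by positivity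
  obtain ⟨R0, hR0⟩ : ∃ R0 : ℝ, R0 = 2 * (CK / θ) + 1 := ⟨_, rfl⟩
  have hR00 : 0 < R0 := by rw [hR0]; positivity
  obtain ⟨ε₁, hε₁⟩ : ∃ ε₁ : ℝ, ε₁ = ε / (R0 * (θ + 2)) := ⟨_, rfl⟩
  have hε₁0 : 0 < ε₁ := by rw [hε₁]; positivity
  obtain ⟨H₀, N₁, h⟩ := l1d f hb hE C hC ε₁ hε₁0
  refine ⟨H₀, fun H hH Q => ?_⟩
  obtain ⟨DQ, hDQ⟩ : ∃ DQ : ℝ, DQ = ∑ i, |(a0.2 i : ℝ)| * ((Q + 1) * |β i| + 1 + Q) + Q * |(h0 : ℝ)| := ⟨_, rfl⟩
  have hDQ0 : 0 ≤ DQ := by rw [hDQ]; exact add_nonneg (sum_nonneg fun i _ => by positivity) (by positivity)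
  obtain ⟨N₂, hN₂⟩ := exists_nat_ge (CK + DQ)
  refine ⟨max (max N₁ H) (max N₂ 1), fun N hN q hq1 hqQ x σ hσ hen c hc G hG => ?_⟩
  have hN1 : N₁ ≤ N := (le_max_left _ _).trans ((le_max_left _ _).trans hN)
  have hNH : H ≤ N := (le_max_right _ _).trans ((le_max_left _ _).trans hN)
  have hN2 : N₂ ≤ N := (le_max_left _ _).trans ((le_max_right _ _).trans hN)
  have hN11 : 1 ≤ N := (le_max_right _ _).trans ((le_max_right _ _).trans hN)
  have hN0 : (0 : ℝ) < N := by exact_mod_cast hN11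
  have hq0 : (0 : ℝ) < q := by exact_mod_cast hq1
  obtain ⟨N', hN'⟩ : ∃ N' : ℕ, N' = ⌈(θ + 1) * N⌉₊ := ⟨_, rfl⟩
  have hN'1 : (θ + 1) * N ≤ N' := by rw [hN']; exact Nat.le_ceil _
  have hN'2 : (N' : ℝ) ≤ (θ + 2) * N := by
    have h1 : (N' : ℝ) < (θ + 1) * N + 1 := by rw [hN']; exact Nat.ceil_lt_add_one (by positivity)
    have h2 : (1 : ℝ) ≤ N := by exact_mod_cast hN11
    nlinarith
  have hNN' : N ≤ N' := by
    have : (N : ℝ) ≤ N' := by nlinarith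
    exact_mod_cast this
  obtain ⟨S, hS⟩ : ∃ S : ℤ → ℝ, S = fun a => ‖∑ m ∈ Icc 1 x, c m * exI f (a + σ m)‖ := ⟨_, rfl⟩
  have hS0 : ∀ a, 0 ≤ S a := fun a => by rw [hS]; exact norm_nonneg _
  have hSH : ∀ a : ℤ, a ≤ -(H : ℤ) → S a = 0 := by
    intro a ha
    rw [hS]
    dsimp only
    rw [norm_eq_zero]
    refine sum_eq_zero fun m hm => ?_
    have := abs_le.1 (hσ m hm)
    unfold exI
    rw [if_neg (by omega), mul_zero]
  have hexI : ∀ k : ℤ, f k.toNat = exI f k := by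
    intro k
    unfold exI
    split_ifs with h1
    · rfl
    · have : k.toNat = 0 := by omega
      rw [this, hf0]
  have hmain := h N' (hN1.trans hNN') H hH (hNH.trans hNN') x σ hσ hen c hc
  have hSsum : ∑ a ∈ Ioc (-(H : ℤ)) N', S a ≤ ε₁ * N' * x := by rw [hS]; exact hmain
  -- one line
  have hline : ∀ ρ ∈ Rs s q, ∑ n ∈ Ioc (0 : ℤ) N, S (lin a0 n (fun i => (Uz α β n + bq β q) i - (ρ i : ℤ)) + q * h0) ≤
      R0 * (ε₁ * N' * x) := by
    intro ρ hρ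
    rw [mem_Rs] at hρ
    obtain ⟨d, hd⟩ : ∃ d : ℤ, d = ∑ i, a0.2 i * (bq β q i - ρ i) + q * h0 := ⟨_, rfl⟩
    have e1 : ∀ n : ℤ, lin a0 n (fun i => (Uz α β n + bq β q) i - (ρ i : ℤ)) + q * h0 =
        lin a0 n (Uz α β n) + d := by
      intro n
      rw [hd]
      unfold lin
      simp only [Pi.add_apply]
      have e2 : ∑ i, a0.2 i * (Uz α β n i + bq β q i - (ρ i : ℤ)) =
          ∑ i, a0.2 i * Uz α β n i + ∑ i, a0.2 i * (bq β q i - (ρ i : ℤ)) := by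
        rw [← sum_add_distrib]
        exact sum_congr rfl fun i _ => by ring
      rw [e2]
      ring
    simp only [e1]
    have hdQ : |(d : ℝ)| ≤ DQ := by
      rw [hd, hDQ]
      push_cast
      refine (abs_add_le _ _).trans (add_le_add ?_ ?_)
      · refine (abs_sum_le_sum_abs _ _).trans (sum_le_sum fun i _ => ?_)
        rw [abs_mul]
        refine mul_le_mul_of_nonneg_left ?_ (abs_nonneg _)
        have f1 : |(bq β q i : ℝ)| ≤ (Q + 1) * |β i| + 1 := by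
          unfold bq
          have g1 := Int.floor_le (((q : ℝ) - 1) * β i)
          have g2 := Int.lt_floor_add_one (((q : ℝ) - 1) * β i)
          have g3 : |((q : ℝ) - 1) * β i| ≤ (Q + 1) * |β i| := by
            rw [abs_mul]
            refine mul_le_mul_of_nonneg_right ?_ (abs_nonneg _)
            have k1 : (q : ℝ) ≤ Q := by exact_mod_cast hqQ
            rw [abs_le]
            constructor <;> linarith
          have g4 := abs_le.1 g3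
          rw [abs_le]
          constructor <;> linarith [g4.1, g4.2]
        have f2 : |(ρ i : ℝ)| ≤ Q := by
          rw [abs_of_nonneg (by positivity)]
          exact_mod_cast ((hρ i).le.trans hqQ)
        exact (abs_sub _ _).trans (by linarith)
      · rw [abs_mul, abs_of_pos hq0]
        refine mul_le_mul_of_nonneg_right ?_ (abs_nonneg _)
        exact_mod_cast hqQ
    have h2 := fib_sum (fun n => lin a0 n (Uz α β n)) θ CK hθ hCK0 (fun n _ => by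
      rw [hθd, hCK]; exact lin_near α β a0 n) S hS0 d N N' H hSH (by
        have : (N₂ : ℝ) ≤ N := by exact_mod_cast hN2
        nlinarith)
    rw [← hR0] at h2
    exact h2.trans (mul_le_mul_of_nonneg_left hSsum hR00.le)
  -- the mean
  have h3 : ‖tub α β N q (fun n X => G n X * ∑ m ∈ Icc 1 x, c m * f ((lin a0 n X + q * h0 + σ m).toNat))‖ ≤
      (1 / (N : ℝ)) * ∑ n ∈ Ioc (0 : ℤ) N, (∑ X ∈ Bx (Uz α β n + bq β q) q, S (lin a0 n X + q * h0)) / (q : ℝ) ^ s := by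
    unfold tub
    rw [norm_mul, norm_div, norm_one, Complex.norm_natCast]
    refine mul_le_mul_of_nonneg_left ?_ (by positivity)
    refine (norm_sum_le _ _).trans (sum_le_sum fun n _ => ?_)
    unfold bav
    rw [norm_div, norm_pow, Complex.norm_natCast]
    refine div_le_div_of_nonneg_right ?_ (by positivity)
    refine (norm_sum_le _ _).trans (sum_le_sum fun X _ => ?_)
    rw [norm_mul, hS]
    dsimp only
    simp only [hexI]
    exact mul_le_of_le_one_left (norm_nonneg _) (hG n X)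
  have h4 : ∑ n ∈ Ioc (0 : ℤ) N, (∑ X ∈ Bx (Uz α β n + bq β q) q, S (lin a0 n X + q * h0)) / (q : ℝ) ^ s =
      (∑ ρ ∈ Rs s q, ∑ n ∈ Ioc (0 : ℤ) N, S (lin a0 n (fun i => (Uz α β n + bq β q) i - (ρ i : ℤ)) + q * h0)) /
        (q : ℝ) ^ s := by
    rw [← sum_div, sum_comm]
    congr 1
    refine sum_congr rfl fun n _ => ?_
    rw [sum_Bx (fun X => S (lin a0 n X + q * h0))]
  rw [h4] at h3
  refine h3.trans ?_
  have hqs : (0 : ℝ) < (q : ℝ) ^ s := by positivity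
  have h5 : (∑ ρ ∈ Rs s q, ∑ n ∈ Ioc (0 : ℤ) N, S (lin a0 n (fun i => (Uz α β n + bq β q) i - (ρ i : ℤ)) + q * h0)) /
        (q : ℝ) ^ s ≤ R0 * (ε₁ * N' * x) := by
    rw [div_le_iff₀ hqs]
    refine (sum_le_sum hline).trans ?_
    rw [sum_const, card_Rs, nsmul_eq_mul]
    push_cast
    rw [mul_comm]
  have hx0 : (0 : ℝ) ≤ x := by positivity
  calc (1 / (N : ℝ)) * _ ≤ (1 / (N : ℝ)) * (R0 * (ε₁ * N' * x)) := by gcongr
    _ ≤ (1 / (N : ℝ)) * (R0 * (ε₁ * ((θ + 2) * N) * x)) := by gcongr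
    _ = ε * x := by
      rw [hε₁]
      field_simp

end Pool.Agent.Q270.EV
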