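import Pool.Agent.Q270.EH.Kro
import Pool.Agent.Q270.EH.Sp
import Pool.Agent.Q270.EV.Tube

/-!
Project EV (helper270): inhomogeneous simultaneous approximation along a residue class, and the
uniform distribution of the residues of the positions.
-/

set_option autoImplicit false

namespace Pool.Agent.Q270.EV

open Finset Filter Topology Pool.Agent.Q270.EH

/-- **Kronecker's theorem**, inhomogeneous, along a residue class -/
theorem kro' {ι : Type} [Fintype ι] (ξ : ι → ℝ)
    (hξ : ∀ (k : ι → ℤ) (a b : ℤ), b ≠ 0 → (b : ℝ) * ∑ i, (k i : ℝ) * ξ i = a → k = 0)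
    (γ : ι → ℝ) (Q t : ℕ) (hQ : 1 ≤ Q) (η : ℝ) (hη : 0 < η) :
    ∃ T : ℕ, T % Q = t % Q ∧ ∀ i, ∃ z : ℤ, |ξ i * T - γ i - z| < η := by
  classical
  by_contra hcon
  push Not at hcon
  obtain ⟨η', hη'⟩ : ∃ η' : ℝ, η' = min η (1 / 2) := ⟨_, rfl⟩
  have hη0 : 0 < η' := by rw [hη']; exact lt_min hη (by norm_num)
  have hη2 : η' ≤ 1 / 2 := by rw [hη']; exact min_le_right _ _
  have hηη : η' ≤ η := by rw [hη']; exact min_le_left _ _
  obtain ⟨ρ, hρ⟩ : ∃ ρ : ℝ, ρ = Real.cos (Real.pi * η') := ⟨_, rfl⟩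
  have hpi := Real.pi_pos
  have hρ0 : 0 ≤ ρ := by
    rw [hρ]
    apply Real.cos_nonneg_of_neg_pi_div_two_le_of_le
    · have : 0 ≤ Real.pi * η' := by positivity
      linarith
    · have := mul_le_mul_of_nonneg_left hη2 hpi.le
      linarith
  have hρ1 : ρ < 1 := by
    rw [hρ, ← Real.cos_zero]
    apply Real.cos_lt_cos_of_nonneg_of_le_pi le_rfl
    · have := mul_le_mul_of_nonneg_left hη2 hpi.le
      linarith
    · positivity
  -- the main inequality
  have key : ∀ K : ℕ, 1 / ((K : ℝ) + 1) ^ Fintype.card ι ≤ (ρ ^ K) ^ 2 := by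
    intro K
    -- the polynomial
    obtain ⟨V, hV⟩ : ∃ V : Finset (ι → ℕ), V = Fintype.piFinset (fun _ : ι => range (K + 1)) := ⟨_, rfl⟩
    obtain ⟨c, hc⟩ : ∃ c : (ι → ℕ) → ℝ, c = fun v => ∏ i, ((K.choose (v i) : ℝ) / 2 ^ K) := ⟨_, rfl⟩
    obtain ⟨ω, hω⟩ : ∃ ω : (ι → ℕ) → ℝ, ω = fun v => ∑ i, (v i : ℝ) * ξ i := ⟨_, rfl⟩
    obtain ⟨χ, hχ⟩ : ∃ χ : (ι → ℕ) → ℝ, χ = fun v => ∑ i, (v i : ℝ) * γ i := ⟨_, rfl⟩
    have hc0 : ∀ v, 0 ≤ c v := fun v => by rw [hc]; exact prod_nonneg fun _ _ => by positivity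
    have hP0 : ∏ _i : ι, ((1 + ex 0) / 2) ^ K = ∑ v ∈ V, (c v : ℂ) := by
      have h1 : ∀ _i : ι, ((1 + ex 0) / 2) ^ K = ∑ l ∈ range (K + 1),
          ((K.choose l : ℂ) / 2 ^ K) := by
        intro i
        rw [ex_zero, div_pow, add_pow, sum_div]
        refine sum_congr rfl fun l _ => ?_
        rw [one_pow, one_pow, one_mul, one_mul]
      rw [prod_congr rfl fun i _ => h1 i, prod_univ_sum, hV]
      refine sum_congr rfl fun v _ => ?_
      rw [hc]
      push_cast
      rfl
    have hP : ∀ x : ℝ, ∏ i, ((1 + ex (ξ i * x - γ i)) / 2) ^ K = ∑ v ∈ V, (c v : ℂ) * ex (ω v * x - χ v) := by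
      intro x
      have h1 : ∀ i, ((1 + ex (ξ i * x - γ i)) / 2) ^ K = ∑ l ∈ range (K + 1),
          ((K.choose l : ℂ) / 2 ^ K) * ex ((l : ℝ) * (ξ i * x - γ i)) := by
        intro i
        rw [div_pow, add_comm, add_pow, sum_div]
        refine sum_congr rfl fun l _ => ?_
        rw [one_pow, mul_one, mul_comm (l : ℝ), ex_nat]
        ring
      rw [prod_congr rfl fun i _ => h1 i, prod_univ_sum, hV]
      refine sum_congr rfl fun v _ => ?_
      rw [prod_mul_distrib, ← ex_sum, hc, hω, hχ]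
      congr 1
      · push_cast
        rfl
      · congr 1
        rw [sum_mul, ← sum_sub_distrib]
        refine sum_congr rfl fun i _ => ?_
        ring
    have hc1 : ∑ v ∈ V, c v = 1 := by
      have h1 := hP0
      rw [ex_zero] at h1
      have h2 : (1 + 1 : ℂ) / 2 = 1 := by norm_num
      rw [h2] at h1
      simp only [one_pow, prod_const_one] at h1
      exact_mod_cast h1.symm
    -- the square
    obtain ⟨C, hC⟩ : ∃ C : (ι → ℕ) × (ι → ℕ) → ℂ, C = fun v => (c v.1 * c v.2 : ℝ) *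
      ex ((ω v.1 - ω v.2) * t - (χ v.1 - χ v.2)) := ⟨_, rfl⟩
    obtain ⟨y, hy⟩ : ∃ y : (ι → ℕ) × (ι → ℕ) → ℂ, y = fun v => ex ((ω v.1 - ω v.2) * Q) := ⟨_, rfl⟩
    have hsq : ∀ T : ℕ, ((‖∏ i, ((1 + ex (ξ i * ((t + Q * T : ℕ) : ℝ) - γ i)) / 2) ^ K‖ ^ 2 : ℝ) : ℂ) =
        ∑ v ∈ V ×ˢ V, C v * y v ^ T := by
      intro T
      rw [← Complex.normSq_eq_norm_sq, ← Complex.mul_conj, hP, map_sum, sum_mul_sum, ← sum_product']
      refine sum_congr rfl fun v _ => ?_
      rw [map_mul, Complex.conj_ofReal, ex_conj, hC, hy]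
      dsimp only
      rw [← ex_nat]
      have e1 : (c v.1 : ℂ) * ex (ω v.1 * ((t + Q * T : ℕ) : ℝ) - χ v.1) *
          ((c v.2 : ℂ) * ex (-(ω v.2 * ((t + Q * T : ℕ) : ℝ) - χ v.2))) = (c v.1 * c v.2 : ℝ) *
          (ex (ω v.1 * ((t + Q * T : ℕ) : ℝ) - χ v.1) * ex (-(ω v.2 * ((t + Q * T : ℕ) : ℝ) - χ v.2))) := by
        push_cast
        ring
      rw [e1, ← ex_add, mul_assoc, ← ex_add]
      congr 2
      push_cast
      ring
    have hlim := mean_poly (V ×ˢ V) C y (fun v => by rw [hy]; exact norm_ex _)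
    -- the limit is the diagonal
    have hyv : ∀ v : (ι → ℕ) × (ι → ℕ), y v = 1 → v.1 = v.2 := by
      intro v hv
      rw [hy] at hv
      obtain ⟨n, hn⟩ := ex_eq_one hv
      have h1 := hξ (fun i => (v.1 i : ℤ) - (v.2 i : ℤ)) n Q (by omega) (by
        rw [← hn, hω]
        dsimp only
        rw [← sum_sub_distrib, mul_comm]
        push_cast
        congr 1
        refine sum_congr rfl fun i _ => ?_
        ring)
      funext i
      have h2 := congrFun h1 i
      simp only [Pi.zero_apply] at h2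
      omega
    have hC1 : ∀ v : (ι → ℕ) × (ι → ℕ), y v = 1 → C v = (c v.1 * c v.2 : ℝ) := by
      intro v hv
      have h2 := hyv v hv
      rw [hC]
      dsimp only
      rw [h2, sub_self, sub_self, zero_mul, sub_zero, ex_zero, mul_one]
    have hL : (∑ x ∈ V ×ˢ V, if y x = 1 then C x else 0) =
        ((∑ x ∈ V ×ˢ V, if y x = 1 then c x.1 * c x.2 else 0 : ℝ) : ℂ) := by
      rw [Complex.ofReal_sum]
      refine sum_congr rfl fun v _ => ?_
      split_ifs with h
      · exact hC1 v h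
      · simp
    have hdiag : ∑ v ∈ V, c v ^ 2 ≤ ∑ x ∈ V ×ˢ V, if y x = 1 then c x.1 * c x.2 else 0 := by
      rw [sum_product]
      refine sum_le_sum fun v hv => ?_
      have h1 : c v ^ 2 = if y (v, v) = 1 then c v * c v else 0 := by
        rw [if_pos]
        · ring
        · rw [hy]
          dsimp only
          rw [sub_self, zero_mul, ex_zero]
      rw [h1]
      refine single_le_sum (f := fun v' => if y (v, v') = 1 then c v * c v' else 0) (fun v' _ => ?_) hv
      split_ifs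
      · exact mul_nonneg (hc0 _) (hc0 _)
      · exact le_rfl
    have hcs : 1 / ((K : ℝ) + 1) ^ Fintype.card ι ≤ ∑ v ∈ V, c v ^ 2 := by
      have h1 := sq_sum_le_card_mul_sum_sq (s := V) (f := c)
      rw [hc1] at h1
      have h2 : (V.card : ℝ) = ((K : ℝ) + 1) ^ Fintype.card ι := by
        rw [hV, Fintype.card_piFinset]
        simp
      rw [h2] at h1
      rw [div_le_iff₀ (by positivity)]
      linarith
    -- the upper bound
    have hup : ∀ T : ℕ, ‖∏ i, ((1 + ex (ξ i * ((t + Q * T : ℕ) : ℝ) - γ i)) / 2) ^ K‖ ≤ ρ ^ K := by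
      intro T
      obtain ⟨i, hi⟩ := hcon (t + Q * T) (by rw [Nat.add_mul_mod_self_left])
      rw [norm_prod, ← mul_prod_erase univ _ (mem_univ i)]
      have h1 : ∀ i, ‖(1 + ex (ξ i * ((t + Q * T : ℕ) : ℝ) - γ i)) / 2‖ ≤ 1 := by
        intro i
        rw [norm_div]
        have h2 : ‖1 + ex (ξ i * ((t + Q * T : ℕ) : ℝ) - γ i)‖ ≤ 2 := by
          refine (norm_add_le _ _).trans ?_
          rw [norm_one, norm_ex]
          norm_num
        have h3 : ‖(2 : ℂ)‖ = 2 := by norm_num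
        rw [h3]
        linarith
      have h2 : ‖((1 + ex (ξ i * ((t + Q * T : ℕ) : ℝ) - γ i)) / 2) ^ K‖ ≤ ρ ^ K := by
        rw [norm_pow]
        refine pow_le_pow_left₀ (norm_nonneg _) ?_ K
        rw [hρ]
        exact half_le hη0 hη2 fun z => hηη.trans (hi z)
      refine (mul_le_of_le_one_right (norm_nonneg _) ?_).trans h2
      exact prod_le_one (fun _ _ => norm_nonneg _) fun i' _ => by
        rw [norm_pow]
        exact pow_le_one₀ (norm_nonneg _) (h1 i')
    -- comparison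
    have hre : Tendsto (fun N : ℕ => (1 / (N : ℝ)) * ∑ T ∈ range N,
        ‖∏ i, ((1 + ex (ξ i * ((t + Q * T : ℕ) : ℝ) - γ i)) / 2) ^ K‖ ^ 2) atTop
        (𝓝 (∑ x ∈ V ×ˢ V, if y x = 1 then c x.1 * c x.2 else 0)) := by
      rw [hL] at hlim
      have h1 := (Complex.continuous_re.tendsto _).comp hlim
      rw [Complex.ofReal_re] at h1
      refine h1.congr fun N => ?_
      dsimp only [Function.comp]
      rw [← sum_congr rfl fun T _ => hsq T, ← Complex.ofReal_sum]
      have e1 : (1 / (N : ℂ)) = ((1 / (N : ℝ) : ℝ) : ℂ) := by push_cast; ring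
      rw [e1, ← Complex.ofReal_mul, Complex.ofReal_re]
    refine (hcs.trans hdiag).trans (le_of_tendsto hre ?_)
    filter_upwards [eventually_ge_atTop 1] with N hN
    have hN0 : (0 : ℝ) < N := by exact_mod_cast hN
    have h1 : ∑ T ∈ range N, ‖∏ i, ((1 + ex (ξ i * ((t + Q * T : ℕ) : ℝ) - γ i)) / 2) ^ K‖ ^ 2 ≤
        N * (ρ ^ K) ^ 2 := by
      refine (sum_le_sum fun T _ => pow_le_pow_left₀ (norm_nonneg _) (hup T) 2).trans ?_
      rw [sum_const, card_range, nsmul_eq_mul]
    calc (1 / (N : ℝ)) * _ ≤ (1 / (N : ℝ)) * (N * (ρ ^ K) ^ 2) := by gcongr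
      _ = (ρ ^ K) ^ 2 := by field_simp
  -- contradiction
  have h1 : Tendsto (fun K : ℕ => ((K : ℝ) + 1) ^ Fintype.card ι * (ρ ^ 2) ^ K) atTop (𝓝 0) := by
    have h2 : ρ ^ 2 < 1 := by nlinarith
    have h3 := tendsto_pow_const_mul_const_pow_of_lt_one (Fintype.card ι) (by positivity : 0 ≤ ρ ^ 2) h2
    -- `(K+1)^m r^K`: shift
    have h4 : ∀ K : ℕ, 1 ≤ K → ((K : ℝ) + 1) ^ Fintype.card ι * (ρ ^ 2) ^ K ≤
        2 ^ Fintype.card ι * ((K : ℝ) ^ Fintype.card ι * (ρ ^ 2) ^ K) := by
      intro K hK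
      have h5 : (K : ℝ) + 1 ≤ 2 * K := by
        have : (1 : ℝ) ≤ K := by exact_mod_cast hK
        linarith
      have h6 : ((K : ℝ) + 1) ^ Fintype.card ι ≤ (2 * K) ^ Fintype.card ι :=
        pow_le_pow_left₀ (by positivity) h5 _
      rw [mul_pow] at h6
      calc _ ≤ (2 ^ Fintype.card ι * (K : ℝ) ^ Fintype.card ι) * (ρ ^ 2) ^ K :=
            mul_le_mul_of_nonneg_right h6 (by positivity)
        _ = _ := by ring
    have h7 := h3.const_mul (2 ^ Fintype.card ι : ℝ)
    rw [mul_zero] at h7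
    refine squeeze_zero' (Eventually.of_forall fun K => by positivity) ?_ h7
    filter_upwards [eventually_ge_atTop 1] with K hK
    exact h4 K hK
  have h2 := (h1.eventually (gt_mem_nhds (by norm_num : (0 : ℝ) < 1 / 2))).exists
  obtain ⟨K, hK⟩ := h2
  have h3 := key K
  rw [div_le_iff₀ (by positivity)] at h3
  have h4 : (ρ ^ K) ^ 2 = (ρ ^ 2) ^ K := by ring
  rw [h4] at h3
  linarith

open scoped Classical in
/-- uniform distribution in a finite group, from almost periods with all drifts -/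
lemma unif_of_per {G : Type} [AddCommGroup G] [Fintype G] (R : ℕ → G)
    (h : ∀ (t : G) (δ : ℝ), 0 < δ → ∃ T : ℕ, ∃ N0 : ℕ, ∀ N : ℕ, N0 ≤ N →
      (((Icc 1 N).filter (fun m : ℕ => R (m + T) ≠ R m + t)).card : ℝ) ≤ δ * N)
    (r : G) (δ : ℝ) (hδ : 0 < δ) : ∃ N0 : ℕ, ∀ N : ℕ, N0 ≤ N →
      |(((Icc 1 N).filter (fun n => R n = r)).card : ℝ) - N / Fintype.card G| ≤ δ * N := by
  have hG : (0 : ℝ) < Fintype.card G := by exact_mod_cast Fintype.card_pos
  choose T N1 hN1 using fun t : G => h t (δ / 2) (by positivity)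
  obtain ⟨Tm, hTm⟩ : ∃ Tm : ℕ, Tm = ∑ t, T t := ⟨_, rfl⟩
  have hTle : ∀ t, T t ≤ Tm := fun t => by
    rw [hTm]
    exact single_le_sum (f := T) (fun _ _ => Nat.zero_le _) (mem_univ t)
  obtain ⟨Nm, hNm⟩ : ∃ Nm : ℕ, Nm = ∑ t, N1 t := ⟨_, rfl⟩
  have hNle : ∀ t, N1 t ≤ Nm := fun t => by
    rw [hNm]
    exact single_le_sum (f := N1) (fun _ _ => Nat.zero_le _) (mem_univ t)
  obtain ⟨K, hK⟩ := exists_nat_ge (2 * Tm / δ)
  refine ⟨max Nm K, fun N hNN => ?_⟩
  have hTN : (Tm : ℝ) ≤ δ / 2 * N := by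
    have h1 : (K : ℝ) ≤ N := by exact_mod_cast (le_max_right Nm K).trans hNN
    rw [div_le_iff₀ hδ] at hK
    nlinarith
  obtain ⟨S, hS⟩ : ∃ S : G → ℕ, S = fun r => ((Icc 1 N).filter (fun n => R n = r)).card := ⟨_, rfl⟩
  -- comparison of two classes
  have hcmp : ∀ r t, (S r : ℝ) ≤ S (r + t) + δ * N := by
    intro r t
    have h1 := hN1 t N (((hNle t).trans (le_max_left _ _)).trans hNN)
    have h2 : ((Icc 1 N).filter (fun n => R n = r)).card ≤ ((Icc 1 N).filter (fun n => R n = r + t)).card + T t +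
        ((Icc 1 N).filter (fun m : ℕ => R (m + T t) ≠ R m + t)).card := by
      have h3 : (Icc 1 N).filter (fun n => R n = r) ⊆
          ((Icc 1 N).filter (fun n => R (n + T t) = r + t)) ∪
          ((Icc 1 N).filter (fun m : ℕ => R (m + T t) ≠ R m + t)) := by
        intro n hn
        rw [mem_filter] at hn
        rw [mem_union, mem_filter, mem_filter]
        by_cases h4 : R (n + T t) = R n + t
        · left
          exact ⟨hn.1, by rw [h4, hn.2]⟩
        · exact Or.inr ⟨hn.1, h4⟩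
      have h4 : ((Icc 1 N).filter (fun n => R (n + T t) = r + t)).card ≤
          (((Icc 1 N).filter (fun n => R n = r + t)) ∪ Ioc N (N + T t)).card := by
        refine card_le_card_of_injOn (fun n => n + T t) ?_ (fun a _ b _ h => Nat.add_right_cancel h)
        intro n hn
        rw [mem_coe, mem_filter, mem_Icc] at hn
        rw [mem_coe, mem_union, mem_filter, mem_Icc, mem_Ioc]
        beta_reduce
        by_cases h5 : n + T t ≤ N
        · exact Or.inl ⟨⟨by omega, h5⟩, hn.2⟩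
        · exact Or.inr ⟨by omega, by omega⟩
      have h5 := (card_le_card h3).trans (card_union_le _ _)
      have h6 := h4.trans (card_union_le _ _)
      rw [Nat.card_Ioc] at h6
      omega
    have h3 : (S r : ℝ) ≤ S (r + t) + T t +
        (((Icc 1 N).filter (fun m : ℕ => R (m + T t) ≠ R m + t)).card : ℝ) := by
      rw [hS]
      dsimp only
      exact_mod_cast h2
    have h4 : (T t : ℝ) ≤ Tm := by exact_mod_cast hTle t
    linarith
  have htot : ∑ r, (S r : ℝ) = N := by
    have h1 : ∑ r, S r = (Icc 1 N).card := by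
      rw [hS]
      exact (card_eq_sum_card_fiberwise (fun n _ => mem_univ (R n))).symm
    rw [Nat.card_Icc, Nat.add_sub_cancel] at h1
    exact_mod_cast h1
  have h1 : (Fintype.card G : ℝ) * S r ≤ N + Fintype.card G * (δ * N) := by
    have e1 : (Fintype.card G : ℝ) * S r = ∑ _r' : G, (S r : ℝ) := by
      rw [sum_const, card_univ, nsmul_eq_mul]
    have e2 : ∀ r' : G, (S r : ℝ) ≤ S r' + δ * N := fun r' => by
      have := hcmp r (r' - r)
      rwa [add_sub_cancel] at this
    rw [e1]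
    refine (sum_le_sum fun r' _ => e2 r').trans ?_
    rw [sum_add_distrib, htot, sum_const, card_univ, nsmul_eq_mul]
  have h2 : (N : ℝ) ≤ Fintype.card G * S r + Fintype.card G * (δ * N) := by
    have e2 : ∀ r' : G, (S r' : ℝ) ≤ S r + δ * N := fun r' => by
      have := hcmp r' (r - r')
      rwa [add_sub_cancel] at this
    rw [← htot]
    refine (sum_le_sum fun r' _ => e2 r').trans ?_
    rw [sum_const, card_univ, nsmul_eq_mul, htot]
    linarith
  have h3 : (((Icc 1 N).filter (fun n => R n = r)).card : ℝ) = S r := by rw [hS]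
  rw [h3]
  have h4 : (N : ℝ) / Fintype.card G * Fintype.card G = N := by field_simp
  rw [abs_le]
  constructor
  · have h5 : (N : ℝ) / Fintype.card G ≤ S r + δ * N := by
      rw [div_le_iff₀ hG]
      linarith
    linarith
  · have h5 : (S r : ℝ) ≤ N / Fintype.card G + δ * N := by
      have h6 : (Fintype.card G : ℝ) * S r ≤ Fintype.card G * (N / Fintype.card G + δ * N) := by
        rw [mul_add, mul_comm _ ((N : ℝ) / _), h4]
        exact h1
      exact le_of_mul_le_mul_left h6 hG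
    linarith

variable {s : ℕ}

/-- linear independence of `1, α 1, ..., α s` -/
def Ind (α : Fin s → ℝ) : Prop := ∀ (c : Fin s → ℤ) (d : ℤ), ∑ i, (c i : ℝ) * α i = d → c = 0

lemma Ind.irr {α : Fin s → ℝ} (h : Ind α) (i : Fin s) : Irrational (α i) := by
  rw [irrational_iff_ne_rational]
  intro a b hb hab
  have h1 := h (fun i' => if i' = i then b else 0) a (by
    rw [sum_eq_single i]
    · rw [if_pos rfl, hab]
      have : (b : ℝ) ≠ 0 := by exact_mod_cast hb
      field_simp
    · intro i' _ hne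
      rw [if_neg hne]
      simp
    · intro h
      exact absurd (mem_univ i) h)
  have h2 := congrFun h1 i
  simp only [if_true, Pi.zero_apply] at h2
  exact hb h2

/-- the residues of the positions are uniformly distributed -/
lemma res_unif (α β : Fin s → ℝ) (hα : Ind α) (Q : ℕ) [NeZero Q] (r : ZMod Q × (Fin s → ZMod Q)) (δ : ℝ)
    (hδ : 0 < δ) : ∃ N0 : ℕ, ∀ N : ℕ, N0 ≤ N →
      |cnt N (fun n : ℕ => (((n : ZMod Q), fun i => ((Uz α β n i : ℤ) : ZMod Q)) : ZMod Q × (Fin s → ZMod Q)) = r) -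
        N / (Q : ℝ) ^ (s + 1)| ≤ δ * N := by
  classical
  have hQ1 : 1 ≤ Q := Nat.one_le_iff_ne_zero.2 (NeZero.ne _)
  have hQ0 : (0 : ℝ) < Q := by exact_mod_cast hQ1
  have key := unif_of_per (G := ZMod Q × (Fin s → ZMod Q))
    (fun n : ℕ => ((n : ZMod Q), fun i => ((Uz α β n i : ℤ) : ZMod Q))) (fun t δ hδ => by
      -- the sparse set
      have h1 : Sp (fun η m => ∃ i : Fin s, nz (α i * m + β i) η) :=
        Sp.ex fun i => Sp_lin (α i) (β i) (hα.irr i)
      have h2 := ((h1 δ hδ).and self_mem_nhdsWithin).exists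
      obtain ⟨η, hη1, hη0⟩ := h2
      have hη0' : (0 : ℝ) < η := hη0
      obtain ⟨T, hT1, hT2⟩ := kro' (fun i => α i / Q) (fun k a b hb hab => by
        have e1 := hα (fun i => b * k i) (a * Q) (by
          push_cast
          rw [← hab, mul_sum, sum_mul]
          refine sum_congr rfl fun i _ => ?_
          field_simp)
        funext i
        have e2 := congrFun e1 i
        simp only [Pi.zero_apply, mul_eq_zero] at e2
        simpa [hb] using e2) (fun i => ((t.2 i).val : ℝ) / Q) Q t.1.val hQ1 (η / Q) (by positivity)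
      choose z hz using hT2
      obtain ⟨N0, hN0⟩ := eventually_atTop.1 hη1
      refine ⟨T, N0, fun N hN => ?_⟩
      refine le_trans ?_ (hN0 N hN)
      rw [cnt_eq]
      refine cnt_mono N fun m hm => ?_
      by_contra hcon
      push Not at hcon
      apply hm
      have e1 : ((m + T : ℕ) : ZMod Q) = (m : ZMod Q) + t.1 := by
        push_cast
        congr 1
        have : ((T % Q : ℕ) : ZMod Q) = ((t.1.val % Q : ℕ) : ZMod Q) := by rw [hT1]
        rwa [ZMod.natCast_mod, ZMod.natCast_mod, ZMod.natCast_zmod_val] at this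
      refine Prod.ext e1 ?_
      funext i
      show ((Uz α β ((m + T : ℕ) : ℤ) i : ℤ) : ZMod Q) = ((Uz α β m i : ℤ) : ZMod Q) + t.2 i
      obtain ⟨w, hw⟩ : ∃ w : ℝ, w = α i * T - (t.2 i).val - Q * z i := ⟨_, rfl⟩
      have hwη : |w| ≤ η := by
        have e2 := hz i
        have e3 : α i / Q * T - (t.2 i).val / Q - z i = w / Q := by
          rw [hw]
          field_simp
        rw [e3, abs_div, abs_of_pos hQ0, div_lt_div_iff_of_pos_right hQ0] at e2
        exact e2.le
      have e2 : Uz α β ((m + T : ℕ) : ℤ) i = Uz α β m i + ((t.2 i).val + Q * z i) := by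
        unfold Uz
        push_cast
        have e3 : α i * ((m : ℝ) + T) + β i = (α i * m + β i + w) + (((t.2 i).val + Q * z i : ℤ) : ℝ) := by
          rw [hw]
          push_cast
          ring
        rw [e3, Int.floor_add_intCast, floor_shift (hcon i) hwη]
      rw [e2]
      push_cast
      rw [ZMod.natCast_self, zero_mul, add_zero, ZMod.natCast_zmod_val]) r δ hδ
  obtain ⟨N0, hN0⟩ := key
  refine ⟨N0, fun N hN => ?_⟩
  have h1 := hN0 N hN
  rw [cnt_eq] at h1
  have h2 : (Fintype.card (ZMod Q × (Fin s → ZMod Q)) : ℝ) = (Q : ℝ) ^ (s + 1) := by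
    rw [Fintype.card_prod, Fintype.card_pi, ZMod.card]
    simp only [ZMod.card, prod_const, card_univ, Fintype.card_fin]
    push_cast
    ring
  rw [h2] at h1
  exact h1

end Pool.Agent.Q270.EV
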