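import Pool.Agent.Q270.EV.Cell
import Pool.Agent.Q270.EV.Kro
import Pool.Agent.Q270.EH.Dil

/-!
Project EV (helper270): the dilation identity at one scale.
-/

set_option autoImplicit false

namespace Pool.Agent.Q270.EV

open Finset Filter Topology Pool.Agent.Q270.EA Pool.Agent.Q270.EB Pool.Agent.Q270.EC Pool.Agent.Q119.EA
open Pool.Agent.Q270.EH (card_gap card_near cnt cnt_eq cnt_mono cnt_ex nz sparse)
open Pool.Agent.TH823.MRS (ExpoSmall)

/-- few exceptions in the dilation identity -/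
lemma exc_card' {s : ℕ} (θ : Fin s → ℝ) (A : Fin s → ℕ → ℤ) (C : ℝ) (θ0 : ∀ j, 0 < θ j) (C0 : 0 ≤ C)
    (pos : ∀ j (n : ℕ), |(A j n : ℝ) - θ j * n| ≤ C) : ∃ C₂ : ℝ, 0 ≤ C₂ ∧ ∀ p M : ℕ, 1 ≤ p →
    (((Icc 1 M).filter (fun n : ℕ => p ∣ n ∨ ∃ j, (A j n ≤ 0 ∨ (p : ℤ) ∣ A j n))).card : ℝ) ≤
      C₂ * (M / p + 1) := by
  classical
  have hC := C0
  obtain ⟨c, hc⟩ : ∃ c : Fin s → ℝ, c = fun j => (2 * C / θ j + 1) * (2 * θ j + 2 * C + 2) :=
    ⟨_, rfl⟩
  have hc0 : ∀ j, 0 ≤ c j := fun j => by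
    rw [hc]
    have := θ0 j
    dsimp only
    positivity
  refine ⟨1 + ∑ j, c j, add_nonneg zero_le_one (sum_nonneg fun j _ => hc0 j), fun p M hp => ?_⟩
  have hp0 : (0 : ℝ) < p := by exact_mod_cast hp
  have hp1 : (1 : ℝ) ≤ p := by exact_mod_cast hp
  have hMp : (0 : ℝ) ≤ M / p := by positivity
  have h1 : ((Icc 1 M).filter (fun n : ℕ => p ∣ n ∨ ∃ j, (A j n ≤ 0 ∨ (p : ℤ) ∣ A j n))) ⊆
      ((Icc 1 M).filter (fun n : ℕ => p ∣ n)) ∪ univ.biUnion (fun j : Fin s =>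
        (Icc 1 M).filter (fun n : ℕ => A j n ≤ 0 ∨ (p : ℤ) ∣ A j n)) := by
    intro n hn
    rw [mem_filter] at hn
    obtain ⟨h2, h3 | ⟨j, hj⟩⟩ := hn
    · exact mem_union_left _ (mem_filter.2 ⟨h2, h3⟩)
    · exact mem_union_right _ (mem_biUnion.2 ⟨j, mem_univ _, mem_filter.2 ⟨h2, hj⟩⟩)
  have h2 : (((Icc 1 M).filter (fun n : ℕ => p ∣ n)).card : ℝ) ≤ M / p + 1 := by
    refine card_gap p M hp _ (filter_subset _ _) fun m hm m' hm' hlt => ?_
    have h3 := (mem_filter.1 hm).2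
    have h4 := (mem_filter.1 hm').2
    exact Nat.le_of_dvd (by omega) (Nat.dvd_sub h4 h3)
  have h3 : ∀ j : Fin s, (((Icc 1 M).filter (fun n : ℕ => A j n ≤ 0 ∨ (p : ℤ) ∣ A j n)).card : ℝ) ≤
      c j * (M / p + 1) := by
    intro j
    have hθ := θ0 j
    -- the value
    obtain ⟨v, hv⟩ : ∃ v : ℕ → ℕ, v = fun (n : ℕ) => ((A j n).toNat) / p := ⟨_, rfl⟩
    have hfib : ∀ b : ℕ, ((((Icc 1 M).filter (fun n : ℕ => A j n ≤ 0 ∨ (p : ℤ) ∣ A j n)).filter
        (fun n => v n = b)).card : ℝ) ≤ 2 * (2 * C / θ j) + 1 := by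
      intro b
      refine card_near ((p * b : ℝ) / θ j) (2 * C / θ j) (by positivity) _ fun n hn => ?_
      rw [mem_filter, mem_filter] at hn
      obtain ⟨⟨hn1, hn2⟩, hn3⟩ := hn
      have h4 := pos j n
      have h4' := abs_le.1 h4
      rw [abs_le]
      rw [hv] at hn3
      dsimp only at hn3
      have hn0 : (0 : ℝ) ≤ n := by positivity
      by_cases hA : A j n ≤ 0
      · have h5 : (A j n).toNat = 0 := Int.toNat_of_nonpos hA
        rw [h5, Nat.zero_div] at hn3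
        rw [← hn3]
        have h6 : (A j n : ℝ) ≤ 0 := by exact_mod_cast hA
        have h7 : (n : ℝ) ≤ C / θ j := by
          rw [le_div_iff₀ hθ]
          linarith [h4'.1, mul_comm (θ j) (n : ℝ)]
        have h8 : 2 * C / θ j = C / θ j + C / θ j := by ring
        have h9 : 0 ≤ C / θ j := by positivity
        push_cast
        rw [mul_zero, zero_div, h8]
        constructor <;> linarith
      · have hd : (p : ℤ) ∣ A j n := by
          rcases hn2 with h | h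
          · exact absurd h hA
          · exact h
        obtain ⟨q, hq⟩ := hd
        have hq0 : 0 ≤ q := by
          by_contra hneg
          push Not at hneg
          have : (p : ℤ) * q ≤ 0 := by
            have h1 : (0 : ℤ) ≤ p := by positivity
            nlinarith
          rw [← hq] at this
          exact hA this
        have h5 : (A j n).toNat = p * q.toNat := by
          have : ((A j n).toNat : ℤ) = ((p * q.toNat : ℕ) : ℤ) := by
            push Not at hA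
            rw [Int.toNat_of_nonneg hA.le]
            push_cast
            rw [Int.toNat_of_nonneg hq0, hq]
          exact_mod_cast this
        rw [h5, Nat.mul_div_cancel_left _ hp] at hn3
        have h6 : (A j n : ℝ) = p * b := by
          rw [← hn3]
          have : (q.toNat : ℤ) = q := Int.toNat_of_nonneg hq0
          have h7 : ((q.toNat : ℕ) : ℝ) = (q : ℝ) := by exact_mod_cast this
          rw [h7, hq]
          push_cast
          ring
        rw [h6] at h4'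
        have h7 : (p * b : ℝ) / θ j - n = (p * b - θ j * n) / θ j := by field_simp
        have h8 : (n : ℝ) - p * b / θ j = - ((p * b - θ j * n) / θ j) := by
          rw [← h7]
          ring
        rw [h8]
        have h9 : (p * b - θ j * n) / θ j ≤ C / θ j := by
          gcongr
          exact h4'.2
        have h10 : -(C / θ j) ≤ (p * b - θ j * n) / θ j := by
          rw [neg_div', div_le_div_iff_of_pos_right hθ]
          exact h4'.1
        have h11 : 2 * C / θ j = C / θ j + C / θ j := by ring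
        have h12 : 0 ≤ C / θ j := by positivity
        constructor <;> linarith
    have hmaps : ∀ n ∈ (Icc 1 M).filter (fun n : ℕ => A j n ≤ 0 ∨ (p : ℤ) ∣ A j n),
        v n ∈ range (⌊(θ j * M + C) / p⌋₊ + 1) := by
      intro n hn
      rw [mem_filter, mem_Icc] at hn
      rw [mem_range, hv]
      dsimp only
      refine Nat.lt_succ_of_le (Nat.le_floor ?_)
      have h4 := (abs_le.1 (pos j n)).2
      have h5 : (((A j n).toNat / p : ℕ) : ℝ) ≤ ((A j n).toNat : ℝ) / p := Nat.cast_div_le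
      refine h5.trans ?_
      gcongr
      have h6 : ((A j n).toNat : ℝ) ≤ θ j * n + C := by
        rcases le_or_gt (A j n) 0 with h | h
        · rw [Int.toNat_of_nonpos h]
          push_cast
          positivity
        · have : ((A j n).toNat : ℤ) = A j n := Int.toNat_of_nonneg h.le
          have h7 : ((A j n).toNat : ℝ) = (A j n : ℝ) := by exact_mod_cast this
          rw [h7]
          linarith
      have h7 : (n : ℝ) ≤ M := by exact_mod_cast hn.1.2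
      have h8 : θ j * n ≤ θ j * M := by gcongr
      linarith
    have h4 := card_eq_sum_card_fiberwise hmaps
    rw [h4]
    push_cast
    refine (sum_le_sum fun b _ => hfib b).trans ?_
    rw [sum_const, card_range, nsmul_eq_mul]
    push_cast
    have h5 : (⌊(θ j * M + C) / p⌋₊ : ℝ) ≤ (θ j * M + C) / p := Nat.floor_le (by positivity)
    have h6 : (θ j * M + C) / p ≤ θ j * (M / p) + C := by
      rw [add_div, mul_div_assoc]
      have : C / p ≤ C := div_le_self hC hp1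
      linarith
    have h7 : 2 * (2 * C / θ j) + 1 ≤ 2 * (2 * C / θ j + 1) := by linarith
    have h8 : 0 ≤ 2 * C / θ j := by positivity
    rw [hc]
    dsimp only
    have h9 : (⌊(θ j * M + C) / p⌋₊ : ℝ) + 1 ≤ (θ j + C + 1) * (M / p + 1) := by
      have e1 : (θ j + C + 1) * (M / p + 1) = θ j * (M / p) + C + 1 + (θ j + C * (M / p) + M / p) := by ring
      have e2 : 0 ≤ θ j + C * (M / p) + M / p := by positivity
      rw [e1]
      linarith
    calc ((⌊(θ j * M + C) / p⌋₊ : ℝ) + 1) * (2 * (2 * C / θ j) + 1) ≤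
        ((θ j + C + 1) * (M / p + 1)) * (2 * (2 * C / θ j + 1)) := by gcongr
      _ = (2 * C / θ j + 1) * (2 * θ j + 2 * C + 2) * (M / p + 1) := by ring
  calc _ ≤ ((((Icc 1 M).filter (fun n : ℕ => p ∣ n)) ∪ univ.biUnion (fun j : Fin s =>
        (Icc 1 M).filter (fun n : ℕ => A j n ≤ 0 ∨ (p : ℤ) ∣ A j n))).card : ℝ) := by
        exact_mod_cast card_le_card h1
    _ ≤ (((Icc 1 M).filter (fun n : ℕ => p ∣ n)).card : ℝ) + ∑ j : Fin s,
        (((Icc 1 M).filter (fun n : ℕ => A j n ≤ 0 ∨ (p : ℤ) ∣ A j n)).card : ℝ) := by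
        have h4 := (card_union_le ((Icc 1 M).filter (fun n : ℕ => p ∣ n)) (univ.biUnion (fun j : Fin s =>
          (Icc 1 M).filter (fun n : ℕ => A j n ≤ 0 ∨ (p : ℤ) ∣ A j n)))).trans
          (Nat.add_le_add_left card_biUnion_le _)
        exact_mod_cast h4
    _ ≤ (M / p + 1) + ∑ j, c j * (M / p + 1) := add_le_add h2 (sum_le_sum fun j _ => h3 j)
    _ = _ := by rw [← sum_mul]; ring


/-- the data: slopes, offsets, forms, and a vector that kills the companions -/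
structure Dat (s k : ℕ) where
  α : Fin s → ℝ
  β : Fin s → ℝ
  a0 : ℤ × (Fin s → ℤ)
  h0 : ℤ
  a : Fin k → ℤ × (Fin s → ℤ)
  h : Fin k → ℤ
  D : ℕ
  y0 : ℤ
  y : Fin s → ℤ
  α0 : ∀ i, 0 < α i
  β0 : ∀ i, 0 ≤ β i
  ind : Ind α
  pos0 : 0 < (a0.1 : ℝ) + ∑ i, a0.2 i * α i
  pos : ∀ j, 0 < ((a j).1 : ℝ) + ∑ i, (a j).2 i * α i
  kill : ∀ j, lin (a j) y0 y + D * h j = 0
  nkill : lin a0 y0 y + D * h0 ≠ 0

variable {s k : ℕ}

/-- the further positions, as natural numbers -/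
noncomputable def un (G : Dat s k) (n : ℕ) (i : Fin s) : ℕ := (Uz G.α G.β n i).toNat

/-- the offsets, as natural numbers -/
noncomputable def bn (G : Dat s k) (p : ℕ) (i : Fin s) : ℕ := (bq G.β p i).toNat

lemma un_cast (G : Dat s k) (n : ℕ) (i : Fin s) : ((un G n i : ℕ) : ℤ) = Uz G.α G.β n i := by
  unfold un
  refine Int.toNat_of_nonneg ?_
  unfold Uz
  refine Int.floor_nonneg.2 ?_
  have h1 := (G.α0 i).le
  have h2 := G.β0 i
  push_cast
  positivity

lemma bn_cast (G : Dat s k) (p : ℕ) (hp : 1 ≤ p) (i : Fin s) : ((bn G p i : ℕ) : ℤ) = bq G.β p i := by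
  unfold bn
  refine Int.toNat_of_nonneg ?_
  unfold bq
  refine Int.floor_nonneg.2 ?_
  have h2 := G.β0 i
  have h3 : (0 : ℝ) ≤ (p : ℝ) - 1 := by
    have : (1 : ℝ) ≤ p := by exact_mod_cast hp
    linarith
  positivity

/-- the function on the main variable -/
noncomputable def phiV (G : Dat s k) (f : ℕ → ℂ) (g : Fin k → ℕ → ℂ) (n : ℕ) : ℂ :=
  Ff f g G.a0 G.h0 G.a G.h 1 n (Uz G.α G.β n)

/-- the function on the dilated variable -/
noncomputable def psiV (G : Dat s k) (f : ℕ → ℂ) (g : Fin k → ℕ → ℂ) (p : ℕ) (r : Fin s → ℕ) (n : ℕ) : ℂ :=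
  Ff f g G.a0 G.h0 G.a G.h p n
    (fun i => ((un G n i + bn G p i : ℕ) : ℤ) - (((r i + bn G p i) % p : ℕ) : ℤ))

lemma norm_phiV (G : Dat s k) (f : ℕ → ℂ) (g : Fin k → ℕ → ℂ) (hf : ∀ n, ‖f n‖ ≤ 1)
    (hg : ∀ j n, ‖g j n‖ ≤ 1) (n : ℕ) : ‖phiV G f g n‖ ≤ 1 := norm_Ff _ _ _ _ _ _ hf hg _ _ _

lemma norm_psiV (G : Dat s k) (f : ℕ → ℂ) (g : Fin k → ℕ → ℂ) (hf : ∀ n, ‖f n‖ ≤ 1)
    (hg : ∀ j n, ‖g j n‖ ≤ 1) (p : ℕ) (r : Fin s → ℕ) (n : ℕ) : ‖psiV G f g p r n‖ ≤ 1 :=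
  norm_Ff _ _ _ _ _ _ hf hg _ _ _

/-- the mean over the residues is a mean over a box -/
lemma avg_psi (G : Dat s k) (f : ℕ → ℂ) (g : Fin k → ℕ → ℂ) (p : ℕ) (hp : 1 ≤ p) (n : ℕ) :
    (∑ r ∈ Rs s p, psiV G f g p r n) / (p : ℂ) ^ s =
      bav (Ff f g G.a0 G.h0 G.a G.h p n) (Uz G.α G.β n + bq G.β p) p := by
  unfold bav
  congr 1
  rw [sum_Bx]
  have h1 := sum_shift hp (fun i => bn G p i) (fun ρ => Ff f g G.a0 G.h0 G.a G.h p n
    (fun i => ((un G n i + bn G p i : ℕ) : ℤ) - (ρ i : ℤ)))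
  have h2 : ∀ r, psiV G f g p r n = Ff f g G.a0 G.h0 G.a G.h p n
    (fun i => ((un G n i + bn G p i : ℕ) : ℤ) - (((r i + bn G p i) % p : ℕ) : ℤ)) := fun r => rfl
  rw [sum_congr rfl fun r _ => h2 r, h1]
  refine sum_congr rfl fun ρ _ => ?_
  congr 1
  funext i
  push_cast
  rw [un_cast, bn_cast G p hp]
  rfl

/-- the value of a form at the positions -/
noncomputable def w0 (G : Dat s k) (n : ℕ) : ℤ := lin G.a0 n (Uz G.α G.β n) + G.h0

/-- the values of the companion forms at the positions -/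
noncomputable def wj (G : Dat s k) (j : Fin k) (n : ℕ) : ℤ := lin (G.a j) n (Uz G.α G.β n) + G.h j

lemma phiV_eq (G : Dat s k) (f : ℕ → ℂ) (g : Fin k → ℕ → ℂ) (n : ℕ) :
    phiV G f g n = f (w0 G n).toNat * ∏ j, g j (wj G j n).toNat := by
  unfold phiV Ff w0 wj
  simp

/-- the dilation identity at one point -/
lemma psi_dil (G : Dat s k) (f : ℕ → ℂ) (g : Fin k → ℕ → ℂ) (p m : ℕ) (hp : 1 ≤ p)
    (hnz : ∀ i, ¬ nz (G.α i * m + G.β i) (2 / p)) :
    psiV G f g p (fun i => un G (p * m) i % p) (p * m) =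
      f ((p : ℤ) * w0 G m).toNat * ∏ j, g j ((p : ℤ) * wj G j m).toNat := by
  have hp0 : (0 : ℝ) < p := by exact_mod_cast hp
  have hX : (fun i => ((un G (p * m) i + bn G p i : ℕ) : ℤ) - (((un G (p * m) i % p + bn G p i) % p : ℕ) : ℤ)) =
      fun i => (p : ℤ) * Uz G.α G.β m i := by
    funext i
    obtain ⟨W, hW⟩ : ∃ W : ℕ, W = un G (p * m) i + bn G p i := ⟨_, rfl⟩
    rw [Nat.mod_add_mod, ← hW]
    have h1 : ((W : ℕ) : ℤ) - ((W % p : ℕ) : ℤ) = (p : ℤ) * ((W / p : ℕ) : ℤ) := by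
      have := Nat.div_add_mod W p
      have h2 : ((W : ℕ) : ℤ) = (p : ℤ) * ((W / p : ℕ) : ℤ) + ((W % p : ℕ) : ℤ) := by exact_mod_cast this.symm
      omega
    rw [h1]
    congr 1
    -- the quotient
    obtain ⟨v, hv⟩ : ∃ v : ℝ, v = G.α i * m + G.β i := ⟨_, rfl⟩
    have hU : Uz G.α G.β m i = ⌊v⌋ := by
      rw [hv]
      unfold Uz
      push_cast
      rfl
    rw [hU]
    have hWr : (W : ℝ) = (⌊G.α i * ((p : ℝ) * m) + G.β i⌋ : ℝ) + (⌊((p : ℝ) - 1) * G.β i⌋ : ℝ) := by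
      have e1 : ((W : ℕ) : ℤ) = Uz G.α G.β ((p * m : ℕ) : ℤ) i + bq G.β p i := by
        rw [hW]
        push_cast
        rw [un_cast, bn_cast G p hp]
        push_cast
        rfl
      have e2 : (W : ℝ) = ((Uz G.α G.β ((p * m : ℕ) : ℤ) i + bq G.β p i : ℤ) : ℝ) := by exact_mod_cast e1
      rw [e2]
      unfold Uz bq
      push_cast
      rfl
    have f1 := Int.floor_le (G.α i * ((p : ℝ) * m) + G.β i)
    have f2 := Int.lt_floor_add_one (G.α i * ((p : ℝ) * m) + G.β i)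
    have f3 := Int.floor_le (((p : ℝ) - 1) * G.β i)
    have f4 := Int.lt_floor_add_one (((p : ℝ) - 1) * G.β i)
    have hpv : (p : ℝ) * v = (G.α i * ((p : ℝ) * m) + G.β i) + ((p : ℝ) - 1) * G.β i := by
      rw [hv]
      ring
    have hW1 : (W : ℝ) ≤ p * v := by rw [hWr, hpv]; linarith
    have hW2 : p * v < W + 2 := by rw [hWr, hpv]; linarith
    have hfr : (⌊v⌋ : ℝ) + 2 / p < v := by
      by_contra hc
      push Not at hc
      refine hnz i ⟨⌊v⌋, ?_⟩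
      rw [← hv, abs_of_nonneg (by linarith [Int.floor_le v])]
      linarith
    have hv0 : 0 ≤ ⌊v⌋ := by
      rw [hv]
      refine Int.floor_nonneg.2 ?_
      have h1 := (G.α0 i).le
      have h2 := G.β0 i
      positivity
    obtain ⟨z, hz⟩ := Int.eq_ofNat_of_zero_le hv0
    rw [hz]
    have hzr : (⌊v⌋ : ℝ) = z := by rw [hz]; simp
    rw [hzr] at hfr
    have hzlt : v < z + 1 := by rw [← hzr]; exact Int.lt_floor_add_one v
    have h3 : W / p = z := by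
      rw [Nat.div_eq_iff (by omega)]
      have e1 : (z : ℝ) * p < W := by
        have h4 : ((z : ℝ) + 2 / p) * p < v * p := by gcongr
        have h5 : ((z : ℝ) + 2 / p) * p = z * p + 2 := by field_simp
        linarith
      have e2 : (W : ℝ) < (z + 1) * p := by
        have h4 : v * p < (z + 1) * p := by gcongr
        linarith
      have e3 : z * p < W := by exact_mod_cast e1
      have e4 : W < (z + 1) * p := by exact_mod_cast e2
      constructor
      · omega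
      · rw [add_mul, one_mul] at e4
        omega
    rw [h3]
  unfold psiV Ff
  rw [hX]
  have hl : ∀ (b : ℤ × (Fin s → ℤ)) (c : ℤ), lin b ((p * m : ℕ) : ℤ) (fun i => (p : ℤ) * Uz G.α G.β m i) + p * c =
      (p : ℤ) * (lin b m (Uz G.α G.β m) + c) := by
    intro b c
    push_cast
    rw [lin_smul]
    ring
  unfold w0 wj
  rw [hl]
  simp only [hl]

/-- few exceptions -/
lemma excV (G : Dat s k) : ∃ C₂ : ℝ, 0 ≤ C₂ ∧ ∀ p M : ℕ, 1 ≤ p →
    cnt M (fun n : ℕ => (w0 G n ≤ 0 ∨ (p : ℤ) ∣ w0 G n) ∨ ∃ j, (wj G j n ≤ 0 ∨ (p : ℤ) ∣ wj G j n)) ≤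
      C₂ * (M / p + 1) := by
  classical
  obtain ⟨A, hA⟩ : ∃ A : Fin (k + 1) → ℕ → ℤ, A = fun j n => Fin.cases (w0 G n) (fun j => wj G j n) j := ⟨_, rfl⟩
  obtain ⟨θ, hθ⟩ : ∃ θ : Fin (k + 1) → ℝ, θ = Fin.cases ((G.a0.1 : ℝ) + ∑ i, G.a0.2 i * G.α i)
    (fun j => ((G.a j).1 : ℝ) + ∑ i, (G.a j).2 i * G.α i) := ⟨_, rfl⟩
  obtain ⟨C, hC⟩ : ∃ C : ℝ, C = (∑ i, |(G.a0.2 i : ℝ)| * (|G.β i| + 1) + |(G.h0 : ℝ)|) +
    ∑ j, (∑ i, |((G.a j).2 i : ℝ)| * (|G.β i| + 1) + |(G.h j : ℝ)|) := ⟨_, rfl⟩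
  have hC1 : 0 ≤ ∑ i, |(G.a0.2 i : ℝ)| * (|G.β i| + 1) + |(G.h0 : ℝ)| :=
    add_nonneg (sum_nonneg fun i _ => by positivity) (abs_nonneg _)
  have hC2 : ∀ j, 0 ≤ ∑ i, |((G.a j).2 i : ℝ)| * (|G.β i| + 1) + |(G.h j : ℝ)| := fun j =>
    add_nonneg (sum_nonneg fun i _ => by positivity) (abs_nonneg _)
  obtain ⟨C₂, hC₂0, hC₂⟩ := exc_card' θ A C (fun j => by
    rw [hθ]
    refine Fin.cases ?_ (fun j => ?_) j
    · exact G.pos0
    · exact G.pos j) (by rw [hC]; exact add_nonneg hC1 (sum_nonneg fun j _ => hC2 j)) (fun j n => by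
    rw [hθ, hA, hC]
    refine Fin.cases ?_ (fun j => ?_) j
    · simp only [Fin.cases_zero]
      unfold w0
      push_cast
      have h1 := lin_near G.α G.β G.a0 n
      have h2 : (lin G.a0 n (Uz G.α G.β n) : ℝ) + G.h0 - (G.a0.1 + ∑ i, G.a0.2 i * G.α i) * n =
          ((lin G.a0 n (Uz G.α G.β n) : ℝ) - (G.a0.1 + ∑ i, G.a0.2 i * G.α i) * n) + G.h0 := by ring
      rw [h2]
      refine (abs_add_le _ _).trans ?_
      have h3 : 0 ≤ ∑ j, (∑ i, |((G.a j).2 i : ℝ)| * (|G.β i| + 1) + |(G.h j : ℝ)|) := sum_nonneg fun j _ => hC2 j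
      rw [Int.cast_natCast] at h1
      linarith
    · simp only [Fin.cases_succ]
      unfold wj
      push_cast
      have h1 := lin_near G.α G.β (G.a j) n
      have h2 : (lin (G.a j) n (Uz G.α G.β n) : ℝ) + G.h j - ((G.a j).1 + ∑ i, (G.a j).2 i * G.α i) * n =
          ((lin (G.a j) n (Uz G.α G.β n) : ℝ) - ((G.a j).1 + ∑ i, (G.a j).2 i * G.α i) * n) + G.h j := by ring
      rw [h2]
      refine (abs_add_le _ _).trans ?_
      have h3 := single_le_sum (f := fun j => ∑ i, |((G.a j).2 i : ℝ)| * (|G.β i| + 1) + |(G.h j : ℝ)|)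
        (fun j _ => hC2 j) (mem_univ j)
      rw [Int.cast_natCast] at h1
      linarith)
  refine ⟨C₂, hC₂0, fun p M hp => ?_⟩
  refine le_trans ?_ (hC₂ p M hp)
  rw [cnt_eq]
  refine cnt_mono M fun n hn => ?_
  right
  rcases hn with hn | ⟨j, hn⟩
  · refine ⟨0, ?_⟩
    rw [hA]
    exact hn
  · refine ⟨j.succ, ?_⟩
    rw [hA]
    exact hn

/-- the dilation identity at one scale -/
lemma dil_fin4 (G : Dat s k) (C₂ : ℝ) (hC₂0 : 0 ≤ C₂) (hC₂ : ∀ p M : ℕ, 1 ≤ p →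
      cnt M (fun n : ℕ => (w0 G n ≤ 0 ∨ (p : ℤ) ∣ w0 G n) ∨ ∃ j, (wj G j n ≤ 0 ∨ (p : ℤ) ∣ wj G j n)) ≤
        C₂ * (M / p + 1))
    (τ₁ : ℝ) (hτ₁ : 0 ≤ τ₁) (p : ℕ) (hp : p.Prime)
    (hsp : ∀ i, ∀ M : ℕ, cnt M (fun m : ℕ => nz (G.α i * m + G.β i) (2 / p)) ≤ τ₁ * M + 1)
    (f : ℕ → ℂ) (hf1 : ∀ n, ‖f n‖ ≤ 1) (g gt : Fin k → ℕ → ℂ) (hg1 : ∀ j n, ‖g j n‖ ≤ 1)
    (hgt1 : ∀ j n, ‖gt j n‖ ≤ 1) (τ : ℝ) (hτ : ∀ j n, ‖gt j n - g j n‖ ≤ τ)
    (hfp : ∀ n, 1 ≤ n → ¬ p ∣ n → f (p * n) = - f n)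
    (hgp : ∀ j, ‖g j p‖ = 1) (hgm : ∀ j n, ¬ p ∣ n → g j (p * n) = g j p * g j n)
    (N : ℕ) (hN : 1 ≤ N) :
    ‖AvN (N / p) (phiV G f g)‖ - 2 * C₂ / p - 2 * s * τ₁ - k * τ - (2 * C₂ + 2 * s + 1) * p / N ≤
      (1 / (N : ℝ)) * ∑ n ∈ Icc 1 N, ((if p ∣ n then (p : ℂ) else 0) *
        ((ph (∑ n ∈ Icc 1 (N / p), phiV G f g n) * (- ∏ j, starRingEnd ℂ (g j p))) *
          psiV G f gt p (fun i => un G n i % p) n)).re := by
  classical
  have hp0 : (0 : ℝ) < p := by exact_mod_cast hp.pos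
  have hN0 : (0 : ℝ) < N := by exact_mod_cast hN
  have hp0' : (p : ℝ) ≠ 0 := hp0.ne'
  have hsτ : 0 ≤ k * τ := by
    rcases Nat.eq_zero_or_pos k with h0 | h0
    · subst h0; simp
    · have := (norm_nonneg _).trans (hτ ⟨0, h0⟩ 0)
      positivity
  obtain ⟨φ, hφ⟩ : ∃ φ, φ = phiV G f g := ⟨_, rfl⟩
  have hφ1 : ∀ n, ‖φ n‖ ≤ 1 := fun n => by rw [hφ]; exact norm_phiV G f g hf1 hg1 n
  obtain ⟨M, hM⟩ : ∃ M, M = N / p := ⟨_, rfl⟩
  obtain ⟨S, hS⟩ : ∃ S, S = ∑ n ∈ Icc 1 M, φ n := ⟨_, rfl⟩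
  obtain ⟨ψ, hψ⟩ : ∃ ψ : ℕ → ℂ, ψ = fun n => (ph S * (- ∏ j, starRingEnd ℂ (g j p))) *
    psiV G f gt p (fun i => un G n i % p) n := ⟨_, rfl⟩
  have hprodc : ‖- ∏ j, starRingEnd ℂ (g j p)‖ ≤ 1 := by
    rw [norm_neg, norm_prod]
    exact prod_le_one (fun _ _ => norm_nonneg _) fun j _ => by rw [RCLike.norm_conj, hgp]
  have hψ1 : ∀ n, ‖ψ n‖ ≤ 1 := fun n => by
    rw [hψ]
    dsimp only
    rw [norm_mul, norm_mul]
    exact mul_le_one₀ (mul_le_one₀ (norm_ph _) (norm_nonneg _) hprodc) (norm_nonneg _)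
      (norm_psiV G f gt hf1 hgt1 p _ n)
  rw [← hφ, ← hM, ← hS]
  have h1 : ∑ n ∈ Icc 1 N, ((if p ∣ n then (p : ℂ) else 0) *
      ((ph S * (- ∏ j, starRingEnd ℂ (g j p))) * psiV G f gt p (fun i => un G n i % p) n)).re =
      p * (∑ n ∈ Icc 1 M, ψ (p * n)).re := by
    have h2 : ∀ n, (if p ∣ n then (p : ℂ) else 0) *
        ((ph S * (- ∏ j, starRingEnd ℂ (g j p))) * psiV G f gt p (fun i => un G n i % p) n) =
        (p : ℂ) * (if p ∣ n then ψ n else 0) := by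
      intro n
      rw [hψ]
      dsimp only
      split_ifs <;> ring
    simp only [h2]
    rw [← Complex.re_sum, ← mul_sum, sum_mult p N hp.one_le, ← hM, ← Complex.ofReal_natCast,
      Complex.re_ofReal_mul]
  rw [h1]
  -- comparison
  obtain ⟨P, hP⟩ : ∃ P : ℕ → Prop, P = fun n => ((w0 G n ≤ 0 ∨ (p : ℤ) ∣ w0 G n) ∨
    ∃ j, (wj G j n ≤ 0 ∨ (p : ℤ) ∣ wj G j n)) ∨ ∃ i, nz (G.α i * n + G.β i) (2 / p) := ⟨_, rfl⟩
  obtain ⟨Ex, hEx⟩ : ∃ Ex : Finset ℕ, Ex = (Icc 1 M).filter P := ⟨_, rfl⟩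
  have hExc : (Ex.card : ℝ) ≤ C₂ * (M / p + 1) + s * (τ₁ * M + 1) := by
    rw [hEx, cnt_eq, hP]
    refine (Pool.Agent.Q270.EH.cnt_or _ _ _).trans (add_le_add (hC₂ p M hp.one_le) ?_)
    refine (cnt_ex M _).trans ((sum_le_sum fun i _ => hsp i M).trans ?_)
    rw [sum_const, card_univ, Fintype.card_fin, nsmul_eq_mul]
  have hterm : ∀ n ∈ Icc 1 M, ‖ψ (p * n) - ph S * φ n‖ ≤ k * τ + if n ∈ Ex then 2 else 0 := by
    intro n hn
    have hn1 := (mem_Icc.1 hn).1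
    split_ifs with hne
    · refine (norm_sub_le _ _).trans ?_
      have h2 : ‖ph S * φ n‖ ≤ 1 := by
        rw [norm_mul]
        exact mul_le_one₀ (norm_ph _) (norm_nonneg _) (hφ1 n)
      linarith [hψ1 (p * n)]
    · rw [add_zero]
      have hnd : ¬ P n := by
        intro hj
        apply hne
        rw [hEx, mem_filter]
        exact ⟨hn, hj⟩
      rw [hP] at hnd
      push Not at hnd
      obtain ⟨⟨hnd1, hnd2⟩, hnd3⟩ := hnd
      have hval : ∀ w : ℤ, 0 < w → ((p : ℤ) * w).toNat = p * w.toNat := by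
        intro w hw
        have : (((p : ℤ) * w).toNat : ℤ) = ((p * w.toNat : ℕ) : ℤ) := by
          rw [Int.toNat_of_nonneg (by positivity)]
          push_cast
          rw [Int.toNat_of_nonneg hw.le]
        exact_mod_cast this
      have hndv : ∀ w : ℤ, 0 < w → ¬ (p : ℤ) ∣ w → ¬ p ∣ w.toNat := by
        intro w hw hd hd'
        apply hd
        have : ((w.toNat : ℕ) : ℤ) = w := Int.toNat_of_nonneg hw.le
        rw [← this]
        exact_mod_cast hd'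
      have hgv : ∀ j, g j ((p : ℤ) * wj G j n).toNat = g j p * g j (wj G j n).toNat := by
        intro j
        rw [hval _ (hnd2 j).1, hgm]
        exact hndv _ (hnd2 j).1 (hnd2 j).2
      have hfv : f ((p : ℤ) * w0 G n).toNat = - f (w0 G n).toNat := by
        rw [hval _ hnd1.1, hfp _ (by have := hnd1.1; omega) (hndv _ hnd1.1 hnd1.2)]
      have h5 : (∏ j, starRingEnd ℂ (g j p)) * ∏ j, g j p = 1 := by
        rw [← prod_mul_distrib]
        refine prod_eq_one fun j _ => ?_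
        rw [mul_comm, Complex.mul_conj, Complex.normSq_eq_norm_sq, hgp]
        norm_num
      have h6 : (∏ j, starRingEnd ℂ (g j p)) * ∏ j, g j ((p : ℤ) * wj G j n).toNat =
          ∏ j, g j (wj G j n).toNat := by
        rw [prod_congr rfl fun j _ => hgv j, prod_mul_distrib, ← mul_assoc, h5, one_mul]
      have h2 : ψ (p * n) - ph S * φ n = ph S * f (w0 G n).toNat *
          (∏ j, starRingEnd ℂ (g j p)) * (∏ j, gt j ((p : ℤ) * wj G j n).toNat -
            ∏ j, g j ((p : ℤ) * wj G j n).toNat) := by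
        rw [hψ, hφ]
        dsimp only
        rw [psi_dil G f gt p n hp.one_le hnd3, phiV_eq, hfv, ← h6]
        ring
      rw [h2, norm_mul]
      have h7 : ‖ph S * f (w0 G n).toNat * (∏ j, starRingEnd ℂ (g j p))‖ ≤ 1 := by
        rw [norm_mul, norm_mul, ← norm_neg (∏ j, starRingEnd ℂ (g j p))]
        exact mul_le_one₀ (mul_le_one₀ (norm_ph _) (norm_nonneg _) (hf1 _)) (norm_nonneg _) hprodc
      have h8 : ‖∏ j, gt j ((p : ℤ) * wj G j n).toNat - ∏ j, g j ((p : ℤ) * wj G j n).toNat‖ ≤ k * τ := by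
        have h9 := norm_prod_sub_le univ (fun j => gt j ((p : ℤ) * wj G j n).toNat)
          (fun j => g j ((p : ℤ) * wj G j n).toNat) (fun j _ => hgt1 _ _) (fun j _ => hg1 _ _)
          (fun j _ => hτ j _)
        rwa [card_univ, Fintype.card_fin] at h9
      calc _ ≤ 1 * (k * τ) := mul_le_mul h7 h8 (norm_nonneg _) zero_le_one
        _ = _ := one_mul _
  have hcmp : ‖∑ n ∈ Icc 1 M, ψ (p * n) - ph S * S‖ ≤ M * (k * τ) + 2 * Ex.card := by
    rw [hS, mul_sum, ← sum_sub_distrib, ← hS]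
    refine (norm_sum_le _ _).trans ((sum_le_sum hterm).trans ?_)
    rw [sum_add_distrib, sum_const, Nat.card_Icc, Nat.add_sub_cancel, nsmul_eq_mul,
      ← sum_filter, sum_const, nsmul_eq_mul, mul_comm _ (2 : ℝ)]
    have h3 : (Icc 1 M).filter (fun n => n ∈ Ex) ⊆ Ex := fun n hn => (mem_filter.1 hn).2
    have h4 : (((Icc 1 M).filter (fun n => n ∈ Ex)).card : ℝ) ≤ Ex.card := by
      exact_mod_cast card_le_card h3
    linarith
  have hre : ‖S‖ - (M * (k * τ) + 2 * (C₂ * (M / p + 1) + s * (τ₁ * M + 1))) ≤ (∑ n ∈ Icc 1 M, ψ (p * n)).re := by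
    have h2 := (abs_le.1 ((Complex.abs_re_le_norm _).trans hcmp)).1
    rw [Complex.sub_re, ph_mul, Complex.ofReal_re] at h2
    linarith
  have hMp : (M : ℝ) * p ≤ N := by
    have : M * p ≤ N := by rw [hM]; exact Nat.div_mul_le_self N p
    exact_mod_cast this
  have hMp2 : (N : ℝ) ≤ M * p + p := by
    have : N ≤ M * p + p := by
      rw [hM]
      have := Nat.lt_div_mul_add (a := N) hp.pos
      omega
    exact_mod_cast this
  have hAv : ‖AvN M φ‖ * M = ‖S‖ := by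
    rcases Nat.eq_zero_or_pos M with h0 | h0
    · subst h0
      rw [hS]
      simp
    · have hM0 : (0 : ℝ) < M := by exact_mod_cast h0
      unfold AvN
      rw [norm_mul, norm_div, norm_one, Complex.norm_natCast, ← hS]
      field_simp
  have hAv1 : ‖AvN M φ‖ ≤ 1 := norm_AvN_le hφ1 M
  have hAv0 : 0 ≤ ‖AvN M φ‖ := norm_nonneg _
  have hs0 : (0 : ℝ) ≤ s := by positivity
  have hkey : (‖AvN M φ‖ - 2 * C₂ / p - 2 * s * τ₁ - k * τ - (2 * C₂ + 2 * s + 1) * p / N) * N ≤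
      p * (‖S‖ - (M * (k * τ) + 2 * (C₂ * (M / p + 1) + s * (τ₁ * M + 1)))) := by
    have e1 : (‖AvN M φ‖ - 2 * C₂ / p - 2 * s * τ₁ - k * τ - (2 * C₂ + 2 * s + 1) * p / N) * N =
        ‖AvN M φ‖ * N - 2 * C₂ * N / p - 2 * s * τ₁ * N - k * τ * N - (2 * C₂ + 2 * s + 1) * p := by
      field_simp
    have e2 : p * (‖S‖ - (M * (k * τ) + 2 * (C₂ * (M / p + 1) + s * (τ₁ * M + 1)))) =
        ‖AvN M φ‖ * (M * p) - k * τ * (M * p) - 2 * C₂ * M - 2 * C₂ * p - 2 * s * τ₁ * (M * p) - 2 * s * p := by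
      rw [← hAv]
      field_simp
      ring
    rw [e1, e2]
    have h3 : ‖AvN M φ‖ * N ≤ ‖AvN M φ‖ * (M * p) + p := by
      have : ‖AvN M φ‖ * N ≤ ‖AvN M φ‖ * (M * p + p) := mul_le_mul_of_nonneg_left hMp2 hAv0
      nlinarith
    have h4 : (M : ℝ) ≤ N / p := by rw [le_div_iff₀ hp0]; exact hMp
    have h5 : 2 * C₂ * M ≤ 2 * C₂ * N / p := by
      rw [mul_div_assoc]
      exact mul_le_mul_of_nonneg_left h4 (by positivity)
    have h6 : k * τ * (M * p) ≤ k * τ * N := mul_le_mul_of_nonneg_left hMp hsτ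
    have h7 : 2 * s * τ₁ * (M * p) ≤ 2 * s * τ₁ * N := mul_le_mul_of_nonneg_left hMp (by positivity)
    linarith
  have h6 : (1 / (N : ℝ)) * (p * (∑ n ∈ Icc 1 M, ψ (p * n)).re) =
      (p * (∑ n ∈ Icc 1 M, ψ (p * n)).re) / N := by ring
  rw [h6, le_div_iff₀ hN0]
  exact hkey.trans (mul_le_mul_of_nonneg_left hre hp0.le)

end Pool.Agent.Q270.EV
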