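import Pool.Agent.Q270.EV.Dec
import Pool.Agent.Q92.EA.DVM

/-!
Project EV (helper270): the variational inequality for the residues of several positions.
-/

set_option autoImplicit false

namespace Pool.Agent.Q270.EV

open Finset Filter Pool.Agent.Q270.EA Pool.Agent.Q270.EC
open Pool.Agent.W78.EC (ent cE rsf S_DV S_CE)
open Pool.Agent.Q92.EA (push pr_nonneg pr_sum cH_eq crt)

variable {Ω A : Type} [Fintype A]

/-- the residues modulo `p` -/
def rv (M : Sys Ω) {s : ℕ} (U : Ω → Fin s → ℕ) (p : ℕ) (ω : Ω) : ℕ × (Fin s → ℕ) :=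
  (M.ν ω % p, fun i => U ω i % p)

/-- the vectors of residues modulo `p` -/
def Rp (s p : ℕ) : Finset (ℕ × (Fin s → ℕ)) := range p ×ˢ Fintype.piFinset (fun _ : Fin s => range p)

lemma card_Rp (s p : ℕ) : (Rp s p).card = p ^ (s + 1) := by
  unfold Rp
  rw [card_product, Fintype.card_piFinset, card_range]
  simp only [card_range, prod_const, card_univ, Fintype.card_fin]
  ring

theorem dvm3 (M : Sys Ω) {s : ℕ} (U : Ω → Fin s → ℕ) (W : Ω → A) (P : Finset ℕ) (Q : ℕ) [NeZero Q]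
    (hP : ∀ p ∈ P, p.Prime) (hQ : Q = ∏ p ∈ P, p) (ζ : ℕ → A → (ℕ × (Fin s → ℕ)) → ℝ) (B τ : ℝ)
    (hζ : ∀ p d y, |ζ p d y| ≤ B) (hτ : 0 < τ) :
    M.m (fun ω => |∑ p ∈ P, (ζ p (W ω) (rv M U p ω) -
      (∑ y ∈ Rp s p, ζ p (W ω) y) / (p : ℝ) ^ (s + 1))|) ≤
    1 / τ * ((s + 1) * Real.log Q + Real.log 2 - cH M (Yq M U Q) W) + τ * (2 * B ^ 2) * P.card := by
  classical
  obtain ⟨J, hJ⟩ : ∃ J : Ω → A × (ZMod Q × (Fin s → ZMod Q)), J = fun ω => (W ω, Yq M U Q ω) := ⟨_, rfl⟩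
  have hdiv : ∀ p ∈ P, p ∣ Q := by
    intro p hp
    rw [hQ]
    exact dvd_prod_of_mem _ hp
  obtain ⟨Y, hY⟩ : ∃ Y : A × (ZMod Q × (Fin s → ZMod Q)) → ℕ → (ℕ × (Fin s → ℕ)),
    Y = fun γ p => (γ.2.1.val % p, fun i => (γ.2.2 i).val % p) := ⟨_, rfl⟩
  have hYJ : ∀ ω, ∀ p ∈ P, Y (J ω) p = rv M U p ω := by
    intro ω p hp
    rw [hY, hJ]
    unfold rv Yq
    dsimp only
    refine Prod.ext ?_ ?_
    · dsimp only
      rw [ZMod.val_natCast, Nat.mod_mod_of_dvd _ (hdiv p hp)]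
    · dsimp only
      funext i
      rw [ZMod.val_natCast, Nat.mod_mod_of_dvd _ (hdiv p hp)]
  have key := Pool.Agent.W721.ECV.dv (A × (ZMod Q × (Fin s → ZMod Q))) A (ℕ × (Fin s → ℕ)) univ
    (pr M J) Prod.fst P Y (fun p => Rp s p)
    (fun _ => 1) ζ B τ (fun γ _ => pr_nonneg M J γ) (fun γ _ p hp => by
      rw [hY]
      unfold Rp
      rw [mem_product, mem_range, Fintype.mem_piFinset]
      exact ⟨Nat.mod_lt _ (hP p hp).pos, fun i => mem_range.2 (Nat.mod_lt _ (hP p hp).pos)⟩) hζ hτ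
  rw [← push M J (fun γ => |∑ p ∈ P, (1 : ℝ) * (ζ p γ.1 (Y γ p) -
    (∑ y ∈ Rp s p, ζ p γ.1 y) / ((Rp s p).card : ℝ))|), pr_sum] at key
  have e1 : M.m (fun ω => |∑ p ∈ P, (ζ p (W ω) (rv M U p ω) -
      (∑ y ∈ Rp s p, ζ p (W ω) y) / (p : ℝ) ^ (s + 1))|) =
      M.m (fun ω => |∑ p ∈ P, (1 : ℝ) * (ζ p (J ω).1 (Y (J ω) p) -
        (∑ y ∈ Rp s p, ζ p (J ω).1 y) / ((Rp s p).card : ℝ))|) := by
    congr 1
    funext ω
    congr 1
    refine sum_congr rfl fun p hp => ?_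
    rw [hYJ ω p hp, one_mul, card_Rp, hJ]
    push_cast
    rfl
  rw [e1]
  refine key.trans ?_
  have e2 : ∑ p ∈ P, Real.log ((Rp s p).card : ℝ) = (s + 1) * Real.log Q := by
    rw [hQ]
    push_cast
    rw [Real.log_prod (fun p hp => by exact_mod_cast (hP p hp).ne_zero), mul_sum]
    refine sum_congr rfl fun p _ => ?_
    rw [card_Rp]
    push_cast
    rw [Real.log_pow]
    push_cast
    ring
  have e3 : cH M (Yq M U Q) W ≤ cE univ (pr M J) (rsf P Y) Prod.fst := by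
    have h1 : cH M (Yq M U Q) W = cE univ (pr M J) Prod.snd Prod.fst := by
      rw [← cH_eq M J Prod.snd Prod.fst, hJ]
    rw [h1]
    obtain ⟨-, -, -, h2, -⟩ := Pool.Agent.W212.EC.ce (A × (ZMod Q × (Fin s → ZMod Q)))
      (ℕ → (ℕ × (Fin s → ℕ))) A (ZMod Q × (Fin s → ZMod Q)) univ (pr M J) (rsf P Y) Prod.fst
      Prod.snd (fun γ _ => pr_nonneg M J γ)
    refine h2 (fun f _ => if h : ∃ z : ZMod Q × (Fin s → ZMod Q), ∀ p ∈ P,
      ((z.1.val % p, fun i => (z.2 i).val % p) : ℕ × (Fin s → ℕ)) = f p then h.choose else 0)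
      fun γ _ => ?_
    have h3 : ∀ p ∈ P, rsf P Y γ p = (γ.2.1.val % p, fun i => (γ.2.2 i).val % p) := by
      intro p hp
      unfold Pool.Agent.W78.EC.rsf
      rw [if_pos hp, hY]
    have h4 : ∃ z : ZMod Q × (Fin s → ZMod Q), ∀ p ∈ P,
        ((z.1.val % p, fun i => (z.2 i).val % p) : ℕ × (Fin s → ℕ)) = rsf P Y γ p :=
      ⟨γ.2, fun p hp => (h3 p hp).symm⟩
    rw [dif_pos h4]
    have h5 : ∀ p ∈ P, (γ.2.1.val % p = h4.choose.1.val % p) ∧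
        ∀ i, (γ.2.2 i).val % p = (h4.choose.2 i).val % p := by
      intro p hp
      have h6 := (h4.choose_spec p hp).trans (h3 p hp)
      obtain ⟨h7, h8⟩ := Prod.ext_iff.1 h6
      exact ⟨h7.symm, fun i => (congrFun h8 i).symm⟩
    refine Prod.ext ?_ ?_
    · exact crt hP hQ _ _ fun p hp => (h5 p hp).1
    · funext i
      exact crt hP hQ _ _ fun p hp => (h5 p hp).2 i
  have e4 : 1 / τ * (1 * (∑ p ∈ P, Real.log ((Rp s p).card : ℝ) + Real.log 2) -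
      cE univ (pr M J) (rsf P Y) Prod.fst) ≤
      1 / τ * ((s + 1) * Real.log Q + Real.log 2 - cH M (Yq M U Q) W) := by
    refine mul_le_mul_of_nonneg_left ?_ (by positivity)
    rw [e2]
    linarith
  have e5 : (1 : ℝ) * (τ * (2 * B ^ 2) * ∑ _p ∈ P, (1 : ℝ) ^ 2) = τ * (2 * B ^ 2) * P.card := by
    simp
  rw [e5]
  linarith

end Pool.Agent.Q270.EV
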