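import Pool.Agent.Q270.EV.Tube

/-!
Project EV (helper270): families of dilates.
-/

set_option autoImplicit false

namespace Pool.Agent.Q270.EV

open Finset Filter Pool.Agent.Q270.EA Pool.Agent.Q270.EC
open Pool.Agent.H373R2.T7 (energy exI)
open Pool.Agent.TH823.MRS (ExpoSmall)

variable {s : ℕ}

/-- the product along a dilated line -/
noncomputable def Ff {k : ℕ} (f : ℕ → ℂ) (g : Fin k → ℕ → ℂ) (a0 : ℤ × (Fin s → ℤ)) (h0 : ℤ)
    (a : Fin k → ℤ × (Fin s → ℤ)) (h : Fin k → ℤ) (p : ℕ) (n : ℤ) (X : Fin s → ℤ) : ℂ :=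
  f ((lin a0 n X + p * h0).toNat) * ∏ i, g i ((lin (a i) n X + p * h i).toNat)

lemma norm_Ff {k : ℕ} (f : ℕ → ℂ) (g : Fin k → ℕ → ℂ) (a0 : ℤ × (Fin s → ℤ)) (h0 : ℤ)
    (a : Fin k → ℤ × (Fin s → ℤ)) (h : Fin k → ℤ) (hf : ∀ n, ‖f n‖ ≤ 1) (hg : ∀ i n, ‖g i n‖ ≤ 1)
    (p : ℕ) (n : ℤ) (X : Fin s → ℤ) : ‖Ff f g a0 h0 a h p n X‖ ≤ 1 := by
  unfold Ff
  rw [norm_mul, norm_prod]
  exact mul_le_one₀ (hf _) (prod_nonneg fun _ _ => norm_nonneg _)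
    (prod_le_one (fun _ _ => norm_nonneg _) fun i _ => hg _ _)

lemma Ff_shift {k : ℕ} (f : ℕ → ℂ) (g : Fin k → ℕ → ℂ) (a0 : ℤ × (Fin s → ℤ)) (h0 : ℤ)
    (a : Fin k → ℤ × (Fin s → ℤ)) (h : Fin k → ℤ) (D : ℕ) (y0 : ℤ) (y : Fin s → ℤ)
    (hv : ∀ i, lin (a i) y0 y + D * h i = 0) (q τ : ℕ) (n : ℤ) (X : Fin s → ℤ) :
    Ff f g a0 h0 a h (q + D * τ) (n + τ * y0) (X + fun i => τ * y i) =
      (∏ i, g i ((lin (a i) n X + q * h i).toNat)) *
        f ((lin a0 n X + q * h0 + τ * (lin a0 y0 y + D * h0)).toNat) := by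
  unfold Ff
  rw [mul_comm]
  congr 1
  · refine prod_congr rfl fun i _ => ?_
    congr 2
    rw [lin_add, lin_smul]
    have := hv i
    push_cast
    linear_combination (τ : ℤ) * this
  · congr 2
    rw [lin_add, lin_smul]
    push_cast
    ring

/-- the energy is invariant under dilations -/
lemma energy_mul (x : ℕ) (σ : ℕ → ℤ) (Δ : ℤ) (hΔ : Δ ≠ 0) :
    energy 2 x (fun m => σ m * Δ) = energy 2 x σ := by
  unfold energy
  congr 1
  refine filter_congr fun q _ => ?_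
  rw [← sum_mul, ← sum_mul]
  exact ⟨fun h => mul_right_cancel₀ hΔ h, fun h => by rw [h]⟩

/-- comparison of energies -/
lemma energy_sub (x x' : ℕ) (σ σ' : ℕ → ℤ) (e : ℕ → ℕ) (he : ∀ m ∈ Icc 1 x, e m ∈ Icc 1 x')
    (hinj : ∀ m ∈ Icc 1 x, ∀ m' ∈ Icc 1 x, e m = e m' → m = m')
    (h : ∀ m₁ ∈ Icc 1 x, ∀ m₂ ∈ Icc 1 x, ∀ m₃ ∈ Icc 1 x, ∀ m₄ ∈ Icc 1 x, σ m₁ + σ m₂ = σ m₃ + σ m₄ →
      σ' (e m₁) + σ' (e m₂) = σ' (e m₃) + σ' (e m₄)) : energy 2 x σ ≤ energy 2 x' σ' := by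
  unfold energy
  refine card_le_card_of_injOn (fun q => (fun i => e (q.1 i), fun i => e (q.2 i))) ?_ ?_
  · intro q hq
    rw [mem_coe, mem_filter, mem_product, Fintype.mem_piFinset, Fintype.mem_piFinset] at hq ⊢
    obtain ⟨⟨h1, h2⟩, h3⟩ := hq
    refine ⟨⟨fun i => he _ (h1 i), fun i => he _ (h2 i)⟩, ?_⟩
    rw [Fin.sum_univ_two, Fin.sum_univ_two] at h3 ⊢
    exact h _ (h1 0) _ (h1 1) _ (h2 0) _ (h2 1) h3
  · intro q hq q' hq' heq
    rw [mem_coe, mem_filter, mem_product, Fintype.mem_piFinset, Fintype.mem_piFinset] at hq hq'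
    obtain ⟨h1, h2⟩ := Prod.mk.inj heq
    refine Prod.ext (funext fun i => ?_) (funext fun i => ?_)
    · exact hinj _ (hq.1.1 i) _ (hq'.1.1 i) (congrFun h1 i)
    · exact hinj _ (hq.1.2 i) _ (hq'.1.2 i) (congrFun h2 i)

/-- the energy of an injective family -/
lemma energy_inj (x : ℕ) (σ : ℕ → ℤ) (hσ : ∀ m ∈ Icc 1 x, ∀ m' ∈ Icc 1 x, σ m = σ m' → m = m') :
    energy 2 x σ ≤ x ^ 3 := by
  unfold energy
  have h1 : ((Fintype.piFinset fun _ : Fin 2 => Icc 1 x) ×ˢ Icc 1 x).card = x ^ 3 := by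
    rw [card_product, Fintype.card_piFinset]
    simp
    ring
  rw [← h1]
  refine card_le_card_of_injOn (fun q => (q.1, q.2 0)) ?_ ?_
  · intro q hq
    rw [mem_coe, mem_filter, mem_product] at hq
    rw [mem_coe, mem_product]
    exact ⟨hq.1.1, (Fintype.mem_piFinset.1 hq.1.2) 0⟩
  · intro q hq q' hq' heq
    rw [mem_coe, mem_filter, mem_product, Fintype.mem_piFinset, Fintype.mem_piFinset] at hq hq'
    obtain ⟨h1, h2⟩ := Prod.mk.inj heq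
    have h3 := hq.2
    have h4 := hq'.2
    rw [Fin.sum_univ_two, Fin.sum_univ_two] at h3 h4
    have h5 : q.2 1 = q'.2 1 := by
      refine hσ _ (hq.1.2 1) _ (hq'.1.2 1) ?_
      rw [h1] at h3
      rw [h2] at h3
      omega
    refine Prod.ext h1 (funext fun i => ?_)
    fin_cases i
    · exact h2
    · exact h5

/-- the estimate for a family of dilates -/
theorem fam (α β : Fin s → ℝ) {k : ℕ} (a0 : ℤ × (Fin s → ℤ)) (h0 : ℤ) (a : Fin k → ℤ × (Fin s → ℤ)) (h : Fin k → ℤ)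
    (hθ : 0 < (a0.1 : ℝ) + ∑ i, a0.2 i * α i) (D : ℕ) (y0 : ℤ) (y : Fin s → ℤ)
    (hv : ∀ i, lin (a i) y0 y + D * h i = 0) (hΔ : lin a0 y0 y + D * h0 ≠ 0)
    (f : ℕ → ℂ) (hb : ∀ n, ‖f n‖ ≤ 1) (hf0 : f 0 = 0) (hE : ExpoSmall f) (C : ℝ) (hC : 0 ≤ C) (ε : ℝ) (hε : 0 < ε)
    (E1 : ℕ) (hE1 : ∀ i, |(y i : ℝ)| + |α i| * |(y0 : ℝ)| + |β i| * D + 3 ≤ E1) (hE1D : D ≤ E1) :
    ∃ H₀ : ℕ, ∀ H : ℕ, H₀ ≤ H → ∀ Q : ℕ, ∃ N₀ : ℕ, ∀ N : ℕ, N₀ ≤ N → ∀ q : ℕ, 1 ≤ q → q ≤ Q →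
      E1 * (H + 1) ≤ q → ∀ (x : ℕ) (τ : ℕ → ℕ), (∀ m, τ m ≤ H) →
      (energy 2 x (fun m => (τ m : ℤ)) : ℝ) * H ≤ C * (x : ℝ) ^ 4 →
      ∀ c : ℕ → ℂ, (∀ m, ‖c m‖ ≤ 1) → ∀ g : Fin k → ℕ → ℂ, (∀ i n, ‖g i n‖ ≤ 1) →
      ‖∑ m ∈ Icc 1 x, c m * tub α β N (q + D * τ m) (Ff f g a0 h0 a h (q + D * τ m))‖ ≤
        (2 * ε + 6 * s * (E1 * (H + 1)) / q) * x := by
  classical
  obtain ⟨Δ, hΔd⟩ : ∃ Δ, Δ = lin a0 y0 y + D * h0 := ⟨_, rfl⟩
  rw [← hΔd] at hΔ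
  have hΔ1 : 1 ≤ Δ.natAbs := by omega
  obtain ⟨H₀, hH₀⟩ := tub_l1 α β a0 h0 hθ f hb hf0 hE (C * Δ.natAbs) (by positivity) ε hε
  refine ⟨H₀, fun H hH Q => ?_⟩
  obtain ⟨N₁, hN₁⟩ := hH₀ (H * Δ.natAbs) (hH.trans (Nat.le_mul_of_pos_right _ (by omega))) Q
  obtain ⟨N₂, hN₂⟩ := exists_nat_ge (2 * (H * |(y0 : ℝ)|) / ε)
  refine ⟨max N₁ (max N₂ 1), fun N hN q hq1 hqQ hqE x τ hτ hen c hc g hg => ?_⟩
  have hN1 : N₁ ≤ N := (le_max_left _ _).trans hN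
  have hN2 : N₂ ≤ N := (le_max_left _ _).trans ((le_max_right _ _).trans hN)
  have hN11 : 1 ≤ N := (le_max_right _ _).trans ((le_max_right _ _).trans hN)
  have hN0 : (0 : ℝ) < N := by exact_mod_cast hN11
  obtain ⟨E, hEd⟩ : ∃ E, E = E1 * (H + 1) := ⟨_, rfl⟩
  rw [← hEd] at hqE
  -- each term
  have hterm : ∀ m ∈ Icc 1 x, ‖c m * tub α β N (q + D * τ m) (Ff f g a0 h0 a h (q + D * τ m)) -
      c m * tub α β N q (fun n X => (∏ i, g i ((lin (a i) n X + q * h i).toNat)) *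
        f ((lin a0 n X + q * h0 + τ m * Δ).toNat))‖ ≤ 6 * s * E / q + ε := by
    intro m _
    rw [← mul_sub, norm_mul]
    refine (mul_le_of_le_one_left (norm_nonneg _) (hc m)).trans ?_
    have h1 := tube_cmp α β N q (q + D * τ m) E hN11 hq1 (by omega) (by
      have : D * τ m ≤ E1 * (H + 1) := Nat.mul_le_mul hE1D ((hτ m).trans (by omega))
      omega) hqE (τ m * y0) (fun i => τ m * y i) (fun i => by
        have e1 : ((τ m : ℝ)) ≤ H := by exact_mod_cast hτ m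
        have e2 := hE1 i
        have e3 : (0 : ℝ) ≤ τ m := by positivity
        rw [hEd]
        push_cast
        rw [abs_mul, abs_mul, abs_of_nonneg e3]
        have e4 : (τ m : ℝ) * |(y i : ℝ)| + |α i| * (τ m * |(y0 : ℝ)|) + |β i| * ((q : ℝ) + D * τ m - q) + 3 =
            τ m * (|(y i : ℝ)| + |α i| * |(y0 : ℝ)| + |β i| * D) + 3 := by ring
        rw [e4]
        have e5 : (0 : ℝ) ≤ |(y i : ℝ)| + |α i| * |(y0 : ℝ)| + |β i| * D := by positivity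
        have e6 : (τ m : ℝ) * (|(y i : ℝ)| + |α i| * |(y0 : ℝ)| + |β i| * D) ≤
            H * (|(y i : ℝ)| + |α i| * |(y0 : ℝ)| + |β i| * D) := by gcongr
        have e7 : (H : ℝ) * (|(y i : ℝ)| + |α i| * |(y0 : ℝ)| + |β i| * D) ≤ H * E1 := by
          have : (0 : ℝ) ≤ H := by positivity
          gcongr
          linarith
        have e8 : (3 : ℝ) ≤ E1 := by linarith
        nlinarith)
      (Ff f g a0 h0 a h (q + D * τ m)) (norm_Ff f g a0 h0 a h hb hg _)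
    have h2 : (fun (n : ℤ) (X : Fin s → ℤ) => Ff f g a0 h0 a h (q + D * τ m) (n + (τ m : ℤ) * y0)
        (X + fun i => (τ m : ℤ) * y i)) = fun (n : ℤ) (X : Fin s → ℤ) =>
        (∏ i, g i ((lin (a i) n X + q * h i).toNat)) * f ((lin a0 n X + q * h0 + τ m * Δ).toNat) := by
      funext n X
      rw [Ff_shift f g a0 h0 a h D y0 y hv, hΔd]
    rw [h2] at h1
    refine h1.trans (add_le_add_right ?_ _)
    rw [div_le_iff₀ hN0]
    have e1 : |(((τ m : ℤ) * y0 : ℤ) : ℝ)| ≤ H * |(y0 : ℝ)| := by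
      push_cast
      rw [abs_mul, abs_of_nonneg (by positivity)]
      have e1 : ((τ m : ℝ)) ≤ H := by exact_mod_cast hτ m
      gcongr
    have e2 : (N₂ : ℝ) ≤ N := by exact_mod_cast hN2
    rw [div_le_iff₀ hε] at hN₂
    nlinarith
  -- the sum
  have hsum : ‖∑ m ∈ Icc 1 x, c m * tub α β N q (fun n X => (∏ i, g i ((lin (a i) n X + q * h i).toNat)) *
        f ((lin a0 n X + q * h0 + τ m * Δ).toNat))‖ ≤ ε * x := by
    have h1 := hN₁ N hN1 q hq1 hqQ x (fun m => τ m * Δ) (fun m _ => by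
      have e1 : |(τ m : ℤ) * Δ| = τ m * Δ.natAbs := by rw [abs_mul, Nat.abs_cast, Int.abs_eq_natAbs]
      rw [e1]
      exact_mod_cast Nat.mul_le_mul_right _ (hτ m)) (by
      rw [energy_mul x (fun m => (τ m : ℤ)) Δ hΔ]
      push_cast
      have : (0 : ℝ) ≤ (Δ.natAbs : ℝ) := by positivity
      calc (energy 2 x (fun m => (τ m : ℤ)) : ℝ) * (H * (Δ.natAbs : ℝ)) =
            ((energy 2 x (fun m => (τ m : ℤ)) : ℝ) * H) * (Δ.natAbs : ℝ) := by ring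
        _ ≤ (C * (x : ℝ) ^ 4) * (Δ.natAbs : ℝ) := by gcongr
        _ = _ := by ring) c hc (fun n X => ∏ i, g i ((lin (a i) n X + q * h i).toNat)) (fun n X => by
      rw [norm_prod]
      exact prod_le_one (fun _ _ => norm_nonneg _) fun i _ => hg _ _)
    refine le_trans (le_of_eq ?_) h1
    congr 1
    unfold tub bav
    simp only [mul_sum, sum_div]
    rw [sum_comm]
    refine sum_congr rfl fun n _ => ?_
    rw [sum_comm]
    refine sum_congr rfl fun X _ => sum_congr rfl fun m _ => ?_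
    ring
  have e0 : ∑ m ∈ Icc 1 x, c m * tub α β N (q + D * τ m) (Ff f g a0 h0 a h (q + D * τ m)) =
      ∑ m ∈ Icc 1 x, (c m * tub α β N (q + D * τ m) (Ff f g a0 h0 a h (q + D * τ m)) -
        c m * tub α β N q (fun n X => (∏ i, g i ((lin (a i) n X + q * h i).toNat)) *
          f ((lin a0 n X + q * h0 + τ m * Δ).toNat))) +
      ∑ m ∈ Icc 1 x, c m * tub α β N q (fun n X => (∏ i, g i ((lin (a i) n X + q * h i).toNat)) *
        f ((lin a0 n X + q * h0 + τ m * Δ).toNat)) := by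
    rw [← sum_add_distrib]
    exact sum_congr rfl fun m _ => by ring
  rw [e0]
  refine (norm_add_le _ _).trans ?_
  have e1 : ‖∑ m ∈ Icc 1 x, (c m * tub α β N (q + D * τ m) (Ff f g a0 h0 a h (q + D * τ m)) -
        c m * tub α β N q (fun n X => (∏ i, g i ((lin (a i) n X + q * h i).toNat)) *
          f ((lin a0 n X + q * h0 + τ m * Δ).toNat)))‖ ≤ x * (6 * s * E / q + ε) := by
    refine (norm_sum_le _ _).trans ((sum_le_sum hterm).trans ?_)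
    rw [sum_const, Nat.card_Icc, Nat.add_sub_cancel, nsmul_eq_mul]
  rw [hEd] at e1
  push_cast at e1
  linarith

end Pool.Agent.Q270.EV
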