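import Pool.Agent.Q270.EV.Seq
import Pool.Agent.Q270.EH.Fin

/-!
Project EV (helper270): the uniform statement, and the reduction of the general statement.
-/

set_option autoImplicit false

namespace Pool.Agent.Q270.EV

open Finset Filter Topology Pool.Agent.Q270.EA Pool.Agent.Q270.EB Pool.Agent.Q270.EC Pool.Agent.Q119.EA
open Pool.Agent.Q270.EH (red2 EX_const)
open Pool.Agent.TH823.MRS (ExpoSmall)
open Pool.Agent.H373R2.T7 (liR)

variable {s k : ℕ}

/-- the uniform statement -/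
theorem ev_unif (G : Dat s k) (f : ℕ → ℂ) (hf : ∀ n, f n = 0 ∨ f n = 1 ∨ f n = -1) (hf0 : f 0 = 0)
    (hfp : ∀ p n : ℕ, p.Prime → 1 ≤ n → ¬ p ∣ n → f (p * n) = - f n) (hEs : ExpoSmall f)
    (ε : ℝ) (hε : 0 < ε) : ∃ X₀ : ℕ, ∀ X : ℕ, X₀ ≤ X → ∀ g : Fin k → ℕ → ℂ, (∀ j, BM (g j)) →
      EX X (fun N _ => ‖AvN N (phiV G f g)‖) ≤ ε := by
  classical
  by_contra hcon
  push Not at hcon
  choose X hX g hg hgX using hcon
  have hXt : Tendsto X atTop atTop := tendsto_atTop_mono hX tendsto_id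
  have key : ∀ i, ∃ g' : Fin k → ℕ → ℂ, (∀ j, BM (g' j)) ∧ (∀ j n, 1 ≤ n → ‖g' j n‖ = 1) ∧
      EX (X i) (fun N _ => ‖AvN N (phiV G f (g i))‖) ≤ EX (X i) (fun N _ => ‖AvN N (phiV G f g')‖) := by
    intro i
    obtain ⟨g', h1, h2, h3⟩ := red2 ℕ k (g i) (fun j n => (wj G j n).toNat) (Icc 1 (X i))
      (fun N => (1 / (N : ℝ)) * (1 / (N : ℝ)))
      (fun N n => if n ≤ N then f (w0 G n).toNat else 0) (X i) (hg i)
      (fun N _ => by positivity)
    refine ⟨g', h1, h2, ?_⟩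
    have e : ∀ g : Fin k → ℕ → ℂ, EX (X i) (fun N _ => ‖AvN N (phiV G f g)‖) =
        (∑ N ∈ Icc 1 (X i), (1 / (N : ℝ)) * (1 / (N : ℝ)) *
          ‖∑ n ∈ Icc 1 (X i), (if n ≤ N then f (w0 G n).toNat else 0) *
            ∏ j, g j (wj G j n).toNat‖) / ∑ N ∈ Icc 1 (X i), 1 / (N : ℝ) := by
      intro g
      unfold EX
      congr 1
      refine sum_congr rfl fun N hN => ?_
      have hN1 : (0 : ℝ) < N := by exact_mod_cast (mem_Icc.1 hN).1
      have hNX := (mem_Icc.1 hN).2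
      rw [sum_const, Nat.card_Icc, Nat.add_sub_cancel, nsmul_eq_mul]
      have e1 : (1 / (N : ℝ)) * (N * ‖AvN N (phiV G f g)‖) = ‖AvN N (phiV G f g)‖ := by field_simp
      rw [e1, mul_assoc]
      congr 1
      unfold AvN
      rw [norm_mul, norm_div, norm_one, Complex.norm_natCast]
      congr 2
      have e2 : Icc 1 N = (Icc 1 (X i)).filter (fun n => n ≤ N) := by
        ext n
        rw [mem_filter, mem_Icc, mem_Icc]
        omega
      rw [e2, sum_filter]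
      refine sum_congr rfl fun n _ => ?_
      rw [phiV_eq]
      split_ifs <;> simp
    rw [e, e]
    exact div_le_div_of_nonneg_right h3 (sum_nonneg fun N _ => by positivity)
  choose g' hg'1 hg'2 hg'3 using key
  refine evseq G f hf hf0 hfp hEs X hXt g' (fun i j n => (hg'1 i j).1 n)
    (fun i j p hp => hg'2 i j p hp.one_le) (fun i j p n hp hn => ?_) ε hε
    (fun i => ((hgX i).le).trans (hg'3 i))
  exact (hg'1 i j).2.2 p n ((Nat.Prime.coprime_iff_not_dvd hp).2 hn)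

/-- a form along the positions -/
noncomputable def fv (α β : Fin s → ℝ) (a : ℤ × (Fin s → ℤ)) (h : ℤ) (n : ℕ) : ℤ := lin a n (Uz α β n) + h

/-- what is used about `f` -/
structure Fok' (f : ℕ → ℂ) : Prop where
  val : ∀ n, f n = 0 ∨ f n = 1 ∨ f n = -1
  neg : ∀ p n : ℕ, p.Prime → 1 ≤ n → ¬ p ∣ n → f (p * n) = - f n
  expo : ExpoSmall f

lemma Fok'.le {f : ℕ → ℂ} (hf : Fok' f) (n : ℕ) : ‖f n‖ ≤ 1 := by
  rcases hf.val n with h | h | h <;> rw [h] <;> simp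

/-- the general statement, with a vector that kills the companions -/
theorem ev_gen (α β : Fin s → ℝ) (hα : Ind α) (a0 : ℤ × (Fin s → ℤ)) (h0 : ℤ) (a : Fin k → ℤ × (Fin s → ℤ)) (h : Fin k → ℤ)
    (hpos0 : 0 < (a0.1 : ℝ) + ∑ i, a0.2 i * α i) (hpos : ∀ j, 0 < ((a j).1 : ℝ) + ∑ i, (a j).2 i * α i)
    (D : ℕ) (y0 : ℤ) (y : Fin s → ℤ) (hv : ∀ i, lin (a i) y0 y + D * h i = 0) (hΔ : lin a0 y0 y + D * h0 ≠ 0)
    (f : ℕ → ℂ) (hf : Fok' f) (ε : ℝ) (hε : 0 < ε) :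
    ∃ X₀ : ℕ, ∀ X : ℕ, X₀ ≤ X → ∀ g : Fin k → ℕ → ℂ, (∀ j, BM (g j)) →
      ∑ N ∈ Icc 1 X, (1 / (N : ℝ)) * ‖(1 / (N : ℂ)) * ∑ n ∈ Icc 1 N,
        f (fv α β a0 h0 n).toNat * ∏ j, g j (fv α β (a j) (h j) n).toNat‖ ≤ ε * Real.log X := by
  classical
  -- make the slopes and offsets positive
  obtain ⟨K, hK⟩ : ∃ K : Fin s → ℕ, ∀ i, 0 < α i + K i := by
    choose K hK using fun i => exists_nat_gt (-α i)
    exact ⟨K, fun i => by linarith [hK i]⟩
  obtain ⟨K', hK'⟩ : ∃ K' : Fin s → ℕ, ∀ i, 0 ≤ β i + K' i := by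
    choose K' hK' using fun i => exists_nat_ge (-β i)
    exact ⟨K', fun i => by linarith [hK' i]⟩
  obtain ⟨α', hα'⟩ : ∃ α' : Fin s → ℝ, α' = fun i => α i + K i := ⟨_, rfl⟩
  obtain ⟨β', hβ'⟩ : ∃ β' : Fin s → ℝ, β' = fun i => β i + K' i := ⟨_, rfl⟩
  obtain ⟨tr, htr⟩ : ∃ tr : ℤ × (Fin s → ℤ) → ℤ × (Fin s → ℤ), tr = fun (a : ℤ × (Fin s → ℤ)) => (a.1 - ∑ i, a.2 i * K i, a.2) := ⟨_, rfl⟩
  obtain ⟨th, hth⟩ : ∃ th : ℤ × (Fin s → ℤ) → ℤ → ℤ, th = fun (a : ℤ × (Fin s → ℤ)) (h : ℤ) => h - ∑ i, a.2 i * K' i :=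
    ⟨_, rfl⟩
  have hUz : ∀ n : ℤ, ∀ i, Uz α' β' n i = Uz α β n i + K i * n + K' i := by
    intro n i
    unfold Uz
    rw [hα', hβ']
    dsimp only
    have e1 : (α i + K i) * (n : ℝ) + (β i + K' i) = (α i * n + β i) + ((K i * n + K' i : ℤ) : ℝ) := by
      push_cast
      ring
    rw [e1, Int.floor_add_intCast]
    ring
  have hfv : ∀ (a : ℤ × (Fin s → ℤ)) (h : ℤ) (n : ℕ), fv α' β' (tr a) (th a h) n = fv α β a h n := by
    intro a h n
    unfold fv lin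
    rw [htr, hth]
    dsimp only
    have e1 : ∑ i, a.2 i * Uz α' β' n i = ∑ i, a.2 i * Uz α β n i + (∑ i, a.2 i * K i) * n + ∑ i, a.2 i * K' i := by
      rw [sum_mul, ← sum_add_distrib, ← sum_add_distrib]
      refine sum_congr rfl fun i _ => ?_
      rw [hUz]
      ring
    rw [e1]
    ring
  have hslope : ∀ a : ℤ × (Fin s → ℤ), ((tr a).1 : ℝ) + ∑ i, (tr a).2 i * α' i = (a.1 : ℝ) + ∑ i, a.2 i * α i := by
    intro a
    rw [htr, hα']
    dsimp only
    push_cast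
    simp only [mul_add, sum_add_distrib]
    ring
  have hkill : ∀ (a : ℤ × (Fin s → ℤ)) (h : ℤ), lin (tr a) y0 (fun i => y i + K i * y0 + K' i * D) + D * th a h =
      lin a y0 y + D * h := by
    intro a h
    unfold lin
    rw [htr, hth]
    dsimp only
    have e1 : ∑ i, a.2 i * (y i + K i * y0 + K' i * D) = ∑ i, a.2 i * y i + (∑ i, a.2 i * K i) * y0 +
        (∑ i, a.2 i * K' i) * D := by
      rw [sum_mul, sum_mul, ← sum_add_distrib, ← sum_add_distrib]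
      exact sum_congr rfl fun i _ => by ring
    rw [e1]
    ring
  obtain ⟨G, hG⟩ : ∃ G : Dat s k, G.α = α' ∧ G.β = β' ∧ G.a0 = tr a0 ∧ G.h0 = th a0 h0 ∧
      (∀ j, G.a j = tr (a j)) ∧ (∀ j, G.h j = th (a j) (h j)) :=
    ⟨{ α := α'
       β := β'
       a0 := tr a0
       h0 := th a0 h0
       a := fun j => tr (a j)
       h := fun j => th (a j) (h j)
       D := D
       y0 := y0
       y := fun i => y i + K i * y0 + K' i * D
       α0 := fun i => by rw [hα']; exact hK i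
       β0 := fun i => by rw [hβ']; exact hK' i
       ind := fun c d hcd => by
         refine hα c (d - ∑ i, c i * K i) ?_
         rw [hα'] at hcd
         push_cast
         rw [← hcd]
         simp only [mul_add, sum_add_distrib]
         ring
       pos0 := by rw [hslope]; exact hpos0
       pos := fun j => by rw [hslope]; exact hpos j
       kill := fun j => by rw [hkill]; exact hv j
       nkill := by rw [hkill]; exact hΔ }, rfl, rfl, rfl, rfl, fun _ => rfl, fun _ => rfl⟩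
  obtain ⟨hG1, hG2, hG3, hG4, hG5, hG6⟩ := hG
  have hw0 : ∀ n, w0 G n = fv α β a0 h0 n := by
    intro n
    rw [← hfv]
    unfold w0 fv
    rw [hG1, hG2, hG3, hG4]
  have hwj : ∀ j n, wj G j n = fv α β (a j) (h j) n := by
    intro j n
    rw [← hfv]
    unfold wj fv
    rw [hG1, hG2, hG5, hG6]
  -- the value at `0`
  obtain ⟨f', hf'⟩ : ∃ f' : ℕ → ℂ, f' = fun n => if n = 0 then 0 else f n := ⟨_, rfl⟩
  have hf'1 : ∀ n, 1 ≤ n → f' n = f n := fun n hn => by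
    rw [hf']
    dsimp only
    rw [if_neg (by omega)]
  have hf'0 : f' 0 = 0 := by rw [hf']; simp
  have hf'v : ∀ n, f' n = 0 ∨ f' n = 1 ∨ f' n = -1 := fun n => by
    rcases Nat.eq_zero_or_pos n with h | h
    · rw [h, hf'0]; simp
    · rw [hf'1 n h]; exact hf.val n
  have hf'b : ∀ n, ‖f' n‖ ≤ 1 := fun n => by
    rcases hf'v n with h | h | h <;> rw [h] <;> simp
  have hf'p : ∀ p n : ℕ, p.Prime → 1 ≤ n → ¬ p ∣ n → f' (p * n) = - f' n := by
    intro p n hp hn hpn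
    rw [hf'1 n hn, hf'1 _ (Nat.mul_pos hp.pos hn)]
    exact hf.neg p n hp hn hpn
  have hf'E : ExpoSmall f' := by
    intro ε' hε' A hA
    obtain ⟨H₀, X₀, hX⟩ := hf.expo ε' hε' A hA
    refine ⟨H₀, X₀, fun X hX1 H hH1 hH2 T hT1 hT2 hT3 α => ?_⟩
    refine le_trans (le_of_eq ?_) (hX X hX1 H hH1 hH2 T hT1 hT2 hT3 α)
    congr 1
    refine sum_congr rfl fun n hn => ?_
    rw [hf'1 n (mem_Icc.1 hn).1]
  obtain ⟨X₀, hX₀⟩ := ev_unif G f' hf'v hf'0 hf'p hf'E (ε / 4) (by positivity)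
  -- the form is positive from some point on
  obtain ⟨n₁, hn₁⟩ : ∃ n₁ : ℕ, ∀ n : ℕ, n₁ ≤ n → 1 ≤ fv α β a0 h0 n := by
    obtain ⟨n₁, hn₁⟩ := exists_nat_ge ((∑ i, |(a0.2 i : ℝ)| * (|β i| + 1) + |(h0 : ℝ)| + 1) /
      ((a0.1 : ℝ) + ∑ i, a0.2 i * α i))
    refine ⟨n₁, fun n hn => ?_⟩
    have h1 := abs_le.1 (lin_near α β a0 n)
    rw [div_le_iff₀ hpos0] at hn₁
    have h2 : (n₁ : ℝ) ≤ n := by exact_mod_cast hn
    have h3 := neg_abs_le (h0 : ℝ)
    have h4 : (1 : ℝ) ≤ ((fv α β a0 h0 n : ℤ) : ℝ) := by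
      unfold fv
      push_cast at h1 ⊢
      nlinarith [h1.1]
    exact_mod_cast h4
  obtain ⟨X₁, hX₁⟩ := exists_nat_ge (Real.exp (8 * n₁ / ε))
  refine ⟨max X₀ (max 3 X₁), fun X hX g hg => ?_⟩
  have h1 := hX₀ X ((le_max_left _ _).trans hX) g hg
  have hX3 : 3 ≤ X := (le_max_left _ _).trans ((le_max_right _ _).trans hX)
  have hX1 : X₁ ≤ X := (le_max_right _ _).trans ((le_max_right _ _).trans hX)
  have hXr0 : (0 : ℝ) < X := by
    have : 0 < X := by omega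
    exact_mod_cast this
  have hlog : 1 ≤ Real.log X := by
    rw [Real.le_log_iff_exp_le hXr0]
    have h3 : (3 : ℝ) ≤ X := by exact_mod_cast hX3
    have := Real.exp_one_lt_d9
    linarith
  have hlogn : 8 * n₁ / ε ≤ Real.log X := by
    rw [Real.le_log_iff_exp_le hXr0]
    have h3 : (X₁ : ℝ) ≤ X := by exact_mod_cast hX1
    linarith
  have h2 := EX_const X (fun N => ‖AvN N (phiV G f' g)‖)
  have h3 := sum_inv_le X
  have hS0 : 0 ≤ ∑ N ∈ Icc 1 X, 1 / (N : ℝ) := sum_nonneg fun _ _ => by positivity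
  -- comparison
  have hcmp : ∀ N ∈ Icc 1 X, (1 / (N : ℝ)) * ‖(1 / (N : ℂ)) * ∑ n ∈ Icc 1 N,
        f (fv α β a0 h0 n).toNat * ∏ j, g j (fv α β (a j) (h j) n).toNat‖ ≤
      (1 / (N : ℝ)) * ‖AvN N (phiV G f' g)‖ + (2 * n₁) * (1 / (N : ℝ) ^ 2) := by
    intro N hN
    have hN1 := (mem_Icc.1 hN).1
    have hN0 : (0 : ℝ) < N := by exact_mod_cast hN1
    have e1 : ‖∑ n ∈ Icc 1 N, f (fv α β a0 h0 n).toNat * ∏ j, g j (fv α β (a j) (h j) n).toNat -
        ∑ n ∈ Icc 1 N, phiV G f' g n‖ ≤ 2 * n₁ := by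
      rw [← sum_sub_distrib]
      have e2 : ∀ n ∈ Icc 1 N, ‖f (fv α β a0 h0 n).toNat * ∏ j, g j (fv α β (a j) (h j) n).toNat - phiV G f' g n‖ ≤
          if n < n₁ then 2 else 0 := by
        intro n _
        rw [phiV_eq, hw0]
        simp only [hwj]
        have e3 : ‖∏ j, g j (fv α β (a j) (h j) n).toNat‖ ≤ 1 := by
          rw [norm_prod]
          exact prod_le_one (fun _ _ => norm_nonneg _) fun j _ => (hg j).1 _
        split_ifs with hlt
        · rw [← sub_mul, norm_mul]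
          have e4 : ‖f (fv α β a0 h0 n).toNat - f' (fv α β a0 h0 n).toNat‖ ≤ 2 := by
            refine (norm_sub_le _ _).trans ?_
            linarith [hf.le (fv α β a0 h0 n).toNat, hf'b (fv α β a0 h0 n).toNat]
          calc _ ≤ 2 * (1 : ℝ) := mul_le_mul e4 e3 (norm_nonneg _) (by norm_num)
            _ = 2 := by norm_num
        · have e5 := hn₁ n (by omega)
          rw [hf'1 _ (by omega), sub_self, norm_zero]
      refine (norm_sum_le _ _).trans ((sum_le_sum e2).trans ?_)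
      rw [← sum_filter, sum_const, nsmul_eq_mul]
      have e6 : ((Icc 1 N).filter (fun n => n < n₁)).card ≤ n₁ := by
        have : (Icc 1 N).filter (fun n => n < n₁) ⊆ range n₁ := by
          intro n hn
          rw [mem_filter] at hn
          exact mem_range.2 hn.2
        have := card_le_card this
        rwa [card_range] at this
      have e7 : (((Icc 1 N).filter (fun n => n < n₁)).card : ℝ) ≤ n₁ := by exact_mod_cast e6
      linarith
    have e2 : ‖(1 / (N : ℂ))‖ = 1 / (N : ℝ) := by rw [norm_div, norm_one, Complex.norm_natCast]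
    have e3 : ‖∑ n ∈ Icc 1 N, f (fv α β a0 h0 n).toNat * ∏ j, g j (fv α β (a j) (h j) n).toNat‖ ≤
        ‖∑ n ∈ Icc 1 N, phiV G f' g n‖ + 2 * n₁ := by
      have := norm_sub_norm_le (∑ n ∈ Icc 1 N, f (fv α β a0 h0 n).toNat * ∏ j, g j (fv α β (a j) (h j) n).toNat)
        (∑ n ∈ Icc 1 N, phiV G f' g n)
      linarith
    unfold AvN
    rw [norm_mul, norm_mul, e2]
    calc (1 / (N : ℝ)) * (1 / (N : ℝ) * _) ≤ (1 / (N : ℝ)) * (1 / (N : ℝ) *
          (‖∑ n ∈ Icc 1 N, phiV G f' g n‖ + 2 * n₁)) := by gcongr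
      _ = _ := by ring
  refine (sum_le_sum hcmp).trans ?_
  rw [sum_add_distrib, ← mul_sum]
  have e1 : ∑ N ∈ Icc 1 X, (1 / (N : ℝ)) * ‖AvN N (phiV G f' g)‖ ≤ ε / 2 * Real.log X := by
    rw [← h2]
    calc EX X (fun N _ => ‖AvN N (phiV G f' g)‖) * ∑ N ∈ Icc 1 X, 1 / (N : ℝ) ≤
          ε / 4 * (1 + Real.log X) := by gcongr
      _ ≤ ε / 4 * (2 * Real.log X) := by gcongr; linarith
      _ = _ := by ring
  have e2 : ∑ N ∈ Icc 1 X, 1 / (N : ℝ) ^ 2 ≤ 2 := by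
    have h4 : ∀ X : ℕ, 1 ≤ X → ∑ N ∈ Icc 1 X, 1 / (N : ℝ) ^ 2 ≤ 2 - 1 / (X : ℝ) := by
      intro X hX
      induction X, hX using Nat.le_induction with
      | base => norm_num
      | succ X hX ih =>
        rw [sum_Icc_succ_top (by omega)]
        have hX0 : (0 : ℝ) < X := by exact_mod_cast hX
        have h5 : 1 / ((X + 1 : ℕ) : ℝ) ^ 2 ≤ 1 / X - 1 / ((X + 1 : ℕ) : ℝ) := by
          push_cast
          rw [div_sub_div _ _ (by positivity) (by positivity), div_le_div_iff₀ (by positivity) (by positivity)]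
          nlinarith
        linarith
    refine (h4 X (by omega)).trans ?_
    have : 0 < 1 / (X : ℝ) := by positivity
    linarith
  have e3 : 2 * (n₁ : ℝ) * ∑ N ∈ Icc 1 X, 1 / (N : ℝ) ^ 2 ≤ 2 * n₁ * 2 := by gcongr
  have e4 : 2 * (n₁ : ℝ) * 2 ≤ ε / 2 * Real.log X := by
    rw [div_le_iff₀ hε] at hlogn
    linarith
  linarith

end Pool.Agent.Q270.EV
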