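import Pool.Agent.Q270.EV.Ind

/-!
Project EV (helper270): decoupling of the residues of the position and of the further positions.
Adapted from `Pool/Agent/Q270/EH/Dec.lean`.
-/

set_option autoImplicit false

namespace Pool.Agent.Q270.EV

open Finset Filter Pool.Agent.Q270.EA Pool.Agent.Q270.EC

/-- the vectors of residues -/
def Rs (s p : ℕ) : Finset (Fin s → ℕ) := Fintype.piFinset (fun _ : Fin s => range p)

lemma mem_Rs {s p : ℕ} {r : Fin s → ℕ} : r ∈ Rs s p ↔ ∀ i, r i < p := by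
  unfold Rs
  rw [Fintype.mem_piFinset]
  simp only [mem_range]

lemma card_Rs (s p : ℕ) : (Rs s p).card = p ^ s := by
  unfold Rs
  rw [Fintype.card_piFinset]
  simp only [card_range, prod_const, card_univ, Fintype.card_fin]

/-- translation of the residues -/
lemma sum_shift {s p : ℕ} (hp : 1 ≤ p) (d : Fin s → ℕ) (F : (Fin s → ℕ) → ℂ) :
    ∑ r ∈ Rs s p, F (fun i => (r i + d i) % p) = ∑ r ∈ Rs s p, F r := by
  have hinj : Set.InjOn (fun (r : Fin s → ℕ) => (fun i => (r i + d i) % p : Fin s → ℕ)) (Rs s p : Set (Fin s → ℕ)) := by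
    intro r hr r' hr' h
    rw [mem_coe, mem_Rs] at hr hr'
    funext i
    have h1 : (r i + d i) % p = (r' i + d i) % p := congrFun h i
    have h2 : r i ≡ r' i [MOD p] := Nat.ModEq.add_right_cancel' (d i) h1
    have h3 : r i % p = r' i % p := h2
    rwa [Nat.mod_eq_of_lt (hr i), Nat.mod_eq_of_lt (hr' i)] at h3
  have himg : (Rs s p).image (fun (r : Fin s → ℕ) => (fun i => (r i + d i) % p : Fin s → ℕ)) = Rs s p := by
    refine eq_of_subset_of_card_le (fun r hr => ?_) ?_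
    · obtain ⟨r', -, rfl⟩ := mem_image.1 hr
      rw [mem_Rs]
      exact fun i => Nat.mod_lt _ hp
    · rw [card_image_of_injOn hinj]
  conv_rhs => rw [← himg]
  rw [sum_image hinj]

/-- GOOD4: at a good scale the residues can be replaced by independent residues -/
theorem good4 {Ω A : Type} [Fintype A] (M : Sys Ω) {s : ℕ} (a : Ω → A) (U : Ω → Fin s → ℕ)
    (cc : A → Fin s → ℕ) (hU : Inc M a U cc) (κ : Ω → ℕ → ℂ)
    (Θ : ℕ → (Fin s → ℕ) → Ω → ℂ) (hκ1 : ∀ ω p, ‖κ ω p‖ ≤ 1) (hκS : ∀ ω, κ (M.S ω) = κ ω)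
    (hΘ1 : ∀ p r ω, ‖Θ p r ω‖ ≤ 1) (hIn : IndV M U κ)
    (h0 y0 : ℕ) (hh0 : y0 + 1 ≤ h0)
    (hdet : ∀ j : ℕ, ∀ p ∈ PD j, ∀ l < 2 ^ j, ∀ ω ω' : Ω,
      win M a (h0 * 2 ^ j) ω = win M a (h0 * 2 ^ j) ω' → ∀ r ∈ Rs s p,
      Θ p r (M.S^[y0 * 2 ^ j + l] ω) = Θ p r (M.S^[y0 * 2 ^ j + l] ω'))
    (ε : ℝ) (hε : 0 < ε) (J : ℕ) :
    ∃ j : ℕ, J ≤ j ∧
      ‖(∑ p ∈ PD j, mc M (fun ω => (if p ∣ M.ν ω then (p : ℂ) else 0) *
          (κ ω p * Θ p (fun i => U ω i % p) ω))) -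
        ∑ p ∈ PD j, mc M (fun ω => κ ω p * ((∑ r ∈ Rs s p, Θ p r ω) / (p : ℂ) ^ s))‖ ≤
        ε * (PD j).card := by
  classical
  -- parameters
  obtain ⟨δ, hδ⟩ : ∃ δ, δ = ε / 12 := ⟨_, rfl⟩
  have hδ0 : 0 < δ := by rw [hδ]; positivity
  obtain ⟨τ, hτ⟩ : ∃ τ, τ = ε / 100 := ⟨_, rfl⟩
  have hτ0 : 0 < τ := by rw [hτ]; positivity
  obtain ⟨R, iR, enc, dec, hR⟩ := t_RND δ hδ0
  obtain ⟨de, hde⟩ : ∃ de : R → ℂ, de = fun r => if ‖dec r‖ ≤ 1 then dec r else 0 := ⟨_, rfl⟩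
  have hde1 : ∀ r, ‖de r‖ ≤ 1 := fun r => by
    rw [hde]
    dsimp only
    split_ifs with h1
    · exact h1
    · simp
  have hde2 : ∀ z : ℂ, ‖z‖ ≤ 1 → ‖de (enc z) - z‖ ≤ δ := fun z hz => by
    rw [hde]
    dsimp only
    rw [if_pos (hR z hz).1]
    exact (hR z hz).2
  obtain ⟨J₁, hJ₁⟩ := PD_large Pool.Agent.Q148.EA.t_CHEB (8 * Real.log 2 / (τ * ε))
  obtain ⟨κr, hκr⟩ : ∃ κr : Ω → ℕ → R, κr = fun ω p => enc (κ ω p) := ⟨_, rfl⟩
  obtain ⟨j, hjJ, hI⟩ := dec3 Pool.Agent.Q119.EA.t_ENTP Pool.Agent.Q148.EA.t_CHEB M a U cc hU κr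
    (fun ω => by rw [hκr]; dsimp only; rw [hκS])
    (fun n j => by rw [hκr]; exact ind_max M U κ enc hIn n j)
    h0 (τ ^ 2) (max J J₁) (by omega) (by positivity)
  refine ⟨j, (le_max_left _ _).trans hjJ, ?_⟩
  have hPc := hJ₁ j ((le_max_right _ _).trans hjJ)
  obtain ⟨L, hL⟩ : ∃ L, L = h0 * 2 ^ j := ⟨_, rfl⟩
  have hdj := hdet j
  have h2j : 0 < 2 ^ j := by positivity
  have hyL : ∀ l < 2 ^ j, y0 * 2 ^ j + l ≤ L := by
    intro l hl
    have h1 : (y0 + 1) * 2 ^ j ≤ h0 * 2 ^ j := Nat.mul_le_mul_right _ hh0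
    rw [hL]
    nlinarith
  obtain ⟨W, hW⟩ : ∃ W : Ω → (Fin L → A) × (Fin (2 ^ j + 1) → R),
    W = fun ω => (win M a L ω, KR κr (2 ^ j + 1) ω) := ⟨_, rfl⟩
  have hI' : (s + 1) * Real.log (QD j) - cH M (Yq M U (QD j)) W ≤
      τ ^ 2 * (PD j).card := by
    rw [← hL] at hI
    rw [hW]
    exact hI
  obtain ⟨κd, hκd⟩ : ∃ κd : ((Fin L → A) × (Fin (2 ^ j + 1) → R)) →
    ℕ → ℂ, κd = fun D p => if hp : p < 2 ^ j + 1 then de (D.2 ⟨p, hp⟩) else 0 := ⟨_, rfl⟩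
  obtain ⟨Ψd, hΨd⟩ : ∃ Ψd : ((Fin L → A) × (Fin (2 ^ j + 1) → R)) →
    ℕ → ℕ → (Fin s → ℕ) → ℂ, Ψd = fun D l p r => if hD : ∃ ω, W ω = D then
      Θ p r (M.S^[y0 * 2 ^ j + l] hD.choose) else 0 := ⟨_, rfl⟩
  -- the increments of the further positions
  obtain ⟨Δ, hΔ⟩ : ∃ Δ : ((Fin L → A) × (Fin (2 ^ j + 1) → R)) → ℕ → Fin s → ℕ,
    Δ = fun D l i => ∑ x ∈ range (y0 * 2 ^ j + l), if hx : x < L then cc (D.1 ⟨x, hx⟩) i else 0 := ⟨_, rfl⟩
  have hΔU : ∀ ω, ∀ l < 2 ^ j, ∀ i, U (M.S^[y0 * 2 ^ j + l] ω) i = U ω i + Δ (W ω) l i := by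
    intro ω l hl i
    rw [U_iter M a U cc hU, hΔ]
    dsimp only
    congr 1
    rw [← Fin.sum_univ_eq_sum_range (fun x => if hx : x < L then cc ((W ω).1 ⟨x, hx⟩) i else 0)]
    refine sum_congr rfl fun x _ => ?_
    have hx : (x : ℕ) < L := lt_of_lt_of_le x.isLt (hyL l hl)
    rw [dif_pos hx, hW]
    rfl
  have hκd1 : ∀ D p, ‖κd D p‖ ≤ 1 := fun D p => by
    rw [hκd]
    dsimp only
    split_ifs
    · exact hde1 _
    · simp
  have hΨd1 : ∀ D l p r, ‖Ψd D l p r‖ ≤ 1 := fun D l p r => by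
    rw [hΨd]
    dsimp only
    split_ifs
    · exact hΘ1 _ _ _
    · simp
  have hΨd2 : ∀ ω (l p : ℕ), l < 2 ^ j → p ∈ PD j → ∀ r ∈ Rs s p,
      Ψd (W ω) l p r = Θ p r (M.S^[y0 * 2 ^ j + l] ω) :=
    fun ω l p hl hp r hr => by
    have hD : ∃ ω', W ω' = W ω := ⟨ω, rfl⟩
    rw [hΨd]
    dsimp only
    rw [dif_pos hD]
    have h1 := hD.choose_spec
    obtain ⟨ω', hω'⟩ : ∃ ω', ω' = hD.choose := ⟨_, rfl⟩
    rw [← hω'] at h1 ⊢
    rw [hW] at h1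
    dsimp only at h1
    obtain ⟨h2, -⟩ := Prod.ext_iff.1 h1
    dsimp only at h2
    rw [hL] at h2
    exact hdj p hp l hl _ _ h2 r hr
  have hκd2 : ∀ ω p, p ≤ 2 ^ j → ‖κd (W ω) p - κ ω p‖ ≤ δ := fun ω p hp => by
    rw [hκd, hW]
    dsimp only
    rw [dif_pos (by omega : p < 2 ^ j + 1)]
    unfold KR
    dsimp only
    rw [hκr]
    exact hde2 _ (hκ1 _ _)
  have hPDle : ∀ p ∈ PD j, p ≤ 2 ^ j := fun p hp => (mem_Ioc.1 (mem_filter.1 hp).1).2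
  have hPDpr : ∀ p ∈ PD j, p.Prime := fun p hp => (mem_filter.1 hp).2
  have hdiff : ∀ ω (p l : ℕ), p ∈ PD j → l < 2 ^ j → ∀ r ∈ Rs s p,
      ‖κ ω p * Θ p r (M.S^[y0 * 2 ^ j + l] ω) - κd (W ω) p * Ψd (W ω) l p r‖ ≤ δ := by
    intro ω p l hp hl r hr
    rw [hΨd2 ω l p hl hp r hr, ← sub_mul, norm_mul]
    have h1 := hκd2 ω p (hPDle p hp)
    rw [norm_sub_rev] at h1
    exact (mul_le_of_le_one_right (norm_nonneg _) (hΘ1 _ _ _)).trans h1
  -- the function `ζ`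
  obtain ⟨ζ, hζ⟩ : ∃ ζ : ℕ → ((Fin L → A) × (Fin (2 ^ j + 1) → R)) →
      (ℕ × (Fin s → ℕ)) → ℂ,
    ζ = fun p D r => if p ∈ PD j then (1 / ((2 ^ j : ℕ) : ℂ)) * ∑ l ∈ range (2 ^ j),
      (if p ∣ (r.1 + y0 * 2 ^ j) + l then (p : ℂ) else 0) *
        (κd D p * Ψd D l p (fun i => (r.2 i + Δ D l i) % p)) else 0 := ⟨_, rfl⟩
  -- a general bound for averages with weights
  have hwt : ∀ (p m : ℕ) (x : ℕ → ℂ) (B : ℝ), p ∈ PD j → (∀ l < 2 ^ j, ‖x l‖ ≤ B) →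
      ‖(1 / ((2 ^ j : ℕ) : ℂ)) * ∑ l ∈ range (2 ^ j),
        (if p ∣ m + l then (p : ℂ) else 0) * x l‖ ≤ 2 * B := by
    intro p m x B hp hx
    have hB : 0 ≤ B := (norm_nonneg _).trans (hx 0 (by positivity))
    have h1 : ‖∑ l ∈ range (2 ^ j), (if p ∣ m + l then (p : ℂ) else 0) * x l‖ ≤
        ∑ l ∈ range (2 ^ j), (if p ∣ m + l then (p : ℝ) else 0) * B := by
      refine (norm_sum_le _ _).trans (sum_le_sum fun l hl => ?_)
      rw [norm_mul]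
      have h2 : ‖(if p ∣ m + l then (p : ℂ) else 0)‖ = if p ∣ m + l then (p : ℝ) else 0 := by
        split_ifs <;> simp
      rw [h2]
      exact mul_le_mul_of_nonneg_left (hx l (mem_range.1 hl)) (by split_ifs <;> positivity)
    rw [← sum_mul] at h1
    have h3 := sum_dvd_le p m (2 ^ j) (hPDpr p hp).one_le (hPDle p hp)
    rw [norm_mul, norm_div, norm_one, Complex.norm_natCast]
    have h4 : (∑ l ∈ range (2 ^ j), (if p ∣ m + l then (p : ℝ) else 0)) * B ≤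
        2 * ((2 ^ j : ℕ) : ℝ) * B := mul_le_mul_of_nonneg_right h3 hB
    have h5 : (0 : ℝ) < ((2 ^ j : ℕ) : ℝ) := by positivity
    rw [div_mul_eq_mul_div, one_mul, div_le_iff₀ h5]
    linarith
  have hζ1 : ∀ p D r, ‖ζ p D r‖ ≤ 2 := by
    intro p D r
    rw [hζ]
    dsimp only
    split_ifs with hp
    · have h1 := hwt p (r.1 + y0 * 2 ^ j)
        (fun l => κd D p * Ψd D l p (fun i => (r.2 i + Δ D l i) % p)) 1 hp
        (fun l _ => by
          rw [norm_mul]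
          exact mul_le_one₀ (hκd1 _ _) (norm_nonneg _) (hΨd1 _ _ _ _))
      linarith
    · simp
  -- the mean of `ζ` over the residues
  obtain ⟨A', hA⟩ : ∃ A' : ℕ → ((Fin L → A) × (Fin (2 ^ j + 1) → R)) → ℂ,
    A' = fun p D => (1 / ((2 ^ j : ℕ) : ℂ)) * ∑ l ∈ range (2 ^ j),
        κd D p * ((∑ r ∈ Rs s p, Ψd D l p r) / (p : ℂ) ^ s) := ⟨_, rfl⟩
  have hζA : ∀ p ∈ PD j, ∀ D, (∑ r ∈ Rp s p, ζ p D r) / (p : ℂ) ^ (s + 1) = A' p D := by
    intro p hp D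
    have hp1 := (hPDpr p hp).one_le
    have hp0 : (p : ℂ) ≠ 0 := by exact_mod_cast (hPDpr p hp).ne_zero
    rw [div_eq_iff (pow_ne_zero _ hp0), hζ, hA]
    dsimp only
    simp only [if_pos hp]
    rw [← mul_sum, sum_comm, mul_assoc, sum_mul]
    congr 1
    refine sum_congr rfl fun l _ => ?_
    have e0 : Rp s p = range p ×ˢ Rs s p := rfl
    rw [e0, sum_product]
    dsimp only
    have h1 : ∑ r ∈ range p, (if p ∣ (r + y0 * 2 ^ j) + l then (p : ℂ) else 0) = p := by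
      have := sum_res p (y0 * 2 ^ j + l) hp1
      simp only [← add_assoc] at this
      exact this
    have h2 : ∀ r : ℕ, ∑ r' ∈ Rs s p, (if p ∣ (r + y0 * 2 ^ j) + l then (p : ℂ) else 0) *
        (κd D p * Ψd D l p (fun i => (r' i + Δ D l i) % p)) =
        (if p ∣ (r + y0 * 2 ^ j) + l then (p : ℂ) else 0) * (κd D p * ∑ r' ∈ Rs s p, Ψd D l p r') := by
      intro r
      rw [← mul_sum, ← mul_sum, sum_shift hp1 (fun i => Δ D l i) (fun r' => Ψd D l p r')]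
    rw [sum_congr rfl fun r _ => h2 r, ← sum_mul, h1]
    field_simp
    ring
  have hbox : ∀ (p : ℕ) (F : (Fin s → ℕ) → ℂ) (B : ℝ), p ∈ PD j → (∀ r ∈ Rs s p, ‖F r‖ ≤ B) →
      ‖(∑ r ∈ Rs s p, F r) / (p : ℂ) ^ s‖ ≤ B := by
    intro p F B hp hF
    have hp0 : (0 : ℝ) < (p : ℝ) ^ s := by
      have : (0 : ℝ) < p := by exact_mod_cast (hPDpr p hp).pos
      positivity
    rw [norm_div, norm_pow, Complex.norm_natCast, div_le_iff₀ hp0]
    refine (norm_sum_le _ _).trans ((sum_le_sum hF).trans ?_)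
    rw [sum_const, card_Rs, nsmul_eq_mul]
    push_cast
    rw [mul_comm]
  have hA1 : ∀ p ∈ PD j, ∀ D, ‖A' p D‖ ≤ 1 := by
    intro p hp D
    rw [hA]
    dsimp only
    rw [norm_mul, norm_div, norm_one, Complex.norm_natCast]
    have h5 : (0 : ℝ) < ((2 ^ j : ℕ) : ℝ) := by positivity
    rw [div_mul_eq_mul_div, one_mul, div_le_iff₀ h5]
    refine (norm_sum_le _ _).trans ?_
    refine (sum_le_sum fun l _ => ?_ : _ ≤ ∑ l ∈ range (2 ^ j), (1 : ℝ)).trans ?_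
    · rw [norm_mul]
      exact mul_le_one₀ (hκd1 _ _) (norm_nonneg _) (hbox p _ 1 hp fun r _ => hΨd1 _ _ _ _)
    · simp
  -- the two means of each `p`
  obtain ⟨A1, hA1d⟩ : ∃ A1 : ℕ → Ω → ℂ, A1 = fun p ω => (if p ∣ M.ν ω then (p : ℂ) else 0) *
    (κ ω p * Θ p (fun i => U ω i % p) ω) := ⟨_, rfl⟩
  obtain ⟨A2, hA2d⟩ : ∃ A2 : ℕ → Ω → ℂ, A2 = fun p ω => κ ω p * ((∑ r ∈ Rs s p, Θ p r ω) / (p : ℂ) ^ s) :=
    ⟨_, rfl⟩
  have hA2b : ∀ p ∈ PD j, ∀ ω, ‖A2 p ω‖ ≤ 1 := fun p hp ω => by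
    rw [hA2d]
    dsimp only
    rw [norm_mul]
    exact mul_le_one₀ (hκ1 _ _) (norm_nonneg _) (hbox p _ 1 hp fun r _ => hΘ1 _ _ _)
  have hA1b : ∀ p ω, ‖A1 p ω‖ ≤ p := fun p ω => by
    rw [hA1d]
    dsimp only
    rw [norm_mul]
    have h2 : ‖(if p ∣ M.ν ω then (p : ℂ) else 0)‖ ≤ p := by
      split_ifs <;> simp
    have h1 : ‖κ ω p * Θ p (fun i => U ω i % p) ω‖ ≤ 1 := by
      rw [norm_mul]
      exact mul_le_one₀ (hκ1 _ _) (norm_nonneg _) (hΘ1 _ _ _)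
    calc _ ≤ (p : ℝ) * 1 := mul_le_mul h2 h1 (norm_nonneg _) (by positivity)
      _ = p := mul_one _
  have hKS : ∀ (l : ℕ) (ω : Ω), κ (M.S^[l] ω) = κ ω := by
    intro l ω
    induction l with
    | zero => rfl
    | succ l ih => rw [Function.iterate_succ_apply', hκS, ih]
  have hmodR : ∀ p ∈ PD j, ∀ v : Fin s → ℕ, (fun i => v i % p) ∈ Rs s p := by
    intro p hp v
    rw [mem_Rs]
    exact fun i => Nat.mod_lt _ (hPDpr p hp).pos
  -- comparison of `A1` and `ζ`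
  have hc1 : ∀ p ∈ PD j, ‖mc M (A1 p) - mc M (fun ω => ζ p (W ω) (rv M U p ω))‖ ≤ 2 * δ := by
    intro p hp
    have hbA1 : BC (A1 p) := ⟨p, hA1b p⟩
    rw [← mc_avg M hbA1 (y0 * 2 ^ j) (2 ^ j) (by positivity)]
    rw [← mc_sub M]
    · refine mc_norm_le M fun ω => ?_
      have h1 : (1 / ((2 ^ j : ℕ) : ℂ)) * ∑ l ∈ range (2 ^ j), A1 p (M.S^[y0 * 2 ^ j + l] ω) -
          ζ p (W ω) (rv M U p ω) = (1 / ((2 ^ j : ℕ) : ℂ)) * ∑ l ∈ range (2 ^ j),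
          (if p ∣ (M.ν ω + y0 * 2 ^ j) + l then (p : ℂ) else 0) *
          (κ ω p * Θ p (fun i => U (M.S^[y0 * 2 ^ j + l] ω) i % p) (M.S^[y0 * 2 ^ j + l] ω) -
            κd (W ω) p * Ψd (W ω) l p (fun i => U (M.S^[y0 * 2 ^ j + l] ω) i % p)) := by
        rw [hζ]
        dsimp only
        rw [if_pos hp, ← mul_sub, ← sum_sub_distrib]
        congr 1
        refine sum_congr rfl fun l hl => ?_
        have h2 : (p ∣ (M.ν ω % p + y0 * 2 ^ j) + l) ↔ (p ∣ (M.ν ω + y0 * 2 ^ j) + l) := by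
          rw [Nat.dvd_iff_mod_eq_zero, Nat.dvd_iff_mod_eq_zero, add_assoc, add_assoc,
            Nat.mod_add_mod]
        have h3 : (fun i => ((rv M U p ω).2 i + Δ (W ω) l i) % p) =
            fun i => U (M.S^[y0 * 2 ^ j + l] ω) i % p := by
          funext i
          rw [hΔU ω l (mem_range.1 hl) i]
          show (U ω i % p + Δ (W ω) l i) % p = _
          rw [Nat.mod_add_mod]
        have h4 : (rv M U p ω).1 = M.ν ω % p := rfl
        rw [h3, h4]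
        simp only [h2]
        rw [hA1d]
        dsimp only
        rw [M.pos_iter, hKS, ← add_assoc]
        ring
      rw [h1]
      exact hwt p _ _ _ hp fun l hl => hdiff ω p l hp hl _ (hmodR p hp _)
    · refine ⟨p, fun ω => ?_⟩
      rw [norm_mul, norm_div, norm_one, Complex.norm_natCast]
      have h5 : (0 : ℝ) < ((2 ^ j : ℕ) : ℝ) := by positivity
      rw [div_mul_eq_mul_div, one_mul, div_le_iff₀ h5]
      refine (norm_sum_le _ _).trans ?_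
      refine (sum_le_sum fun l _ => hA1b p _ : _ ≤ ∑ l ∈ range (2 ^ j), (p : ℝ)).trans ?_
      rw [sum_const, card_range, nsmul_eq_mul, mul_comm]
    · exact ⟨2, fun ω => hζ1 _ _ _⟩
  -- comparison of `A'` and `A2`
  have hc2 : ∀ p ∈ PD j, ‖mc M (fun ω => A' p (W ω)) - mc M (A2 p)‖ ≤ δ := by
    intro p hp
    have hbA2 : BC (A2 p) := ⟨1, hA2b p hp⟩
    rw [← mc_avg M hbA2 (y0 * 2 ^ j) (2 ^ j) (by positivity)]
    rw [← mc_sub M]
    · refine mc_norm_le M fun ω => ?_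
      have h1 : A' p (W ω) - (1 / ((2 ^ j : ℕ) : ℂ)) * ∑ l ∈ range (2 ^ j),
          A2 p (M.S^[y0 * 2 ^ j + l] ω) = (1 / ((2 ^ j : ℕ) : ℂ)) * ∑ l ∈ range (2 ^ j),
          ((∑ r ∈ Rs s p, (κd (W ω) p * Ψd (W ω) l p r - κ ω p * Θ p r (M.S^[y0 * 2 ^ j + l] ω))) /
            (p : ℂ) ^ s) := by
        rw [hA]
        dsimp only
        rw [← mul_sub, ← sum_sub_distrib]
        congr 1
        refine sum_congr rfl fun l _ => ?_
        rw [hA2d]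
        dsimp only
        rw [hKS, sum_sub_distrib, ← mul_sum, ← mul_sum]
        ring
      rw [h1, norm_mul, norm_div, norm_one, Complex.norm_natCast]
      have h5 : (0 : ℝ) < ((2 ^ j : ℕ) : ℝ) := by positivity
      rw [div_mul_eq_mul_div, one_mul, div_le_iff₀ h5]
      refine (norm_sum_le _ _).trans ?_
      refine (sum_le_sum fun l hl => ?_ :
        _ ≤ ∑ l ∈ range (2 ^ j), (δ : ℝ)).trans ?_
      · refine hbox p _ δ hp fun r hr => ?_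
        rw [norm_sub_rev]
        exact hdiff ω p l hp (mem_range.1 hl) r hr
      · rw [sum_const, card_range, nsmul_eq_mul, mul_comm]
    · exact ⟨1, fun ω => hA1 _ hp _⟩
    · refine ⟨1, fun ω => ?_⟩
      rw [norm_mul, norm_div, norm_one, Complex.norm_natCast]
      have h5 : (0 : ℝ) < ((2 ^ j : ℕ) : ℝ) := by positivity
      rw [div_mul_eq_mul_div, one_mul, div_le_iff₀ h5]
      refine (norm_sum_le _ _).trans ?_
      refine (sum_le_sum fun l _ => hA2b p hp _ : _ ≤ ∑ l ∈ range (2 ^ j), (1 : ℝ)).trans ?_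
      simp
  -- the variational inequality
  have hdv : ∀ ζr : ℕ → ((Fin L → A) × (Fin (2 ^ j + 1) → R)) → (ℕ × (Fin s → ℕ)) → ℝ,
      (∀ p D r, |ζr p D r| ≤ 2) →
      M.m (fun ω => |∑ p ∈ PD j, (ζr p (W ω) (rv M U p ω) -
        (∑ y ∈ Rp s p, ζr p (W ω) y) / (p : ℝ) ^ (s + 1))|) ≤ 9 * τ * (PD j).card + Real.log 2 / τ := by
    intro ζr hζr
    have h1 := dvm3 M U W (PD j) (QD j) hPDpr rfl ζr 2 τ hζr hτ0
    have h2 : 1 / τ * ((s + 1) * Real.log (QD j) + Real.log 2 -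
        cH M (Yq M U (QD j)) W) ≤ 1 / τ * (τ ^ 2 * (PD j).card + Real.log 2) := by
      apply mul_le_mul_of_nonneg_left _ (by positivity)
      linarith
    refine h1.trans ((add_le_add_left h2 _).trans (le_of_eq ?_))
    field_simp
    ring
  obtain ⟨Z, hZ⟩ : ∃ Z : Ω → ℂ, Z = fun ω => ∑ p ∈ PD j, (ζ p (W ω) (rv M U p ω) -
    A' p (W ω)) := ⟨_, rfl⟩
  have hZb : BC Z := by
    rw [hZ]
    exact BC.sum _ fun p hp => BC.sub ⟨2, fun ω => hζ1 _ _ _⟩ ⟨1, fun ω => hA1 _ hp _⟩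
  have hZ1 : ‖mc M Z‖ ≤ 18 * τ * (PD j).card + 2 * Real.log 2 / τ := by
    have h1 := mc_parts M hZb
    have h2 := hdv (fun p D r => (ζ p D r).re)
      (fun p D r => (Complex.abs_re_le_norm _).trans (hζ1 _ _ _))
    have h3 := hdv (fun p D r => (ζ p D r).im)
      (fun p D r => (Complex.abs_im_le_norm _).trans (hζ1 _ _ _))
    have e7 : ∀ (p : ℕ) (z : ℂ), (z / (p : ℂ) ^ (s + 1)).re = z.re / (p : ℝ) ^ (s + 1) := by
      intro p z
      rw [← Nat.cast_pow, Complex.div_natCast_re]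
      push_cast
      rfl
    have e8 : ∀ (p : ℕ) (z : ℂ), (z / (p : ℂ) ^ (s + 1)).im = z.im / (p : ℝ) ^ (s + 1) := by
      intro p z
      rw [← Nat.cast_pow, Complex.div_natCast_im]
      push_cast
      rfl
    have h4 : ∀ ω, (Z ω).re = ∑ p ∈ PD j, ((ζ p (W ω) (rv M U p ω)).re -
        (∑ y ∈ Rp s p, (ζ p (W ω) y).re) / (p : ℝ) ^ (s + 1)) := fun ω => by
      rw [hZ]
      dsimp only
      rw [Complex.re_sum]
      refine sum_congr rfl fun p hp => ?_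
      rw [← hζA p hp, Complex.sub_re, e7, Complex.re_sum]
    have h5 : ∀ ω, (Z ω).im = ∑ p ∈ PD j, ((ζ p (W ω) (rv M U p ω)).im -
        (∑ y ∈ Rp s p, (ζ p (W ω) y).im) / (p : ℝ) ^ (s + 1)) := fun ω => by
      rw [hZ]
      dsimp only
      rw [Complex.im_sum]
      refine sum_congr rfl fun p hp => ?_
      rw [← hζA p hp, Complex.sub_im, e8, Complex.im_sum]
    simp only [← h4, ← h5] at h2 h3
    calc ‖mc M Z‖ ≤ _ := h1
      _ ≤ (9 * τ * (PD j).card + Real.log 2 / τ) + (9 * τ * (PD j).card + Real.log 2 / τ) :=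
          add_le_add h2 h3
      _ = _ := by ring
  -- conclusion
  have hZ2 : mc M Z = ∑ p ∈ PD j, (mc M (fun ω => ζ p (W ω) (rv M U p ω)) -
      mc M (fun ω => A' p (W ω))) := by
    rw [hZ, mc_sum M]
    · refine sum_congr rfl fun p hp => ?_
      exact mc_sub M ⟨2, fun ω => hζ1 _ _ _⟩ ⟨1, fun ω => hA1 _ hp _⟩
    · intro p hp
      exact BC.sub ⟨2, fun ω => hζ1 _ _ _⟩ ⟨1, fun ω => hA1 _ hp _⟩
  have hfin : (∑ p ∈ PD j, mc M (A1 p)) - ∑ p ∈ PD j, mc M (A2 p) =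
      (∑ p ∈ PD j, (mc M (A1 p) - mc M (fun ω => ζ p (W ω) (rv M U p ω)))) + mc M Z +
      ∑ p ∈ PD j, (mc M (fun ω => A' p (W ω)) - mc M (A2 p)) := by
    rw [hZ2, ← sum_sub_distrib, ← sum_add_distrib, ← sum_add_distrib]
    refine sum_congr rfl fun p _ => ?_
    ring
  have hgoal : (∑ p ∈ PD j, mc M (fun ω => (if p ∣ M.ν ω then (p : ℂ) else 0) *
          (κ ω p * Θ p (fun i => U ω i % p) ω))) -
        ∑ p ∈ PD j, mc M (fun ω => κ ω p * ((∑ r ∈ Rs s p, Θ p r ω) / (p : ℂ) ^ s)) =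
      (∑ p ∈ PD j, mc M (A1 p)) - ∑ p ∈ PD j, mc M (A2 p) := by
    rw [hA1d, hA2d]
  rw [hgoal, hfin]
  have hn1 : ‖∑ p ∈ PD j, (mc M (A1 p) - mc M (fun ω => ζ p (W ω) (rv M U p ω)))‖ ≤
      (PD j).card * (2 * δ) := by
    refine (norm_sum_le _ _).trans ((sum_le_sum hc1).trans (le_of_eq ?_))
    rw [sum_const, nsmul_eq_mul]
  have hn2 : ‖∑ p ∈ PD j, (mc M (fun ω => A' p (W ω)) - mc M (A2 p))‖ ≤
      (PD j).card * δ := by
    refine (norm_sum_le _ _).trans ((sum_le_sum hc2).trans (le_of_eq ?_))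
    rw [sum_const, nsmul_eq_mul]
  have hlog : 2 * Real.log 2 / τ ≤ ε / 4 * (PD j).card := by
    rw [div_le_iff₀ (by positivity)] at hPc
    rw [div_le_iff₀ hτ0]
    nlinarith
  refine (norm_add₃_le).trans ?_
  rw [hδ] at hn1 hn2
  have h18 : 18 * τ * (PD j).card = 18 / 100 * ε * (PD j).card := by rw [hτ]; ring
  rw [h18] at hZ1
  have hPn : (0 : ℝ) ≤ (PD j).card := by positivity
  have hεP : 0 ≤ ε * (PD j).card := by positivity
  nlinarith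

end Pool.Agent.Q270.EV
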