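import Pool.Agent.Q270.EV.Fin

/-!
Project EV (helper270): from the rational span to a vector, and other index types.
-/

set_option autoImplicit false

namespace Pool.Agent.Q270.EV

open Finset Filter Topology Pool.Agent.Q270.EA Pool.Agent.Q270.EB Pool.Agent.Q270.EC Pool.Agent.Q119.EA
open Pool.Agent.TH823.MRS (ExpoSmall)
open Pool.Agent.H373R2.T7 (liR)

variable {s : ℕ}

/-- the coefficients of an affine form, as rational numbers -/
def rt (c : ℤ × (Fin s → ℤ) × ℤ) : ℚ × (Fin s → ℚ) × ℚ := ((c.1 : ℚ), (fun i => (c.2.1 i : ℚ)), (c.2.2 : ℚ))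

lemma rt_val (φ : Module.Dual ℚ (ℚ × (Fin s → ℚ) × ℚ)) (c : ℤ × (Fin s → ℤ) × ℤ) :
    φ (rt c) = c.1 * φ (1, 0, 0) + ∑ i, c.2.1 i * φ (0, Pi.single i 1, 0) + c.2.2 * φ (0, 0, 1) := by
  have h1 : rt c = (c.1 : ℚ) • ((1, 0, 0) : ℚ × (Fin s → ℚ) × ℚ) +
      ∑ i, (c.2.1 i : ℚ) • ((0, Pi.single i 1, 0) : ℚ × (Fin s → ℚ) × ℚ) + (c.2.2 : ℚ) • ((0, 0, 1) : ℚ × (Fin s → ℚ) × ℚ) := by
    unfold rt
    refine Prod.ext ?_ (Prod.ext ?_ ?_)
    · simp [Prod.fst_sum]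
    · funext i
      simp only [Prod.snd_add, Prod.fst_add, Prod.snd_sum, Prod.fst_sum, Prod.smul_mk, Pi.add_apply, Finset.sum_apply,
        Pi.smul_apply, smul_eq_mul, smul_zero, Pi.zero_apply, zero_add, add_zero]
      rw [sum_eq_single i]
      · simp
      · intro b _ hb
        rw [Pi.single_eq_of_ne hb.symm]
        simp
      · simp
    · simp [Prod.snd_sum]
  rw [h1, map_add, map_add, map_sum, map_smul, map_smul]
  simp only [map_smul, smul_eq_mul]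

/-- a vector that kills the companions -/
theorem kill_vec {ι : Type*} (c0 : ℤ × (Fin s → ℤ) × ℤ) (c : ι → ℤ × (Fin s → ℤ) × ℤ)
    (h : rt c0 ∉ Submodule.span ℚ (Set.range fun j => rt (c j))) :
    ∃ (D : ℕ) (y0 : ℤ) (y : Fin s → ℤ), (∀ j, lin ((c j).1, (c j).2.1) y0 y + D * (c j).2.2 = 0) ∧
      lin (c0.1, c0.2.1) y0 y + D * c0.2.2 ≠ 0 := by
  classical
  obtain ⟨φ, hφ1, hφ2⟩ := Submodule.exists_dual_map_eq_bot_of_notMem h inferInstance
  have hφj : ∀ j, φ (rt (c j)) = 0 := by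
    intro j
    have h1 : φ (rt (c j)) ∈ Submodule.map φ (Submodule.span ℚ (Set.range fun j => rt (c j))) :=
      Submodule.mem_map_of_mem (Submodule.subset_span ⟨j, rfl⟩)
    rw [hφ2] at h1
    exact (Submodule.mem_bot ℚ).1 h1
  -- a common denominator
  obtain ⟨M, hM⟩ : ∃ M : ℕ, M = (φ (1, 0, 0)).den * ((∏ i, (φ (0, Pi.single i 1, 0)).den) * (φ (0, 0, 1)).den) := ⟨_, rfl⟩
  have hM0 : M ≠ 0 := by
    rw [hM]
    exact mul_ne_zero (Rat.den_nz _) (mul_ne_zero (prod_ne_zero_iff.2 fun i _ => Rat.den_nz _) (Rat.den_nz _))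
  have hden : ∀ q : ℚ, q.den ∣ M → ∃ z : ℤ, (z : ℚ) = M * q := by
    intro q ⟨w, hw⟩
    refine ⟨q.num * w, ?_⟩
    rw [hw]
    push_cast
    have h1 : (q.den : ℚ) * q = q.num := Rat.den_mul_eq_num q
    rw [← h1]
    ring
  obtain ⟨z0, hz0⟩ := hden (φ (1, 0, 0)) (by rw [hM]; exact dvd_mul_right _ _)
  choose z hz using fun i => hden (φ (0, Pi.single i 1, 0)) (by
    rw [hM]
    exact dvd_mul_of_dvd_right (dvd_mul_of_dvd_left (dvd_prod_of_mem _ (mem_univ i)) _) _)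
  obtain ⟨zD, hzD⟩ := hden (φ (0, 0, 1)) (by rw [hM]; exact dvd_mul_of_dvd_right (dvd_mul_left _ _) _)
  have hval : ∀ c : ℤ × (Fin s → ℤ) × ℤ, ((lin (c.1, c.2.1) z0 z + zD * c.2.2 : ℤ) : ℚ) = M * φ (rt c) := by
    intro c
    rw [rt_val]
    unfold lin
    push_cast
    rw [hz0, hzD]
    simp only [hz, mul_add, mul_sum]
    have e1 : ∑ i, (c.2.1 i : ℚ) * (M * φ (0, Pi.single i 1, 0)) = ∑ i, (M : ℚ) * (c.2.1 i * φ (0, Pi.single i 1, 0)) :=
      sum_congr rfl fun i _ => by ring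
    rw [e1]
    ring
  have hj0 : ∀ j, lin ((c j).1, (c j).2.1) z0 z + zD * (c j).2.2 = 0 := by
    intro j
    have h1 := hval (c j)
    rw [hφj, mul_zero] at h1
    exact_mod_cast h1
  have h00 : lin (c0.1, c0.2.1) z0 z + zD * c0.2.2 ≠ 0 := by
    intro h1
    have h2 := hval c0
    rw [h1] at h2
    have h3 : (M : ℚ) * φ (rt c0) = 0 := by rw [← h2]; simp
    rcases mul_eq_zero.1 h3 with h4 | h4
    · exact hM0 (by exact_mod_cast h4)
    · exact hφ1 h4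
  rcases le_total 0 zD with hD | hD
  · obtain ⟨D, rfl⟩ := Int.eq_ofNat_of_zero_le hD
    exact ⟨D, z0, z, hj0, h00⟩
  · obtain ⟨D, hD'⟩ := Int.eq_ofNat_of_zero_le (by omega : 0 ≤ -zD)
    have hneg : ∀ a : ℤ × (Fin s → ℤ), lin a (-z0) (fun i => -z i) = -lin a z0 z := by
      intro a
      have := lin_smul a (-1) z0 z
      simp only [neg_mul, one_mul] at this
      exact this
    refine ⟨D, -z0, fun i => -z i, fun j => ?_, ?_⟩
    · have h1 := hj0 j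
      rw [hneg, ← hD']
      linarith
    · intro h1
      apply h00
      rw [hneg, ← hD'] at h1
      linarith

/-- linear independence over the rational numbers -/
lemma ind_of_li (α : Fin s → ℝ) (h : LinearIndependent ℚ (Fin.cons 1 α : Fin (s + 1) → ℝ)) : Ind α := by
  intro c d hcd
  rw [Fintype.linearIndependent_iff] at h
  have h1 := h (Fin.cons (-(d : ℚ)) fun i => (c i : ℚ)) (by
    rw [Fin.sum_univ_succ]
    simp only [Fin.cons_zero, Fin.cons_succ, Rat.smul_def]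
    push_cast
    rw [hcd]
    ring)
  funext i
  have h2 := h1 i.succ
  rw [Fin.cons_succ] at h2
  exact_mod_cast h2

/-- the value of an affine form at the vector of the positions -/
noncomputable def vl (α β : Fin s → ℝ) (c : ℤ × (Fin s → ℤ) × ℤ) (n : ℕ) : ℤ :=
  c.1 * n + ∑ i, c.2.1 i * ⌊α i * n + β i⌋ + c.2.2

/-- the growth rate of an affine form -/
noncomputable def rate (α : Fin s → ℝ) (c : ℤ × (Fin s → ℤ) × ℤ) : ℝ := c.1 + ∑ i, c.2.1 i * α i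

/-- the theorem, for finite index types -/
theorem ev_main {ι : Type*} [Fintype ι] (f : ℕ → ℂ) (hf : Fok' f) (α β : Fin s → ℝ)
    (hα : LinearIndependent ℚ (Fin.cons 1 α : Fin (s + 1) → ℝ)) (c0 : ℤ × (Fin s → ℤ) × ℤ) (c : ι → ℤ × (Fin s → ℤ) × ℤ)
    (h0 : 0 < rate α c0) (hc : ∀ j, 0 < rate α (c j))
    (hspan : rt c0 ∉ Submodule.span ℚ (Set.range fun j => rt (c j))) (ε : ℝ) (hε : 0 < ε) :
    ∃ X₀ : ℕ, ∀ X : ℕ, X₀ ≤ X → ∀ g : ι → ℕ → ℂ, (∀ j, BM (g j)) →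
      ∑ N ∈ Icc 1 X, (1 / (N : ℝ)) * ‖(1 / (N : ℂ)) * ∑ n ∈ Icc 1 N,
        f (vl α β c0 n).toNat * ∏ j, g j (vl α β (c j) n).toNat‖ ≤ ε * Real.log X := by
  have e := Fintype.equivFin ι
  obtain ⟨D, y0, y, h1, h2⟩ := kill_vec c0 c hspan
  obtain ⟨X₀, h⟩ := ev_gen α β (ind_of_li α hα) (c0.1, c0.2.1) c0.2.2 (fun j => ((c (e.symm j)).1, (c (e.symm j)).2.1))
    (fun j => (c (e.symm j)).2.2) h0 (fun j => hc (e.symm j)) D y0 y (fun j => h1 (e.symm j)) h2 f hf ε hε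
  refine ⟨X₀, fun X hX g hg => ?_⟩
  refine le_trans (le_of_eq ?_) (h X hX (g ∘ e.symm) (fun j => hg _))
  have hv : ∀ (c : ℤ × (Fin s → ℤ) × ℤ) (n : ℕ), fv α β (c.1, c.2.1) c.2.2 n = vl α β c n := by
    intro c n
    unfold fv vl lin Uz
    push_cast
    rfl
  refine sum_congr rfl fun N _ => ?_
  congr 3
  refine sum_congr rfl fun n _ => ?_
  rw [hv]
  congr 1
  have h3 : ∀ j, (g ∘ e.symm) j (fv α β ((c (e.symm j)).1, (c (e.symm j)).2.1) (c (e.symm j)).2.2 n).toNat =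
      (fun j => g j (vl α β (c j) n).toNat) (e.symm j) := fun j => by rw [hv]; rfl
  rw [prod_congr rfl fun j _ => h3 j]
  exact (Equiv.prod_comp e.symm (fun j => g j (vl α β (c j) n).toNat)).symm

lemma fok'_lam : Fok' (fun n => (-1 : ℂ) ^ ArithmeticFunction.cardFactors n) := by
  have h := Pool.Agent.Q270.EH.fok_lam
  exact ⟨h.val, h.neg, Pool.Agent.TH823.MRS.liR_E⟩

lemma fok'_mu : Fok' (fun n => ((ArithmeticFunction.moebius n : ℤ) : ℂ)) := by
  have h := Pool.Agent.Q270.EH.fok_mu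
  exact ⟨h.val, h.neg, Pool.Agent.TH823.MRS.mu_E⟩

end Pool.Agent.Q270.EV
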