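import Pool.Agent.Q270.EV.Det
import Pool.Agent.Q270.EH.Dec
import Pool.Agent.Q270.EH.Pre

/-!
Project EV (helper270): the main argument, for sequences.
-/

set_option autoImplicit false

namespace Pool.Agent.Q270.EV

open Finset Filter Topology Pool.Agent.Q270.EA Pool.Agent.Q270.EB Pool.Agent.Q270.EC Pool.Agent.Q119.EA
open Pool.Agent.Q270.EH (EX_tendsto' cnt cnt_eq cnt_mono nz sparse)
open Pool.Agent.TH823.MRS (ExpoSmall)

variable {s k : ℕ}

/-- sums over natural numbers and over integers -/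
lemma sum_Icc_Ioc (N : ℕ) (F : ℤ → ℂ) : ∑ n ∈ Icc 1 N, F (n : ℤ) = ∑ n ∈ Ioc (0 : ℤ) N, F n := by
  refine sum_nbij' (fun n : ℕ => (n : ℤ)) (fun n : ℤ => n.toNat) ?_ ?_ ?_ ?_ ?_
  · intro n hn
    rw [mem_Icc] at hn
    rw [mem_Ioc]
    omega
  · intro n hn
    rw [mem_Ioc] at hn
    rw [mem_Icc]
    omega
  · intro n _
    simp
  · intro n hn
    rw [mem_Ioc] at hn
    omega
  · intro n _
    rfl

/-- the sequence form of the theorem -/
theorem evseq (G : Dat s k) (f : ℕ → ℂ) (hf : ∀ n, f n = 0 ∨ f n = 1 ∨ f n = -1) (hf0 : f 0 = 0)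
    (hfp : ∀ p n : ℕ, p.Prime → 1 ≤ n → ¬ p ∣ n → f (p * n) = - f n) (hEs : ExpoSmall f)
    (X : ℕ → ℕ) (hX : Tendsto X atTop atTop)
    (g : ℕ → Fin k → ℕ → ℂ) (hg1 : ∀ i j n, ‖g i j n‖ ≤ 1)
    (hgp : ∀ i j (p : ℕ), p.Prime → ‖g i j p‖ = 1)
    (hgm : ∀ i j (p n : ℕ), p.Prime → ¬ p ∣ n → g i j (p * n) = g i j p * g i j n)
    (ε : ℝ) (hε : 0 < ε) :
    ¬ ∀ i, ε ≤ EX (X i) (fun N _ => ‖AvN N (phiV G f (g i))‖) := by
  classical
  intro hcon
  obtain ⟨M, hS, hν, hdil, hlow, hlim⟩ := Pool.Agent.Q239.EA.t_SY3 X hX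
  obtain ⟨E, hE1, hE2⟩ : ∃ E : Dil M (ℕ × ℕ), (∀ ω, E.lab ω = (ω.1, ω.2.1)) ∧
      ∀ p l, E.dl p l = (l.1, l.2 / p) :=
    ⟨{ lab := fun ω => (ω.1, ω.2.1)
       dl := fun p l => (l.1, l.2 / p)
       D := fun p ω => (ω.1, ω.2.1 / p, ω.2.2 / p)
       lab_S := fun ω => by rw [hS]
       lab_D := fun p ω => rfl
       ν_D := fun p ω => by rw [hν, hν]
       dil := fun p hp φ hφ => by
         rw [hdil p hp φ hφ]
         congr 1
         funext ω
         rw [hν] }, fun _ => rfl, fun _ _ => rfl⟩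
  have hf1 : ∀ n, ‖f n‖ ≤ 1 := fun n => by
    rcases hf n with h | h | h <;> rw [h] <;> simp
  -- means that vanish
  have hzero : ∀ (φ : ℕ × ℕ × ℕ → ℝ) (C : ℝ), 0 ≤ C → (∀ ω, |φ ω| ≤ C) →
      (∀ δ : ℝ, 0 < δ → ∃ N₀ : ℕ, ∀ i N : ℕ, 1 ≤ N → N₀ ≤ N →
        |(1 / (N : ℝ)) * ∑ n ∈ Icc 1 N, φ (i, N, n)| ≤ δ) → M.m φ = 0 := by
    intro φ C hC hφ h
    exact hlim φ ⟨C, hφ⟩ 0 (EX_tendsto' X hX (fun i N n => φ (i, N, n)) C hC
      (fun i N n => hφ _) h)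
  -- means that are small
  have hsmall : ∀ (χ : ℕ × ℕ × ℕ → ℝ) (C δ : ℝ), 0 ≤ C → 0 ≤ δ → (∀ ω, |χ ω| ≤ C) →
      (∃ N₀ : ℕ, ∀ i N : ℕ, 1 ≤ N → N₀ ≤ N →
        (1 / (N : ℝ)) * ∑ n ∈ Icc 1 N, χ (i, N, n) ≤ δ) → M.m χ ≤ δ := by
    intro χ C δ hC hδ hχ h
    obtain ⟨N₀, hN₀⟩ := h
    obtain ⟨K, hK⟩ : ∃ K : ℕ × ℕ × ℕ → ℝ, K = fun ω => if ω.2.1 < N₀ then C else 0 := ⟨_, rfl⟩
    have hK0 : ∀ ω, 0 ≤ K ω := fun ω => by rw [hK]; dsimp only; split_ifs <;> simp [hC]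
    have hK1 : ∀ ω, |K ω| ≤ C := fun ω => by
      rw [abs_of_nonneg (hK0 ω), hK]; dsimp only; split_ifs <;> simp [hC]
    have hKz : M.m K = 0 := by
      refine hzero K C hC hK1 fun δ hδ => ⟨N₀, fun i N _ hN => ?_⟩
      have : ∀ n, K (i, N, n) = 0 := fun n => by
        rw [hK]; dsimp only; rw [if_neg (by omega)]
      simp only [this]
      simp [hδ.le]
    have hbχ : Bd χ := ⟨C, hχ⟩
    have hbK : Bd K := ⟨C, hK1⟩
    have h1 := hlow (fun ω => δ - χ ω + K ω) (((Bd.const δ).sub hbχ).add hbK) 0 (fun i => by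
      rcases Nat.eq_zero_or_pos (X i) with hX0 | hX0
      · rw [hX0]
        unfold EX
        simp
      refine EX_ge (X i) hX0 _ _ fun N hN => ?_
      have hN0 : (0 : ℝ) < N := by exact_mod_cast hN
      by_cases hlt : N < N₀
      · refine mul_nonneg (by positivity) (sum_nonneg fun n _ => ?_)
        have h2 : K (i, N, n) = C := by rw [hK]; dsimp only; rw [if_pos hlt]
        rw [h2]
        have := (abs_le.1 (hχ (i, N, n))).2
        linarith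
      · have h2 : ∀ n, K (i, N, n) = 0 := fun n => by rw [hK]; dsimp only; rw [if_neg hlt]
        have h3 := hN₀ i N hN (by omega)
        simp only [h2, add_zero]
        rw [sum_sub_distrib, mul_sub, sum_const, Nat.card_Icc, Nat.add_sub_cancel, nsmul_eq_mul]
        have h4 : (1 / (N : ℝ)) * (N * δ) = δ := by field_simp
        rw [h4]
        linarith)
    rw [M.add _ _ ((Bd.const δ).sub hbχ) hbK, M.sub (Bd.const δ) hbχ, hKz, M.const] at h1
    linarith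
  have hSit : ∀ (l : ℕ) (ω : ℕ × ℕ × ℕ), M.S^[l] ω = (ω.1, ω.2.1, ω.2.2 + l) := by
    intro l
    induction l with
    | zero => intro ω; rfl
    | succ l ih => intro ω; rw [Function.iterate_succ_apply', ih, hS]; rfl
  -- the functions
  obtain ⟨φf, hφf⟩ : ∃ φf : ℕ → ℕ → ℂ, φf = fun (i n : ℕ) => phiV G f (g i) n := ⟨_, rfl⟩
  have hφf1 : ∀ i n, ‖φf i n‖ ≤ 1 := fun i n => by
    rw [hφf]
    exact norm_phiV G f (g i) hf1 (hg1 i) n
  obtain ⟨h, hh⟩ : ∃ h : ℕ × ℕ → ℝ, h = fun l => ‖AvN l.2 (φf l.1)‖ := ⟨_, rfl⟩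
  have hh0 : ∀ l, 0 ≤ h l := fun l => by rw [hh]; exact norm_nonneg _
  have hh1 : ∀ l, h l ≤ 1 := fun l => by rw [hh]; exact norm_AvN_le (hφf1 _) _
  have hhb : ∃ C, ∀ l, |h l| ≤ C := ⟨1, fun l => by rw [abs_of_nonneg (hh0 l)]; exact hh1 l⟩
  obtain ⟨Mh, hMh⟩ : ∃ Mh : ℝ, Mh = M.m (fun ω => h (E.lab ω)) := ⟨_, rfl⟩
  have hMhε : ε ≤ Mh := by
    rw [hMh]
    refine hlow (fun ω => h (E.lab ω)) ⟨1, fun ω => by
      dsimp only; rw [abs_of_nonneg (hh0 _)]; exact hh1 _⟩ ε (fun i => ?_)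
    have := hcon i
    simp only [hE1, hh, hφf]
    exact this
  -- rounding
  obtain ⟨τ, hτ⟩ : ∃ τ : ℝ, τ = ε / (8 * (k + 1)) := ⟨_, rfl⟩
  have hτ0 : 0 < τ := by rw [hτ]; positivity
  have hsτ : k * τ ≤ ε / 8 := by
    rw [hτ]
    have h1 : (k : ℝ) * (ε / (8 * (k + 1))) = (k / (k + 1)) * (ε / 8) := by field_simp
    rw [h1]
    refine mul_le_of_le_one_left (by positivity) ?_
    rw [div_le_one (by positivity)]
    linarith
  obtain ⟨R, iR, enc, dec, hR⟩ := t_RND τ hτ0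
  obtain ⟨u, hu⟩ : ∃ u : ℕ → Fin k → ℕ → R, u = fun i j n => enc (g i j n) := ⟨_, rfl⟩
  obtain ⟨gt, hgt⟩ : ∃ gt : ℕ → Fin k → ℕ → ℂ, gt = fun i j n => dec (u i j n) := ⟨_, rfl⟩
  have hgt1 : ∀ i j n, ‖gt i j n‖ ≤ 1 := fun i j n => by
    rw [hgt, hu]; exact (hR _ (hg1 i j n)).1
  have hgtτ : ∀ i j n, ‖gt i j n - g i j n‖ ≤ τ := fun i j n => by
    rw [hgt, hu]; exact (hR _ (hg1 i j n)).2
  obtain ⟨κ, hκ⟩ : ∃ κ : ℕ → ℕ × ℕ → ℂ, κ = fun p l => if p.Prime then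
    (ph (∑ n ∈ Icc 1 (l.2 / p), φf l.1 n) * (- ∏ j, starRingEnd ℂ (g l.1 j p)))
    else 0 := ⟨_, rfl⟩
  have hκ1 : ∀ p l, ‖κ p l‖ ≤ 1 := fun p l => by
    rw [hκ]
    dsimp only
    split_ifs with hp
    · rw [norm_mul, norm_neg, norm_prod]
      refine mul_le_one₀ (norm_ph _) (prod_nonneg fun _ _ => norm_nonneg _)
        (prod_le_one (fun _ _ => norm_nonneg _) fun j _ => ?_)
      rw [RCLike.norm_conj, hgp _ _ _ hp]
    · simp
  obtain ⟨Θ, hΘ⟩ : ∃ Θ : ℕ → (Fin s → ℕ) → (ℕ × ℕ × ℕ) → ℂ, Θ = fun p r ω => psiV G f (gt ω.1) p r ω.2.2 :=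
    ⟨_, rfl⟩
  have hΘ1 : ∀ p r ω, ‖Θ p r ω‖ ≤ 1 := fun p r ω => by
    rw [hΘ]; exact norm_psiV G f _ hf1 (hgt1 _) p r _
  obtain ⟨Uω, hUω⟩ : ∃ Uω : (ℕ × ℕ × ℕ) → Fin s → ℕ, Uω = fun ω => un G ω.2.2 := ⟨_, rfl⟩
  -- independence
  have hIND : IndV M Uω (fun ω p => κ p (E.lab ω)) := by
    intro n₀ Q r r' hQ hr hr' φ hφ
    have hNZ : NeZero Q := ⟨by omega⟩
    have hQ0 : (0 : ℝ) < Q := by exact_mod_cast hQ
    have hQs : (0 : ℝ) < (Q : ℝ) ^ (s + 1) := by positivity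
    obtain ⟨Y, hY⟩ : ∃ Y : (ℕ × ℕ × ℕ) → ℝ, Y = fun ω => φ (fun p => κ p (E.lab ω)) := ⟨_, rfl⟩
    have hY1 : ∀ ω, |Y ω| ≤ 1 := fun ω => by rw [hY]; exact hφ _
    have hYb : Bd Y := ⟨1, hY1⟩
    have hb1 : Bd (fun ω => if M.ν ω % Q = r ∧ (fun i => Uω ω i % Q) = r' then Y ω else 0) := ⟨1, fun ω => by
      dsimp only
      split_ifs
      · exact hY1 ω
      · simp⟩
    have h1 : M.m (fun ω => (if M.ν ω % Q = r ∧ (fun i => Uω ω i % Q) = r' then Y ω else 0) -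
        (1 / (Q : ℝ) ^ (s + 1)) * Y ω) = 0 := by
      refine hzero _ 2 (by norm_num) (fun ω => ?_) ?_
      · refine (abs_sub _ _).trans ?_
        have h2 : |(if M.ν ω % Q = r ∧ (fun i => Uω ω i % Q) = r' then Y ω else 0)| ≤ 1 := by
          split_ifs
          · exact hY1 ω
          · simp
        have h3 : |(1 / (Q : ℝ) ^ (s + 1)) * Y ω| ≤ 1 := by
          rw [abs_mul, abs_of_pos (by positivity)]
          have : (1 : ℝ) / (Q : ℝ) ^ (s + 1) ≤ 1 := by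
            rw [div_le_one hQs]
            exact one_le_pow₀ (by exact_mod_cast hQ)
          exact mul_le_one₀ this (abs_nonneg _) (hY1 ω)
        linarith
      · intro δ hδ
        obtain ⟨N₀, hN₀⟩ := res_unif G.α G.β G.ind Q ((r : ZMod Q), fun i => (r' i : ZMod Q)) δ hδ
        refine ⟨N₀, fun i N hN hNN => ?_⟩
        have hN0 : (0 : ℝ) < N := by exact_mod_cast hN
        have h2 := hN₀ N hNN
        obtain ⟨y, hy⟩ : ∃ y : ℝ, y = φ (fun p => κ p (i, N)) := ⟨_, rfl⟩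
        have hy1 : |y| ≤ 1 := by rw [hy]; exact hφ _
        have hYy : ∀ n, Y (i, N, n) = y := fun n => by
          rw [hY, hy]
          dsimp only
          rw [hE1]
        have hiff : ∀ n : ℕ, (M.ν (i, N, n) % Q = r ∧ (fun i' => Uω (i, N, n) i' % Q) = r') ↔
            (((n : ZMod Q), fun i => ((Uz G.α G.β n i : ℤ) : ZMod Q)) : ZMod Q × (Fin s → ZMod Q)) =
              ((r : ZMod Q), fun i => (r' i : ZMod Q)) := by
          intro n
          have e0 : ∀ (x y : ℕ), y < Q → (x % Q = y ↔ (x : ZMod Q) = (y : ZMod Q)) := by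
            intro x y hy
            rw [ZMod.natCast_eq_natCast_iff']
            rw [Nat.mod_eq_of_lt hy]
          have e1 : M.ν (i, N, n) = n := by rw [hν]
          rw [e1, Prod.ext_iff, hUω]
          dsimp only
          refine and_congr (e0 n r hr) ?_
          rw [funext_iff, funext_iff]
          refine forall_congr' fun i' => ?_
          rw [e0 _ _ (hr' i'), ← un_cast]
          norm_cast
        have h3 : ∀ n, (if M.ν (i, N, n) % Q = r ∧ (fun i' => Uω (i, N, n) i' % Q) = r' then Y (i, N, n) else 0) -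
            (1 / (Q : ℝ) ^ (s + 1)) * Y (i, N, n) =
            y * ((if (((n : ZMod Q), fun i => ((Uz G.α G.β n i : ℤ) : ZMod Q)) : ZMod Q × (Fin s → ZMod Q)) =
              ((r : ZMod Q), fun i => (r' i : ZMod Q)) then (1 : ℝ) else 0) - 1 / (Q : ℝ) ^ (s + 1)) := by
          intro n
          rw [hYy]
          by_cases h4 : (((n : ZMod Q), fun i => ((Uz G.α G.β n i : ℤ) : ZMod Q)) : ZMod Q × (Fin s → ZMod Q)) =
              ((r : ZMod Q), fun i => (r' i : ZMod Q))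
          · rw [if_pos ((hiff n).2 h4), if_pos h4]
            ring
          · rw [if_neg fun h5 => h4 ((hiff n).1 h5), if_neg h4]
            ring
        simp only [h3]
        rw [← mul_sum, sum_sub_distrib, ← sum_filter, sum_const, sum_const, nsmul_eq_mul, nsmul_eq_mul,
          Nat.card_Icc, Nat.add_sub_cancel, mul_one, cnt_eq, ← mul_assoc, mul_comm (1 / (N : ℝ)) y, mul_assoc,
          abs_mul, abs_mul]
        have e5 : |1 / (N : ℝ)| = 1 / N := abs_of_pos (by positivity)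
        rw [e5]
        have e6 : (N : ℝ) * (1 / (Q : ℝ) ^ (s + 1)) = N / (Q : ℝ) ^ (s + 1) := by ring
        rw [e6]
        calc |y| * (1 / (N : ℝ) * |_|) ≤ 1 * (1 / (N : ℝ) * (δ * N)) := by gcongr
          _ = δ := by field_simp
    rw [M.sub hb1 (hYb.smul _), M.smul _ _ hYb, sub_eq_zero, hY] at h1
    exact h1
  -- the parameters of the windows
  obtain ⟨L, hL1, hL2, hL3⟩ := exL G
  obtain ⟨y0, hdet⟩ := det4 G
  -- small means
  have hmcs : ∀ (Φ : (ℕ × ℕ × ℕ) → ℂ) (C δ : ℝ), 0 ≤ C → 0 ≤ δ → (∀ ω, ‖Φ ω‖ ≤ C) →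
      (∃ N₀ : ℕ, ∀ i N : ℕ, 1 ≤ N → N₀ ≤ N → ‖(1 / (N : ℂ)) * ∑ n ∈ Icc 1 N, Φ (i, N, n)‖ ≤ δ) →
      ‖mc M Φ‖ ≤ 2 * δ := by
    intro Φ C δ hC hδ hΦ h
    obtain ⟨N₀, hN₀⟩ := h
    have hre : ∀ (c : ℝ), |c| = 1 → M.m (fun ω => c * (Φ ω).re) ≤ δ := by
      intro c hc
      refine hsmall _ C δ hC hδ (fun ω => ?_) ⟨N₀, fun i N hN hNN => ?_⟩
      · rw [abs_mul, hc, one_mul]
        exact (Complex.abs_re_le_norm _).trans (hΦ ω)
      · have h1 := (Complex.abs_re_le_norm _).trans (hN₀ i N hN hNN)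
        have e1 : ((1 / (N : ℂ)) * ∑ n ∈ Icc 1 N, Φ (i, N, n)).re = (1 / (N : ℝ)) * ∑ n ∈ Icc 1 N, (Φ (i, N, n)).re := by
          have e1 : (1 / (N : ℂ)) = ((1 / (N : ℝ) : ℝ) : ℂ) := by push_cast; ring
          rw [e1, Complex.re_ofReal_mul, Complex.re_sum]
        rw [e1] at h1
        have e2 : (1 / (N : ℝ)) * ∑ n ∈ Icc 1 N, c * (Φ (i, N, n)).re =
            c * ((1 / (N : ℝ)) * ∑ n ∈ Icc 1 N, (Φ (i, N, n)).re) := by
          rw [← mul_sum]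
          ring
        rw [e2]
        refine (le_abs_self _).trans ?_
        rw [abs_mul, hc, one_mul]
        exact h1
    have him : ∀ (c : ℝ), |c| = 1 → M.m (fun ω => c * (Φ ω).im) ≤ δ := by
      intro c hc
      refine hsmall _ C δ hC hδ (fun ω => ?_) ⟨N₀, fun i N hN hNN => ?_⟩
      · rw [abs_mul, hc, one_mul]
        exact (Complex.abs_im_le_norm _).trans (hΦ ω)
      · have h1 := (Complex.abs_im_le_norm _).trans (hN₀ i N hN hNN)
        have e1 : ((1 / (N : ℂ)) * ∑ n ∈ Icc 1 N, Φ (i, N, n)).im = (1 / (N : ℝ)) * ∑ n ∈ Icc 1 N, (Φ (i, N, n)).im := by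
          have e1 : (1 / (N : ℂ)) = ((1 / (N : ℝ) : ℝ) : ℂ) := by push_cast; ring
          rw [e1, Complex.im_ofReal_mul, Complex.im_sum]
        rw [e1] at h1
        have e2 : (1 / (N : ℝ)) * ∑ n ∈ Icc 1 N, c * (Φ (i, N, n)).im =
            c * ((1 / (N : ℝ)) * ∑ n ∈ Icc 1 N, (Φ (i, N, n)).im) := by
          rw [← mul_sum]
          ring
        rw [e2]
        refine (le_abs_self _).trans ?_
        rw [abs_mul, hc, one_mul]
        exact h1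
    have hbre : Bd (fun ω => (Φ ω).re) := ⟨C, fun ω => (Complex.abs_re_le_norm _).trans (hΦ ω)⟩
    have hbim : Bd (fun ω => (Φ ω).im) := ⟨C, fun ω => (Complex.abs_im_le_norm _).trans (hΦ ω)⟩
    have r1 := hre 1 (by simp)
    have r2 := hre (-1) (by simp)
    have i1 := him 1 (by simp)
    have i2 := him (-1) (by simp)
    rw [M.smul _ _ hbre] at r1 r2
    rw [M.smul _ _ hbim] at i1 i2
    have e1 : |(mc M Φ).re| ≤ δ := by
      show |M.m (fun ω => (Φ ω).re)| ≤ δ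
      rw [abs_le]
      constructor <;> linarith
    have e2 : |(mc M Φ).im| ≤ δ := by
      show |M.m (fun ω => (Φ ω).im)| ≤ δ
      rw [abs_le]
      constructor <;> linarith
    have := Complex.norm_le_abs_re_add_abs_im (mc M Φ)
    linarith
  -- the choice of the scale
  obtain ⟨C₂, hC₂0, hC₂⟩ := excV G
  obtain ⟨τ₁, hτ₁⟩ : ∃ τ₁ : ℝ, τ₁ = ε / (32 * (s + 1)) := ⟨_, rfl⟩
  have hτ₁0 : 0 < τ₁ := by rw [hτ₁]; positivity
  have hsτ₁ : 2 * s * τ₁ ≤ ε / 16 := by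
    rw [hτ₁]
    have h1 : 2 * (s : ℝ) * (ε / (32 * (s + 1))) = (s / (s + 1)) * (ε / 16) := by field_simp; ring
    rw [h1]
    refine mul_le_of_le_one_left (by positivity) ?_
    rw [div_le_one (by positivity)]
    linarith
  obtain ⟨η₀, hη₀, hη₀0⟩ : ∃ η₀ : ℝ, (∀ i, ∀ (c : ℝ) (N : ℕ), cnt N (fun m : ℕ => nz (G.α i * m + c) η₀) ≤ τ₁ * N + 1) ∧
      0 < η₀ := by
    have h1 : ∀ i, ∀ᶠ η in 𝓝[>] (0 : ℝ), ∀ (c : ℝ) (N : ℕ), cnt N (fun m : ℕ => nz (G.α i * m + c) η) ≤ τ₁ * N + 1 :=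
      fun i => sparse (G.α i) (G.ind.irr i) τ₁ hτ₁0
    exact ((eventually_all.2 h1).and self_mem_nhdsWithin).exists
  obtain ⟨Jf, hJf⟩ := fin_est G.α G.β G.a0 G.h0 G.a G.h G.pos0 G.D G.y0 G.y G.kill G.nkill f hf1 hf0 hEs
    (ε / 16) (by positivity)
  obtain ⟨J₁, hJ₁⟩ : ∃ J₁ : ℕ, 32 * C₂ / ε + 2 / η₀ < 2 ^ J₁ := pow_unbounded_of_one_lt _ (by norm_num)
  obtain ⟨j, hjJ, hj⟩ := good4 M (fun ω => ltrV G f L (u ω.1) ω.2.2) Uω (fun a i => ((a.2.2 i : Fin (L + 1)) : ℕ))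
    (fun ω i => by
      rw [hUω, hS]
      dsimp only
      unfold ltrV
      dsimp only
      obtain ⟨g1, g2⟩ := un_inc G L hL1 ω.2.2 i
      rw [Fin.val_ofNat, Nat.mod_eq_of_lt (Nat.lt_succ_of_le g2)]
      omega) (fun ω p => κ p (E.lab ω)) Θ (fun ω p => hκ1 p _) (fun ω => by funext p; rw [E.lab_S]) hΘ1 hIND
    (2 * y0 + 1) y0 (by omega) (fun j₀ p hp l hl ω ω' hwin r hr => by
      rw [hΘ, hgt]
      dsimp only
      rw [hSit, hSit]
      dsimp only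
      refine hdet f hf dec L hL1 hL2 hL3 j₀ p hp l hl ω.2.2 ω'.2.2 (u ω.1) (u ω'.1) (fun x hx => ?_) r hr
      have h1 := congrFun hwin ⟨x, hx⟩
      unfold win at h1
      dsimp only at h1
      rw [hSit, hSit] at h1
      exact h1) (ε / 8) (by positivity) (J₁ + Jf + 1)
  have hj1 : 1 ≤ j := by omega
  have hcard := PD_pos hj1
  have hcard' : (0 : ℝ) < (PD j).card := by exact_mod_cast hcard
  have hplarge : ∀ p ∈ PD j, 32 * C₂ / ε + 2 / η₀ ≤ (p : ℝ) := by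
    intro p hp
    have h11 := (mem_Ioc.1 (mem_filter.1 hp).1).1
    have h12 : 2 ^ J₁ ≤ 2 ^ (j - 1) := Nat.pow_le_pow_right (by norm_num) (by omega)
    have h13 : (2 : ℝ) ^ J₁ ≤ p := by exact_mod_cast h12.trans h11.le
    linarith
  obtain ⟨A1, hA1⟩ : ∃ A1 : ℕ → (ℕ × ℕ × ℕ) → ℂ, A1 = fun p ω => (if p ∣ M.ν ω then (p : ℂ) else 0) *
    (κ p (E.lab ω) * Θ p (fun i => Uω ω i % p) ω) := ⟨_, rfl⟩
  obtain ⟨A2, hA2⟩ : ∃ A2 : ℕ → (ℕ × ℕ × ℕ) → ℂ, A2 = fun p ω => κ p (E.lab ω) *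
    ((∑ r ∈ Rs s p, Θ p r ω) / (p : ℂ) ^ s) := ⟨_, rfl⟩
  have hA1b : ∀ p ω, ‖A1 p ω‖ ≤ p := fun p ω => by
    rw [hA1]
    dsimp only
    have h1 : ‖κ p (E.lab ω) * Θ p (fun i => Uω ω i % p) ω‖ ≤ 1 := by
      rw [norm_mul]
      exact mul_le_one₀ (hκ1 _ _) (norm_nonneg _) (hΘ1 _ _ _)
    have h2 : ‖(if p ∣ M.ν ω then (p : ℂ) else 0)‖ ≤ p := by
      split_ifs <;> simp
    rw [norm_mul]
    calc _ ≤ (p : ℝ) * 1 := mul_le_mul h2 h1 (norm_nonneg _) (by positivity)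
      _ = p := mul_one _
  have hA2e : ∀ p, 1 ≤ p → ∀ ω, A2 p ω = κ p (E.lab ω) *
      bav (Ff f (gt ω.1) G.a0 G.h0 G.a G.h p ω.2.2) (Uz G.α G.β ω.2.2 + bq G.β p) p := by
    intro p hp ω
    rw [hA2, hΘ]
    dsimp only
    rw [avg_psi G f (gt ω.1) p hp]
  have hA2b : ∀ p, 1 ≤ p → ∀ ω, ‖A2 p ω‖ ≤ 1 := fun p hp ω => by
    rw [hA2e p hp, norm_mul]
    exact mul_le_one₀ (hκ1 _ _) (norm_nonneg _) (norm_bav _ _ _ hp 1 (norm_Ff _ _ _ _ _ _ hf1 (hgt1 _) _ _))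
  have hjA : ‖(∑ p ∈ PD j, mc M (A1 p)) - ∑ p ∈ PD j, mc M (A2 p)‖ ≤ ε / 8 * (PD j).card := by
    rw [hA1, hA2]
    exact hj
  -- the first sum
  have hlo : ∀ p ∈ PD j, Mh - ε / 8 - ε / 8 ≤ (mc M (A1 p)).re := by
    intro p hp
    have hpp : p.Prime := (mem_filter.1 hp).2
    have hp0 : (0 : ℝ) < p := by exact_mod_cast hpp.pos
    have hkp : 2 * C₂ / (p : ℝ) ≤ ε / 16 := by
      have h1 := hplarge p hp
      have h2 : 32 * C₂ / ε ≤ p := by
        have : (0 : ℝ) ≤ 2 / η₀ := by positivity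
        linarith
      rw [div_le_iff₀ hε] at h2
      rw [div_le_iff₀ hp0]
      linarith
    have hpη : 2 / (p : ℝ) ≤ η₀ := by
      have h1 := hplarge p hp
      have h2 : 2 / η₀ ≤ p := by
        have : (0 : ℝ) ≤ 32 * C₂ / ε := by positivity
        linarith
      rw [div_le_iff₀ hη₀0] at h2
      rw [div_le_iff₀ hp0]
      linarith
    -- the error term
    obtain ⟨K₂, hK₂⟩ : ∃ K₂ : ℝ, K₂ = 2 * C₂ + 2 * s + 1 := ⟨_, rfl⟩
    have hK₂0 : 0 ≤ K₂ := by rw [hK₂]; positivity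
    obtain ⟨W, hW⟩ : ∃ W : (ℕ × ℕ × ℕ) → ℝ, W = fun ω => K₂ * p / ω.2.1 := ⟨_, rfl⟩
    have hWn : ∀ ω, 0 ≤ W ω := fun ω => by
      rw [hW]
      dsimp only
      positivity
    have hWb : ∀ ω, |W ω| ≤ K₂ * p := fun ω => by
      rw [abs_of_nonneg (hWn ω), hW]
      dsimp only
      rcases Nat.eq_zero_or_pos ω.2.1 with h0 | h0
      · rw [h0]
        simp
        positivity
      · exact div_le_self (by positivity) (by exact_mod_cast h0)
    have hW0 : M.m W = 0 := by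
      refine hzero W (K₂ * p) (by positivity) hWb ?_
      intro δ hδ
      obtain ⟨i₂, hi₂⟩ := exists_nat_ge (K₂ * p / δ)
      refine ⟨i₂, fun i N hN hNN => ?_⟩
      have hN0 : (0 : ℝ) < N := by exact_mod_cast hN
      have h5 : ∀ n, W (i, N, n) = K₂ * p / N := by
        intro n
        rw [hW]
      simp only [h5, sum_const, Nat.card_Icc, Nat.add_sub_cancel, nsmul_eq_mul]
      have h6 : (1 / (N : ℝ)) * (N * (K₂ * p / N)) = K₂ * p / N := by field_simp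
      rw [h6, abs_of_nonneg (by positivity), div_le_iff₀ hN0]
      have h8 : (i₂ : ℝ) ≤ N := by exact_mod_cast hNN
      rw [div_le_iff₀ hδ] at hi₂
      nlinarith
    have hb1 : Bd (fun ω => (A1 p ω).re) := BC.re ⟨p, hA1b p⟩
    have hb2 : Bd (fun ω => h ((E.lab ω).1, (E.lab ω).2 / p)) := ⟨1, fun ω => by
      dsimp only; rw [abs_of_nonneg (hh0 _)]; exact hh1 _⟩
    have hbW : Bd W := ⟨_, hWb⟩
    have h1 := hlow (fun ω => (A1 p ω).re - h ((E.lab ω).1, (E.lab ω).2 / p) + W ω)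
      ((hb1.sub hb2).add hbW) (-(ε / 8 + ε / 8)) (fun i => by
        rcases Nat.eq_zero_or_pos (X i) with hX0 | hX0
        · rw [hX0]
          unfold EX
          simp
          positivity
        refine EX_ge (X i) hX0 _ _ fun N hN => ?_
        have hN0 : (0 : ℝ) < N := by exact_mod_cast hN
        have h1 := dil_fin4 G C₂ hC₂0 hC₂ τ₁ hτ₁0.le p hpp (fun i' M' => by
            refine le_trans (cnt_mono M' fun m hm => ?_) (hη₀ i' (G.β i') M')
            obtain ⟨z, hz⟩ := hm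
            exact ⟨z, hz.trans hpη⟩) f hf1 (g i) (gt i) (hg1 i) (hgt1 i) τ (hgtτ i)
          (fun n => hfp p n hpp) (fun j => hgp i j p hpp) (fun j n => hgm i j p n hpp) N hN
        rw [← hK₂] at h1
        have h4 : ∀ n, (A1 p (i, N, n)).re - h ((E.lab (i, N, n)).1, (E.lab (i, N, n)).2 / p) +
            W (i, N, n) = ((if p ∣ n then (p : ℂ) else 0) *
            ((ph (∑ n ∈ Icc 1 (N / p), phiV G f (g i) n) * (- ∏ j, starRingEnd ℂ (g i j p))) *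
            psiV G f (gt i) p (fun i' => un G n i' % p) n)).re +
            (K₂ * p / N - ‖AvN (N / p) (phiV G f (g i))‖) := by
          intro n
          have e1 : W (i, N, n) = K₂ * p / N := by rw [hW]
          have e2 : h ((E.lab (i, N, n)).1, (E.lab (i, N, n)).2 / p) =
              ‖AvN (N / p) (phiV G f (g i))‖ := by
            rw [hE1, hh, hφf]
          have e3 : A1 p (i, N, n) = (if p ∣ n then (p : ℂ) else 0) *
              ((ph (∑ n ∈ Icc 1 (N / p), phiV G f (g i) n) * (- ∏ j, starRingEnd ℂ (g i j p))) *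
              psiV G f (gt i) p (fun i' => un G n i' % p) n) := by
            rw [hA1, hκ, hΘ, hUω, hφf]
            dsimp only
            rw [if_pos hpp, hE1, hν]
          rw [e1, e2, e3]
          ring
        simp only [h4]
        rw [sum_add_distrib, mul_add, sum_const, Nat.card_Icc, Nat.add_sub_cancel, nsmul_eq_mul]
        have h5 : (1 / (N : ℝ)) * (N * (K₂ * p / N - ‖AvN (N / p) (phiV G f (g i))‖)) =
            K₂ * p / N - ‖AvN (N / p) (phiV G f (g i))‖ := by field_simp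
        rw [h5]
        linarith)
    rw [M.add _ _ (hb1.sub hb2) hbW, M.sub hb1 hb2, hW0] at h1
    have h2 : M.m (fun ω => h ((E.lab ω).1, (E.lab ω).2 / p)) = Mh := by
      have h3 := dil_lab M E (h := h) hhb p hpp.one_le
      rw [hMh, ← h3]
      congr 1
      funext ω
      rw [hE2]
    rw [h2] at h1
    have h3 : (mc M (A1 p)).re = M.m (fun ω => (A1 p ω).re) := rfl
    rw [h3]
    linarith
  -- the second sum
  have hup : ‖∑ p ∈ PD j, mc M (A2 p)‖ ≤ ε / 8 * (PD j).card := by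
    obtain ⟨N₀, hN₀⟩ := hJf j (by omega)
    rw [← mc_sum M (PD j) (fun p hp => ⟨1, hA2b p (mem_filter.1 hp).2.one_le⟩)]
    have h1 := hmcs (fun ω => ∑ p ∈ PD j, A2 p ω) (PD j).card (ε / 16 * (PD j).card) hcard'.le (by positivity)
      (fun ω => by
        refine (norm_sum_le _ _).trans ((sum_le_sum fun p hp => hA2b p (mem_filter.1 hp).2.one_le ω).trans ?_)
        simp) ⟨N₀, fun i N hN hNN => ?_⟩
    · refine h1.trans (le_of_eq ?_)
      ring
    · have h2 := hN₀ N hNN (fun p => κ p (i, N)) (fun p => hκ1 p _) (gt i) (hgt1 i)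
      refine le_trans (le_of_eq ?_) h2
      congr 1
      rw [sum_comm, mul_sum]
      refine sum_congr rfl fun p hp => ?_
      have e1 : ∀ n : ℕ, A2 p (i, N, n) = κ p (i, N) *
          bav (Ff f (gt i) G.a0 G.h0 G.a G.h p n) (Uz G.α G.β n + bq G.β p) p := by
        intro n
        rw [hA2e p (mem_filter.1 hp).2.one_le, hE1]
      unfold tub
      rw [← sum_Icc_Ioc N (fun n => bav (Ff f (gt i) G.a0 G.h0 G.a G.h p n) (Uz G.α G.β n + bq G.β p) p),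
        sum_congr rfl fun n _ => e1 n, ← mul_sum]
      ring
  have h1 : ((PD j).card : ℝ) * (Mh - ε / 8 - ε / 8) ≤ (∑ p ∈ PD j, mc M (A1 p)).re := by
    rw [Complex.re_sum, ← nsmul_eq_mul, ← sum_const]
    exact sum_le_sum hlo
  have h2 := Complex.re_le_norm (∑ p ∈ PD j, mc M (A1 p))
  have h3 := norm_sub_norm_le (∑ p ∈ PD j, mc M (A1 p)) (∑ p ∈ PD j, mc M (A2 p))
  nlinarith

end Pool.Agent.Q270.EV
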